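import Pool.Agent.H13.Steklov.Defs

/-! # Calculus on the slab -/

open scoped ContDiff Topology Pointwise
open Set Filter

namespace Pool.Agent.H13.Steklov

theorem slab_eq : slab = (fun p : Pt => p 0) ⁻¹' Icc (0 : ℝ) 1 := rfl

theorem isClosed_slab : IsClosed slab :=
  isClosed_Icc.preimage (continuous_apply 0)

theorem convex_slab : Convex ℝ slab :=
  (convex_Icc (0 : ℝ) 1).is_linear_preimage (IsLinearMap.mk (fun _ _ => rfl) fun _ _ => rfl)

theorem slab_mem_nhds {p : Pt} (h : p 0 ∈ Ioo (0 : ℝ) 1) : slab ∈ 𝓝 p :=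
  (continuous_apply (0 : Fin 3)).continuousAt.preimage_mem_nhds (Icc_mem_nhds h.1 h.2)

theorem uniqueDiffOn_slab : UniqueDiffOn ℝ slab := by
  apply uniqueDiffOn_convex convex_slab
  refine ⟨fun _ => 1 / 2, mem_interior_iff_mem_nhds.2 (slab_mem_nhds ?_)⟩
  constructor <;> norm_num

theorem bdry_subset : bdry ⊆ slab := by
  rintro p (h | h) <;> · rw [slab, mem_ofPred_eq, h]; simp

theorem mem_slab_add {p : Pt} (hp : p ∈ slab) {v : Pt} (hv : v 0 = 0) : p + v ∈ slab := by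
  rw [slab, mem_ofPred_eq, Pi.add_apply, hv, add_zero]; exact hp

theorem contDiffOn_pd {u : Pt → ℝ} (hu : ContDiffOn ℝ ∞ u slab) (i : Fin 3) :
    ContDiffOn ℝ ∞ (pd i u) slab := by
  have h : ContDiffOn ℝ ∞ (fderivWithin ℝ u slab) slab :=
    hu.fderivWithin uniqueDiffOn_slab (by simp)
  exact h.clm_apply contDiffOn_const

theorem differentiableWithinAt_of_smooth {u : Pt → ℝ} (hu : ContDiffOn ℝ ∞ u slab) {p : Pt}
    (hp : p ∈ slab) : DifferentiableWithinAt ℝ u slab p :=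
  (hu.differentiableOn (by simp)) p hp

theorem pd_congr {u v : Pt → ℝ} (h : EqOn u v slab) (i : Fin 3) : EqOn (pd i u) (pd i v) slab := by
  intro p hp
  unfold pd
  rw [fderivWithin_congr h (h hp)]

theorem pd_add {u v : Pt → ℝ} (hu : ContDiffOn ℝ ∞ u slab) (hv : ContDiffOn ℝ ∞ v slab)
    (i : Fin 3) {p : Pt} (hp : p ∈ slab) :
    pd i (fun q => u q + v q) p = pd i u p + pd i v p := by
  unfold pd
  rw [fderivWithin_fun_add (uniqueDiffOn_slab p hp) (differentiableWithinAt_of_smooth hu hp)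
    (differentiableWithinAt_of_smooth hv hp)]
  rfl

theorem pd_sub {u v : Pt → ℝ} (hu : ContDiffOn ℝ ∞ u slab) (hv : ContDiffOn ℝ ∞ v slab)
    (i : Fin 3) {p : Pt} (hp : p ∈ slab) :
    pd i (fun q => u q - v q) p = pd i u p - pd i v p := by
  unfold pd
  rw [fderivWithin_fun_sub (uniqueDiffOn_slab p hp) (differentiableWithinAt_of_smooth hu hp)
    (differentiableWithinAt_of_smooth hv hp)]
  rfl

theorem pd_const (c : ℝ) (i : Fin 3) (p : Pt) : pd i (fun _ => c) p = 0 := by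
  unfold pd
  simp

theorem pd_const_mul (c : ℝ) {u : Pt → ℝ} (hu : ContDiffOn ℝ ∞ u slab) (i : Fin 3) {p : Pt}
    (hp : p ∈ slab) : pd i (fun q => c * u q) p = c * pd i u p := by
  unfold pd
  rw [fderivWithin_const_mul (uniqueDiffOn_slab p hp) (differentiableWithinAt_of_smooth hu hp) c]
  rfl

theorem pd_mul {u v : Pt → ℝ} (hu : ContDiffOn ℝ ∞ u slab) (hv : ContDiffOn ℝ ∞ v slab)
    (i : Fin 3) {p : Pt} (hp : p ∈ slab) :
    pd i (fun q => u q * v q) p = pd i u p * v p + u p * pd i v p := by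
  unfold pd
  rw [fderivWithin_fun_mul (uniqueDiffOn_slab p hp) (differentiableWithinAt_of_smooth hu hp)
    (differentiableWithinAt_of_smooth hv hp)]
  simp only [add_apply, smul_apply, smul_eq_mul]
  ring

theorem contDiffOn_iterPd {u : Pt → ℝ} (hu : ContDiffOn ℝ ∞ u slab) (l : List (Fin 3)) :
    ContDiffOn ℝ ∞ (iterPd l u) slab := by
  induction l with
  | nil => exact hu
  | cons i l ih => exact contDiffOn_pd ih i

/-- Functions of the first coordinate. -/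
theorem contDiffOn_fst {f : ℝ → ℝ} (hf : ContDiff ℝ ∞ f) : ContDiffOn ℝ ∞ (fun p : Pt => f (p 0)) slab :=
  (hf.comp (contDiff_apply ℝ ℝ (0 : Fin 3))).contDiffOn

theorem smoothFn_fst {f : ℝ → ℝ} (hf : ContDiff ℝ ∞ f) : SmoothFn fun p : Pt => f (p 0) := by
  refine ⟨contDiffOn_fst hf, fun p _ => ⟨?_, ?_⟩⟩ <;> simp

theorem hasFDerivAt_pd {u : Pt → ℝ} {u' : Pt →L[ℝ] ℝ} {p : Pt} (hp : p ∈ slab)
    (h : HasFDerivAt u u' p) (i : Fin 3) : pd i u p = u' (Pi.single i 1) := by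
  unfold pd
  rw [h.hasFDerivWithinAt.fderivWithin (uniqueDiffOn_slab p hp)]

theorem pd_zero_fst {f : ℝ → ℝ} {p : Pt} (hp : p ∈ slab) (hf : DifferentiableAt ℝ f (p 0)) :
    pd 0 (fun q => f (q 0)) p = deriv f (p 0) := by
  have h1 : HasFDerivAt (fun q : Pt => q 0) (ContinuousLinearMap.proj (R := ℝ) (φ := fun _ : Fin 3 => ℝ) 0) p :=
    (ContinuousLinearMap.proj (R := ℝ) (φ := fun _ : Fin 3 => ℝ) 0).hasFDerivAt
  have h2 : HasFDerivAt (fun q : Pt => f (q 0)) _ p := hf.hasDerivAt.comp_hasFDerivAt p h1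
  rw [hasFDerivAt_pd hp h2 0]
  simp

theorem pd_succ_fst {f : ℝ → ℝ} {p : Pt} (hp : p ∈ slab) (hf : DifferentiableAt ℝ f (p 0))
    {i : Fin 3} (hi : i ≠ 0) : pd i (fun q => f (q 0)) p = 0 := by
  have h1 : HasFDerivAt (fun q : Pt => q 0) (ContinuousLinearMap.proj (R := ℝ) (φ := fun _ : Fin 3 => ℝ) 0) p :=
    (ContinuousLinearMap.proj (R := ℝ) (φ := fun _ : Fin 3 => ℝ) 0).hasFDerivAt
  have h2 : HasFDerivAt (fun q : Pt => f (q 0)) _ p := hf.hasDerivAt.comp_hasFDerivAt p h1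
  rw [hasFDerivAt_pd hp h2 i]
  simp [Pi.single_apply, hi.symm]

/-! ### Periodicity -/

theorem periodic_add {u v : Pt → ℝ} (hu : Periodic u) (hv : Periodic v) :
    Periodic fun q => u q + v q := fun p hp =>
  ⟨congrArg₂ (· + ·) (hu p hp).1 (hv p hp).1, congrArg₂ (· + ·) (hu p hp).2 (hv p hp).2⟩

theorem smoothFn_add {u v : Pt → ℝ} (hu : SmoothFn u) (hv : SmoothFn v) :
    SmoothFn fun q => u q + v q := ⟨hu.1.add hv.1, periodic_add hu.2 hv.2⟩

theorem smoothFn_mul {u v : Pt → ℝ} (hu : SmoothFn u) (hv : SmoothFn v) :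
    SmoothFn fun q => u q * v q :=
  ⟨hu.1.mul hv.1, fun p hp =>
    ⟨congrArg₂ (· * ·) (hu.2 p hp).1 (hv.2 p hp).1,
      congrArg₂ (· * ·) (hu.2 p hp).2 (hv.2 p hp).2⟩⟩

theorem smoothFn_const (c : ℝ) : SmoothFn fun _ => c :=
  ⟨contDiffOn_const, fun _ _ => ⟨rfl, rfl⟩⟩

theorem smoothFn_const_mul (c : ℝ) {u : Pt → ℝ} (hu : SmoothFn u) :
    SmoothFn fun q => c * u q := smoothFn_mul (smoothFn_const c) hu

theorem smoothFn_sub {u v : Pt → ℝ} (hu : SmoothFn u) (hv : SmoothFn v) :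
    SmoothFn fun q => u q - v q :=
  ⟨hu.1.sub hv.1, fun p hp =>
    ⟨congrArg₂ (· - ·) (hu.2 p hp).1 (hv.2 p hp).1,
      congrArg₂ (· - ·) (hu.2 p hp).2 (hv.2 p hp).2⟩⟩

theorem vadd_slab {v : Pt} (hv : v 0 = 0) : v +ᵥ slab = slab := by
  ext p
  rw [mem_vadd_set_iff_neg_vadd_mem]
  change (-v + p) 0 ∈ Icc (0 : ℝ) 1 ↔ p 0 ∈ Icc (0 : ℝ) 1
  rw [Pi.add_apply, Pi.neg_apply, hv, neg_zero, zero_add]

theorem pd_add_vec {u : Pt → ℝ} {v : Pt} (hv : v 0 = 0) (h : ∀ p ∈ slab, u (p + v) = u p)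
    (i : Fin 3) {p : Pt} (hp : p ∈ slab) : pd i u (p + v) = pd i u p := by
  have h1 := fderivWithin_comp_add_right (𝕜 := ℝ) (f := u) (x := p) (s := slab) v
  rw [vadd_slab hv] at h1
  unfold pd
  rw [← h1, fderivWithin_congr (fun q hq => h q hq) (h p hp)]

theorem smoothFn_pd {u : Pt → ℝ} (hu : SmoothFn u) (i : Fin 3) : SmoothFn (pd i u) :=
  ⟨contDiffOn_pd hu.1 i, fun p hp =>
    ⟨pd_add_vec (by simp) (fun q hq => (hu.2 q hq).1) i hp,
      pd_add_vec (by simp) (fun q hq => (hu.2 q hq).2) i hp⟩⟩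

/-- Integer translations. -/
theorem periodic_int {u : Pt → ℝ} (hu : Periodic u) {p : Pt} (hp : p ∈ slab) (m n : ℤ) :
    u (p + (Pi.single 1 (m : ℝ) + Pi.single 2 (n : ℝ))) = u p := by
  have h1 : ∀ (k : ℕ) (q : Pt), q ∈ slab → u (q + Pi.single 1 (k : ℝ)) = u q := by
    intro k
    induction k with
    | zero => intro q _; simp
    | succ k ih =>
      intro q hq
      have e : q + Pi.single 1 ((k + 1 : ℕ) : ℝ) = (q + Pi.single 1 (k : ℝ)) + Pi.single 1 1 := by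
        rw [add_assoc, ← Pi.single_add]; push_cast; rfl
      have hq' : q + Pi.single 1 (k : ℝ) ∈ slab := mem_slab_add hq (by simp)
      rw [e, (hu _ hq').1, ih q hq]
  have h2 : ∀ (k : ℕ) (q : Pt), q ∈ slab → u (q + Pi.single 2 (k : ℝ)) = u q := by
    intro k
    induction k with
    | zero => intro q _; simp
    | succ k ih =>
      intro q hq
      have e : q + Pi.single 2 ((k + 1 : ℕ) : ℝ) = (q + Pi.single 2 (k : ℝ)) + Pi.single 2 1 := by
        rw [add_assoc, ← Pi.single_add]; push_cast; rfl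
      have hq' : q + Pi.single 2 (k : ℝ) ∈ slab := mem_slab_add hq (by simp)
      rw [e, (hu _ hq').2, ih q hq]
  have h1' : ∀ (k : ℤ) (q : Pt), q ∈ slab → u (q + Pi.single 1 (k : ℝ)) = u q := by
    intro k q hq
    rcases Int.eq_nat_or_neg k with ⟨n, rfl | rfl⟩
    · simpa using h1 n q hq
    · have hq' : q + Pi.single 1 ((-(n : ℤ) : ℤ) : ℝ) ∈ slab := mem_slab_add hq (by simp)
      have := h1 n _ hq'
      rw [← this, add_assoc, ← Pi.single_add]
      simp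
  have h2' : ∀ (k : ℤ) (q : Pt), q ∈ slab → u (q + Pi.single 2 (k : ℝ)) = u q := by
    intro k q hq
    rcases Int.eq_nat_or_neg k with ⟨n, rfl | rfl⟩
    · simpa using h2 n q hq
    · have hq' : q + Pi.single 2 ((-(n : ℤ) : ℤ) : ℝ) ∈ slab := mem_slab_add hq (by simp)
      have := h2 n _ hq'
      rw [← this, add_assoc, ← Pi.single_add]
      simp
  rw [← add_assoc, h2' n _ (mem_slab_add hp (by simp)), h1' m p hp]

/-- The fundamental domain. -/
def cube : Set Pt := {p | ∀ i, p i ∈ Icc (0 : ℝ) 1}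

theorem isCompact_cube : IsCompact cube := by
  have h : cube = Set.pi univ fun _ : Fin 3 => Icc (0 : ℝ) 1 := by
    ext p
    exact ⟨fun h i _ => h i, fun h i => h i (mem_univ i)⟩
  rw [h]
  exact isCompact_univ_pi fun _ => isCompact_Icc

theorem cube_subset : cube ⊆ slab := fun _ hp => hp 0

/-- Every point of the slab is equivalent to a point of the cube. -/
theorem exists_cube {p : Pt} (hp : p ∈ slab) :
    ∃ q ∈ cube, q 0 = p 0 ∧ ∀ u : Pt → ℝ, Periodic u → u p = u q := by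
  refine ⟨p + (Pi.single 1 ((-⌊p 1⌋ : ℤ) : ℝ) + Pi.single 2 ((-⌊p 2⌋ : ℤ) : ℝ)), ?_, by simp, ?_⟩
  · intro i
    fin_cases i
    · have h1 : p 0 ∈ Icc (0 : ℝ) 1 := hp
      simpa using h1
    · have h1 := Int.floor_le (p 1)
      have h2 := Int.lt_floor_add_one (p 1)
      simp only [Fin.mk_one, Pi.add_apply]
      have e1 : (Pi.single 1 ((-⌊p 1⌋ : ℤ) : ℝ) : Pt) 1 = -(⌊p 1⌋ : ℝ) := by simp
      have e2 : (Pi.single 2 ((-⌊p 2⌋ : ℤ) : ℝ) : Pt) 1 = 0 := by simp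
      rw [e1, e2]
      constructor <;> linarith
    · have h1 := Int.floor_le (p 2)
      have h2 := Int.lt_floor_add_one (p 2)
      have e0 : (⟨2, by norm_num⟩ : Fin 3) = 2 := rfl
      simp only [Pi.add_apply]
      have e1 : (Pi.single 1 ((-⌊p 1⌋ : ℤ) : ℝ) : Pt) 2 = 0 := by simp
      have e2 : (Pi.single 2 ((-⌊p 2⌋ : ℤ) : ℝ) : Pt) 2 = -(⌊p 2⌋ : ℝ) := by simp
      change p 2 + ((Pi.single 1 ((-⌊p 1⌋ : ℤ) : ℝ) : Pt) 2 +
        (Pi.single 2 ((-⌊p 2⌋ : ℤ) : ℝ) : Pt) 2) ∈ Icc (0 : ℝ) 1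
      rw [e1, e2]
      constructor <;> linarith
  · intro u hu
    exact (periodic_int hu hp _ _).symm

/-- A positive function on the cube bounds below etc.: a periodic continuous function attains its
minimum over the slab at a point of the cube. -/
theorem exists_min {u : Pt → ℝ} (hu : Periodic u) (hc : ContinuousOn u slab) :
    ∃ q ∈ cube, ∀ p ∈ slab, u q ≤ u p := by
  have hne : cube.Nonempty := ⟨fun _ => 0, fun _ => by simp⟩
  obtain ⟨q, hq, hmin⟩ := isCompact_cube.exists_isMinOn hne (hc.mono cube_subset)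
  refine ⟨q, hq, fun p hp => ?_⟩
  obtain ⟨r, hr, -, hur⟩ := exists_cube hp
  rw [hur u hu]
  exact hmin hr

end Pool.Agent.H13.Steklov
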