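import Pool.Agent.H13.Steklov.Op

/-!
# STEK CurveCont: continuity of the conformal Laplacian along a curve of metrics

Paper proof. For `n : ℕ` let `C_n` be the class of families `F : ℝ → Pt → ℝ` such that `F t` is smooth
on the slab (`ContDiffOn ℝ ∞`) for each `t ∈ [0,1]`, and for all lists `l` of length `≤ n` the map
`(t, p) ↦ iterPd l (F t) p` is continuous on `[0,1] × slab`. `C_n` is closed under sums, products
(induction on `n`: `pd_mul`), and under `F ↦ (F)⁻¹` if `F t p ≠ 0` on `[0,1] × slab`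
(`pd i (1/F) = -(pd i F) * (1/F) * (1/F)`, induction on `n`), and `pd i` maps `C_{n+1}` to `C_n`
(note `iterPd (l ++ [i]) u = iterPd l (pd i u)`). The entries of `(γ t p)⁻¹` are
`det⁻¹ * adjugate` (`Matrix.inv_def`, `Matrix.adjugate_fin_three` / polynomials in the entries), so
in all `C_n`. Hence `christ (γ t) k i j` is in `C_1`, `scal (γ t)` in `C_0`, and
`confLap (γ t) φ` in `C_0`. (`iterPd` of two functions which agree on the slab agree on the slab:
`pd_congr`.) For `isCurve_const` use `contDiffOn_iterPd` (which gives `ContinuousOn`).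
-/

open scoped ContDiff Topology
open Set Filter

namespace Pool.Agent.H13.Steklov

/-- Families with jointly continuous derivatives up to order `n`. -/
def CurveContC : ℕ → (ℝ → Pt → ℝ) → Prop
  | 0, F => (∀ t ∈ Icc (0 : ℝ) 1, ContDiffOn ℝ ∞ (F t) slab) ∧
      ContinuousOn (fun z : ℝ × Pt => F z.1 z.2) (Icc (0 : ℝ) 1 ×ˢ slab)
  | n + 1, F => ((∀ t ∈ Icc (0 : ℝ) 1, ContDiffOn ℝ ∞ (F t) slab) ∧
      ContinuousOn (fun z : ℝ × Pt => F z.1 z.2) (Icc (0 : ℝ) 1 ×ˢ slab)) ∧
      ∀ i, CurveContC n (fun t => pd i (F t))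

theorem CurveContC_zero {n : ℕ} {F : ℝ → Pt → ℝ} (h : CurveContC n F) :
    (∀ t ∈ Icc (0 : ℝ) 1, ContDiffOn ℝ ∞ (F t) slab) ∧
      ContinuousOn (fun z : ℝ × Pt => F z.1 z.2) (Icc (0 : ℝ) 1 ×ˢ slab) := by
  cases n with
  | zero => exact h
  | succ n => exact h.1

theorem CurveContC_mono {n : ℕ} : ∀ {F : ℝ → Pt → ℝ}, CurveContC (n + 1) F → CurveContC n F := by
  induction n with
  | zero => intro F h; exact h.1
  | succ n ih => intro F h; exact ⟨h.1, fun i => ih (h.2 i)⟩

theorem CurveContC_congr {n : ℕ} : ∀ {F G : ℝ → Pt → ℝ}, CurveContC n F →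
    (∀ t ∈ Icc (0 : ℝ) 1, EqOn (F t) (G t) slab) → CurveContC n G := by
  have base : ∀ {F G : ℝ → Pt → ℝ}, ((∀ t ∈ Icc (0 : ℝ) 1, ContDiffOn ℝ ∞ (F t) slab) ∧
      ContinuousOn (fun z : ℝ × Pt => F z.1 z.2) (Icc (0 : ℝ) 1 ×ˢ slab)) →
      (∀ t ∈ Icc (0 : ℝ) 1, EqOn (F t) (G t) slab) →
      ((∀ t ∈ Icc (0 : ℝ) 1, ContDiffOn ℝ ∞ (G t) slab) ∧
      ContinuousOn (fun z : ℝ × Pt => G z.1 z.2) (Icc (0 : ℝ) 1 ×ˢ slab)) := by
    intro F G h e
    refine ⟨fun t ht => (h.1 t ht).congr fun p hp => (e t ht hp).symm, ?_⟩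
    refine h.2.congr ?_
    rintro ⟨t, p⟩ ⟨ht, hp⟩
    exact (e t ht hp).symm
  induction n with
  | zero => intro F G h e; exact base h e
  | succ n ih =>
    intro F G h e
    exact ⟨base h.1 e, fun i => ih (h.2 i) fun t ht => pd_congr (e t ht) i⟩

theorem CurveContC_add {n : ℕ} : ∀ {F G : ℝ → Pt → ℝ}, CurveContC n F → CurveContC n G →
    CurveContC n (fun t p => F t p + G t p) := by
  have base : ∀ {F G : ℝ → Pt → ℝ}, ((∀ t ∈ Icc (0 : ℝ) 1, ContDiffOn ℝ ∞ (F t) slab) ∧
      ContinuousOn (fun z : ℝ × Pt => F z.1 z.2) (Icc (0 : ℝ) 1 ×ˢ slab)) →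
      ((∀ t ∈ Icc (0 : ℝ) 1, ContDiffOn ℝ ∞ (G t) slab) ∧
      ContinuousOn (fun z : ℝ × Pt => G z.1 z.2) (Icc (0 : ℝ) 1 ×ˢ slab)) →
      ((∀ t ∈ Icc (0 : ℝ) 1, ContDiffOn ℝ ∞ (fun p => F t p + G t p) slab) ∧
      ContinuousOn (fun z : ℝ × Pt => F z.1 z.2 + G z.1 z.2) (Icc (0 : ℝ) 1 ×ˢ slab)) :=
    fun h h' => ⟨fun t ht => (h.1 t ht).add (h'.1 t ht), h.2.add h'.2⟩
  induction n with
  | zero => intro F G h h'; exact base h h'
  | succ n ih =>
    intro F G h h'
    refine ⟨base h.1 h'.1, fun i => CurveContC_congr (ih (h.2 i) (h'.2 i)) fun t ht p hp => ?_⟩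
    exact (pd_add (h.1.1 t ht) (h'.1.1 t ht) i hp).symm

theorem CurveContC_mul {n : ℕ} : ∀ {F G : ℝ → Pt → ℝ}, CurveContC n F → CurveContC n G →
    CurveContC n (fun t p => F t p * G t p) := by
  have base : ∀ {F G : ℝ → Pt → ℝ}, ((∀ t ∈ Icc (0 : ℝ) 1, ContDiffOn ℝ ∞ (F t) slab) ∧
      ContinuousOn (fun z : ℝ × Pt => F z.1 z.2) (Icc (0 : ℝ) 1 ×ˢ slab)) →
      ((∀ t ∈ Icc (0 : ℝ) 1, ContDiffOn ℝ ∞ (G t) slab) ∧
      ContinuousOn (fun z : ℝ × Pt => G z.1 z.2) (Icc (0 : ℝ) 1 ×ˢ slab)) →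
      ((∀ t ∈ Icc (0 : ℝ) 1, ContDiffOn ℝ ∞ (fun p => F t p * G t p) slab) ∧
      ContinuousOn (fun z : ℝ × Pt => F z.1 z.2 * G z.1 z.2) (Icc (0 : ℝ) 1 ×ˢ slab)) :=
    fun h h' => ⟨fun t ht => (h.1 t ht).mul (h'.1 t ht), h.2.mul h'.2⟩
  induction n with
  | zero => intro F G h h'; exact base h h'
  | succ n ih =>
    intro F G h h'
    refine ⟨base h.1 h'.1, fun i => CurveContC_congr (CurveContC_add
      (ih (h.2 i) (CurveContC_mono h')) (ih (CurveContC_mono h) (h'.2 i))) fun t ht p hp => ?_⟩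
    exact (pd_mul (h.1.1 t ht) (h'.1.1 t ht) i hp).symm

theorem CurveContC_const (c : ℝ) {n : ℕ} : CurveContC n (fun _ _ => c) := by
  have base : (∀ t ∈ Icc (0 : ℝ) 1, ContDiffOn ℝ ∞ ((fun _ _ => c : ℝ → Pt → ℝ) t) slab) ∧
      ContinuousOn (fun z : ℝ × Pt => (fun _ _ => c : ℝ → Pt → ℝ) z.1 z.2)
        (Icc (0 : ℝ) 1 ×ˢ slab) :=
    ⟨fun t _ => contDiffOn_const, continuousOn_const⟩
  induction n generalizing c with
  | zero => exact base
  | succ n ih =>
    exact ⟨base, fun i => CurveContC_congr (ih 0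
      ⟨fun t _ => contDiffOn_const, continuousOn_const⟩) fun t _ p _ => (pd_const c i p).symm⟩

/-- Families with jointly continuous derivatives of all orders. -/
def CurveContA (F : ℝ → Pt → ℝ) : Prop := ∀ n, CurveContC n F

theorem CurveContA_add {F G : ℝ → Pt → ℝ} (h : CurveContA F) (h' : CurveContA G) :
    CurveContA (fun t p => F t p + G t p) := fun n => CurveContC_add (h n) (h' n)

theorem CurveContA_mul {F G : ℝ → Pt → ℝ} (h : CurveContA F) (h' : CurveContA G) :
    CurveContA (fun t p => F t p * G t p) := fun n => CurveContC_mul (h n) (h' n)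

theorem CurveContA_const (c : ℝ) : CurveContA (fun _ _ => c) := fun _ => CurveContC_const c

theorem CurveContA_pd {F : ℝ → Pt → ℝ} (h : CurveContA F) (i : Fin 3) :
    CurveContA (fun t p => pd i (F t) p) := fun n => (h (n + 1)).2 i

theorem CurveContA_neg {F : ℝ → Pt → ℝ} (h : CurveContA F) : CurveContA (fun t p => -F t p) := by
  have := CurveContA_mul (CurveContA_const (-1)) h
  simpa using this

theorem CurveContA_sub {F G : ℝ → Pt → ℝ} (h : CurveContA F) (h' : CurveContA G) :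
    CurveContA (fun t p => F t p - G t p) := by
  have := CurveContA_add h (CurveContA_neg h')
  simpa [sub_eq_add_neg] using this

theorem CurveContA_sum {ι : Type*} (s : Finset ι) {F : ι → ℝ → Pt → ℝ}
    (h : ∀ i, CurveContA (F i)) : CurveContA (fun t p => ∑ i ∈ s, F i t p) := by
  classical
  induction s using Finset.induction_on with
  | empty => simpa using CurveContA_const 0
  | insert a s ha ih =>
    have := CurveContA_add (h a) ih
    simpa [Finset.sum_insert ha] using this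

theorem CurveContA_inv {F : ℝ → Pt → ℝ} (h : CurveContA F)
    (h0 : ∀ t ∈ Icc (0 : ℝ) 1, ∀ p ∈ slab, F t p ≠ 0) : CurveContA (fun t p => (F t p)⁻¹) := by
  have base : (∀ t ∈ Icc (0 : ℝ) 1, ContDiffOn ℝ ∞ (fun p => (F t p)⁻¹) slab) ∧
      ContinuousOn (fun z : ℝ × Pt => (F z.1 z.2)⁻¹) (Icc (0 : ℝ) 1 ×ˢ slab) := by
    refine ⟨fun t ht => ((h 0).1 t ht).inv fun p hp => h0 t ht p hp, (h 0).2.inv₀ ?_⟩
    rintro ⟨t, p⟩ ⟨ht, hp⟩
    exact h0 t ht p hp
  intro n
  induction n with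
  | zero => exact base
  | succ n ih =>
    refine ⟨base, fun i => CurveContC_congr (CurveContC_mul (CurveContC_const (-1))
      (CurveContC_mul ((h (n + 1)).2 i) (CurveContC_mul ih ih))) fun t ht p hp => ?_⟩
    have hd := differentiableWithinAt_of_smooth ((h 0).1 t ht) hp
    have key : pd i (fun q => F t q * (F t q)⁻¹) p = 0 := by
      rw [pd_congr (v := fun _ => (1 : ℝ)) (fun q hq => mul_inv_cancel₀ (h0 t ht q hq)) i hp]
      exact pd_const 1 i p
    rw [pd_mul ((h 0).1 t ht) (base.1 t ht) i hp] at key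
    have hne := h0 t ht p hp
    change -1 * (pd i (F t) p * ((F t p)⁻¹ * (F t p)⁻¹)) = pd i (fun q => (F t q)⁻¹) p
    field_simp at key ⊢
    linear_combination -key

theorem CurveContC_of_iterPd {n : ℕ} : ∀ {F : ℝ → Pt → ℝ},
    (∀ t ∈ Icc (0 : ℝ) 1, ContDiffOn ℝ ∞ (F t) slab) →
    (∀ l, ContinuousOn (fun z : ℝ × Pt => iterPd l (F z.1) z.2) (Icc (0 : ℝ) 1 ×ˢ slab)) →
    CurveContC n F := by
  induction n with
  | zero => intro F h1 h2; exact ⟨h1, h2 []⟩
  | succ n ih =>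
    intro F h1 h2
    refine ⟨⟨h1, h2 []⟩, fun i => ih (fun t ht => contDiffOn_pd (h1 t ht) i) fun l => ?_⟩
    have e : ∀ (l : List (Fin 3)) (u : Pt → ℝ), iterPd (l ++ [i]) u = iterPd l (pd i u) := by
      intro l u
      induction l with
      | nil => rfl
      | cons j l ih => simp only [List.cons_append, iterPd, ih]
    simpa only [e] using h2 (l ++ [i])

theorem isCurve_const {g : Pt → Matrix (Fin 3) (Fin 3) ℝ} (hg : IsMetric g) :
    IsCurve fun _ => g := by
  refine ⟨fun _ _ => hg, fun l i j => ?_⟩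
  refine (contDiffOn_iterPd (hg.1 i j).1 l).continuousOn.comp continuousOn_snd ?_
  rintro ⟨t, p⟩ ⟨_, hp⟩
  exact hp

theorem CurveContA_entry {γ : ℝ → Pt → Matrix (Fin 3) (Fin 3) ℝ} (hγ : IsCurve γ) (i j : Fin 3) :
    CurveContA (fun t p => γ t p i j) := fun _ =>
  CurveContC_of_iterPd (fun t ht => ((hγ.1 t ht).1 i j).1) fun l => hγ.2 l i j

theorem CurveContA_inv_entry {γ : ℝ → Pt → Matrix (Fin 3) (Fin 3) ℝ} (hγ : IsCurve γ)
    (i j : Fin 3) : CurveContA (fun t p => (γ t p)⁻¹ i j) := by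
  have he := CurveContA_entry hγ
  have hdet : CurveContA (fun t p => (γ t p).det) := by
    simp only [Matrix.det_fin_three]
    exact CurveContA_sub (CurveContA_add (CurveContA_add (CurveContA_sub (CurveContA_sub
      (CurveContA_mul (CurveContA_mul (he 0 0) (he 1 1)) (he 2 2))
      (CurveContA_mul (CurveContA_mul (he 0 0) (he 1 2)) (he 2 1)))
      (CurveContA_mul (CurveContA_mul (he 0 1) (he 1 0)) (he 2 2)))
      (CurveContA_mul (CurveContA_mul (he 0 1) (he 1 2)) (he 2 0)))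
      (CurveContA_mul (CurveContA_mul (he 0 2) (he 1 0)) (he 2 1)))
      (CurveContA_mul (CurveContA_mul (he 0 2) (he 1 1)) (he 2 0))
  have hdi : CurveContA (fun t p => ((γ t p).det)⁻¹) :=
    CurveContA_inv hdet fun t ht p hp => ((hγ.1 t ht).2 p hp).det_pos.ne'
  have hadj : CurveContA (fun t p => (γ t p).adjugate i j) := by
    have h2 : ∀ a b c d a' b' c' d' : Fin 3, CurveContA
        (fun t p => γ t p a b * γ t p c d - γ t p a' b' * γ t p c' d') :=
      fun a b c d a' b' c' d' => CurveContA_sub (CurveContA_mul (he a b) (he c d))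
        (CurveContA_mul (he a' b') (he c' d'))
    have h3 : ∀ a b c d a' b' c' d' : Fin 3, CurveContA
        (fun t p => -(γ t p a b * γ t p c d) + γ t p a' b' * γ t p c' d') :=
      fun a b c d a' b' c' d' => CurveContA_add (CurveContA_neg (CurveContA_mul (he a b) (he c d)))
        (CurveContA_mul (he a' b') (he c' d'))
    simp only [Matrix.adjugate_fin_three]
    fin_cases i <;> fin_cases j <;> first | exact h2 _ _ _ _ _ _ _ _ | exact h3 _ _ _ _ _ _ _ _
  have := CurveContA_mul hdi hadj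
  simpa [Matrix.inv_def, Ring.inverse_eq_inv'] using this

theorem CurveContA_christ {γ : ℝ → Pt → Matrix (Fin 3) (Fin 3) ℝ} (hγ : IsCurve γ)
    (k i j : Fin 3) : CurveContA (fun t p => christ (γ t) k i j p) := by
  have he := CurveContA_entry hγ
  unfold christ
  exact CurveContA_mul (CurveContA_const _) (CurveContA_sum _ fun l =>
    CurveContA_mul (CurveContA_inv_entry hγ k l) (CurveContA_sub (CurveContA_add
      (CurveContA_pd (he j l) i) (CurveContA_pd (he i l) j)) (CurveContA_pd (he i j) l)))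

theorem CurveContA_scal {γ : ℝ → Pt → Matrix (Fin 3) (Fin 3) ℝ} (hγ : IsCurve γ) :
    CurveContA (fun t p => scal (γ t) p) := by
  have hc := CurveContA_christ hγ
  unfold scal
  exact CurveContA_sum _ fun i => CurveContA_sum _ fun j =>
    CurveContA_mul (CurveContA_inv_entry hγ i j) (CurveContA_sum _ fun k =>
      CurveContA_add (CurveContA_sub (CurveContA_pd (hc k i j) k) (CurveContA_pd (hc k i k) j))
        (CurveContA_sum _ fun l => CurveContA_sub (CurveContA_mul (hc k k l) (hc l i j))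
          (CurveContA_mul (hc k j l) (hc l i k))))

theorem curve_continuous {γ : ℝ → Pt → Matrix (Fin 3) (Fin 3) ℝ} (hγ : IsCurve γ) {φ : Pt → ℝ}
    (hφ : ContDiffOn ℝ ∞ φ slab) :
    ContinuousOn (fun z : ℝ × Pt => confLap (γ z.1) φ z.2) (Icc (0 : ℝ) 1 ×ˢ slab) := by
  have hP : CurveContA (fun _ p => φ p) := fun n => by
    refine CurveContC_of_iterPd (fun _ _ => hφ) fun l => ?_
    refine (contDiffOn_iterPd hφ l).continuousOn.comp continuousOn_snd ?_
    rintro ⟨t, p⟩ ⟨_, hp⟩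
    exact hp
  have hc := CurveContA_christ hγ
  have hmain : CurveContA (fun t p => confLap (γ t) φ p) := by
    unfold confLap lap
    exact CurveContA_add (CurveContA_neg (CurveContA_sum _ fun i => CurveContA_sum _ fun j =>
      CurveContA_mul (CurveContA_inv_entry hγ i j) (CurveContA_sub
        (CurveContA_pd (CurveContA_pd hP j) i) (CurveContA_sum _ fun k =>
          CurveContA_mul (hc k i j) (CurveContA_pd hP k)))))
      (CurveContA_mul (CurveContA_mul (CurveContA_const _) (CurveContA_scal hγ)) hP)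
  exact (hmain 0).2

end Pool.Agent.H13.Steklov
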