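import Pool.Agent.H13.Steklov.Touch
import Pool.Agent.H13.Steklov.CurveCont

/-!
# Positivity of `H_g 1` is constant along a curve along which problem (S) is defined
-/

open scoped ContDiff Topology
open Set Filter

namespace Pool.Agent.H13.Steklov

theorem compare_unif {G : ℝ × Pt → ℝ} (hG : ContinuousOn G (Icc (0 : ℝ) 1 ×ˢ slab)) {t : ℝ}
    (ht : t ∈ Icc (0 : ℝ) 1) {c : ℝ} (h : ∀ p ∈ cube, G (t, p) < c) :
    ∀ᶠ s in 𝓝[Icc (0 : ℝ) 1] t, ∀ p ∈ cube, G (s, p) < c := by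
  rw [eventually_nhdsWithin_iff]
  have h1 : ∀ᶠ s in 𝓝 t, ∀ p ∈ cube, s ∈ Icc (0 : ℝ) 1 → p ∈ slab → G (s, p) < c := by
    apply isCompact_cube.eventually_forall_of_forall_eventually
    intro p hp
    have h2 : ∀ᶠ z in 𝓝[Icc (0 : ℝ) 1 ×ˢ slab] (t, p), G z < c :=
      (hG (t, p) ⟨ht, cube_subset hp⟩).eventually (Iio_mem_nhds (h p hp))
    rw [eventually_nhdsWithin_iff] at h2
    filter_upwards [h2] with z hz h3 h4
    exact hz ⟨h3, h4⟩
  filter_upwards [h1] with s hs hsI p hp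
  exact hs p hp hsI (cube_subset hp)

theorem compare_cont {g : Pt → Matrix (Fin 3) (Fin 3) ℝ} (hg : IsMetric g) {φ : Pt → ℝ}
    (hφ : ContDiffOn ℝ ∞ φ slab) : ContinuousOn (fun p => confLap g φ p) slab := by
  have h : ContinuousOn (fun z : ℝ × Pt => confLap g φ z.2) (Icc (0 : ℝ) 1 ×ˢ slab) :=
    curve_continuous (isCurve_const hg) hφ
  have h1 : ContinuousOn (fun p : Pt => ((0 : ℝ), p)) slab :=
    (continuous_const.prodMk continuous_id).continuousOn
  have hm : MapsTo (fun p : Pt => ((0 : ℝ), p)) slab (Icc (0 : ℝ) 1 ×ˢ slab) := by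
    intro p hp
    exact Set.mk_mem_prod ⟨le_rfl, zero_le_one⟩ hp
  generalize confLap g φ = c at h ⊢
  have h2 := ContinuousOn.comp h h1 hm
  exact h2

theorem compare_smooth_exp (K : ℝ) : SmoothFn fun q : Pt => Real.exp (K * q 0) :=
  smoothFn_fst (f := fun x => Real.exp (K * x)) (by fun_prop)

/-- Value of the conformal Laplacian on functions of the first coordinate. -/
theorem compare_fst (g : Pt → Matrix (Fin 3) (Fin 3) ℝ) {f : ℝ → ℝ} (hf : ContDiff ℝ ∞ f) {p : Pt}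
    (hp : p ∈ slab) : confLap g (fun q => f (q 0)) p =
      -((g p)⁻¹ 0 0 * deriv (deriv f) (p 0)) + coefB g 0 p * deriv f (p 0) +
        (1 / 8) * scal g p * f (p 0) := by
  have hd : Differentiable ℝ f := hf.differentiable (by simp)
  have hf' : ContDiff ℝ ∞ (deriv f) := (contDiff_infty_iff_deriv.1 hf).2
  have hd' : Differentiable ℝ (deriv f) := hf'.differentiable (by simp)
  have h0 : EqOn (pd 0 fun q => f (q 0)) (fun q => deriv f (q 0)) slab :=
    fun q hq => pd_zero_fst hq (hd _)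
  have h1 : ∀ j : Fin 3, j ≠ 0 → EqOn (pd j fun q => f (q 0)) (fun _ => 0) slab :=
    fun j hj q hq => pd_succ_fst hq (hd _) hj
  have e0 : ∀ i, pd i (pd 0 fun q => f (q 0)) p = if i = 0 then deriv (deriv f) (p 0) else 0 := by
    intro i
    rw [pd_congr h0 i hp]
    split_ifs with hi
    · subst hi; exact pd_zero_fst hp (hd' _)
    · exact pd_succ_fst hp (hd' _) hi
  have e1 : ∀ i j, j ≠ 0 → pd i (pd j fun q => f (q 0)) p = 0 := by
    intro i j hj
    rw [pd_congr (h1 j hj) i hp, pd_const]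
  rw [confLap_eq]
  simp only [Fin.sum_univ_three, e0, e1 _ 1 (by decide), e1 _ 2 (by decide), h0 hp,
    h1 1 (by decide) hp, h1 2 (by decide) hp]
  simp

theorem compare_barrier {g : Pt → Matrix (Fin 3) (Fin 3) ℝ} (hg : IsMetric g) :
    ∃ K : ℝ, 0 < K ∧ ∀ p ∈ cube, confLap g (fun q => Real.exp (K * q 0)) p < 0 := by
  -- continuity of the coefficients
  have hV : ContinuousOn (fun p => (1 / 8) * scal g p) cube := by
    have h1 := (compare_cont hg (φ := fun _ => 1) contDiffOn_const).mono cube_subset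
    refine h1.congr fun p hp => ?_
    have := compare_fst g (f := fun _ => 1) contDiff_const (cube_subset hp)
    beta_reduce
    rw [this]
    simp
  have hB : ContinuousOn (fun p => coefB g 0 p) cube := by
    have h1 := (compare_cont hg (φ := fun q => q 0)
      (contDiffOn_fst (f := fun x => x) contDiff_id)).mono cube_subset
    have h2 : ContinuousOn (fun p : Pt => p 0) cube := (continuous_apply 0).continuousOn
    have h3 := h1.sub (hV.mul h2)
    refine h3.congr fun p hp => ?_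
    have := compare_fst g (f := fun x => x) contDiff_id (cube_subset hp)
    simp only [Pi.sub_apply, Pi.mul_apply]
    rw [this]
    simp
  have hA : ContinuousOn (fun p => (g p)⁻¹ 0 0) cube := by
    have h1 := (compare_cont hg (φ := fun q => q 0 ^ 2)
      (contDiffOn_fst (f := fun x => x ^ 2) (by fun_prop))).mono cube_subset
    have h2 : ContinuousOn (fun p : Pt => p 0) cube := (continuous_apply 0).continuousOn
    have h3 : ContinuousOn (fun p : Pt => (1 / 2 : ℝ) * (coefB g 0 p * (2 * p 0) +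
        (1 / 8) * scal g p * (p 0) ^ 2 - confLap g (fun q => q 0 ^ 2) p)) cube :=
      continuousOn_const.mul (((hB.mul (continuousOn_const.mul h2)).add
        (hV.mul (h2.pow 2))).sub h1)
    refine h3.congr fun p hp => ?_
    have := compare_fst g (f := fun x => x ^ 2) (by fun_prop) (cube_subset hp)
    have e1 : deriv (fun x : ℝ => x ^ 2) = fun x => 2 * x := by
      ext x; simp
    have e2 : deriv (fun x : ℝ => 2 * x) (p 0) = 2 := by
      simp
    simp only []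
    rw [this, e1, e2]
    ring
  have hne : cube.Nonempty := ⟨fun _ => 0, fun _ => by simp⟩
  obtain ⟨M1, hM1⟩ := isCompact_cube.exists_bound_of_continuousOn hV
  obtain ⟨M2, hM2⟩ := isCompact_cube.exists_bound_of_continuousOn hB
  obtain ⟨q, hq, hmin⟩ := isCompact_cube.exists_isMinOn hne hA
  set c : ℝ := (g q)⁻¹ 0 0 with hc
  have hc0 : 0 < c := ((hg.2 q (cube_subset hq)).inv).diag_pos
  set M : ℝ := max (max M1 M2) 1 with hM
  have hMpos : 0 < M := lt_of_lt_of_le one_pos (le_max_right _ _)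
  refine ⟨2 * M / c + 1, by positivity, fun p hp => ?_⟩
  set K : ℝ := 2 * M / c + 1 with hK
  have hK1 : 1 ≤ K := by
    have : 0 ≤ 2 * M / c := by positivity
    linarith
  have hKc : 2 * M < c * K := by
    rw [hK, mul_add, mul_div_cancel₀ _ hc0.ne']
    linarith
  have h1 := compare_fst g (f := fun x => Real.exp (K * x)) (by fun_prop) (cube_subset hp)
  have e1 : deriv (fun x : ℝ => Real.exp (K * x)) = fun x => K * Real.exp (K * x) := by
    ext x
    have : HasDerivAt (fun x : ℝ => Real.exp (K * x)) (Real.exp (K * x) * (K * 1)) x :=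
      ((hasDerivAt_id x).const_mul K).exp
    rw [this.deriv]; ring
  have e2 : deriv (fun x : ℝ => K * Real.exp (K * x)) (p 0) = K * (K * Real.exp (K * p 0)) := by
    have : HasDerivAt (fun x : ℝ => K * Real.exp (K * x)) (K * (Real.exp (K * p 0) * (K * 1)))
        (p 0) := (((hasDerivAt_id (p 0)).const_mul K).exp).const_mul K
    rw [this.deriv]; ring
  rw [h1, e1, e2]
  have hE : 0 < Real.exp (K * p 0) := Real.exp_pos _
  have hV1 : (1 / 8) * scal g p ≤ M := (le_abs_self _).trans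
    ((hM1 p hp).trans ((le_max_left _ _).trans (le_max_left _ _)))
  have hB1 : coefB g 0 p ≤ M := (le_abs_self _).trans
    ((hM2 p hp).trans ((le_max_right _ _).trans (le_max_left _ _)))
  have hA1 : c ≤ (g p)⁻¹ 0 0 := hmin hp
  have hkey : -((g p)⁻¹ 0 0 * K ^ 2) + coefB g 0 p * K + (1 / 8) * scal g p < 0 := by
    have a1 : c * K ^ 2 ≤ (g p)⁻¹ 0 0 * K ^ 2 := mul_le_mul_of_nonneg_right hA1 (sq_nonneg K)
    have a2 : coefB g 0 p * K ≤ M * K := mul_le_mul_of_nonneg_right hB1 (by linarith)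
    have a3 : M ≤ M * K := by nlinarith
    have a4 : 2 * M * K < c * K * K := mul_lt_mul_of_pos_right hKc (by linarith)
    nlinarith
  have hfin : -((g p)⁻¹ 0 0 * (K * (K * Real.exp (K * p 0)))) +
      coefB g 0 p * (K * Real.exp (K * p 0)) + (1 / 8) * scal g p * Real.exp (K * p 0) =
      (-((g p)⁻¹ 0 0 * K ^ 2) + coefB g 0 p * K + (1 / 8) * scal g p) * Real.exp (K * p 0) := by
    ring
  rw [hfin]
  exact mul_neg_of_neg_of_pos hkey hE

theorem compare_ratio {u v : Pt → ℝ} (hu : SmoothFn u) (hv : SmoothFn v)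
    (hpos : ∀ p ∈ slab, 0 < v p) : ∃ q ∈ cube, ∀ p ∈ slab, u q / v q ≤ u p / v p := by
  refine exists_min (u := fun p => u p / v p) ?_ ?_
  · intro p hp
    exact ⟨congrArg₂ (· / ·) (hu.2 p hp).1 (hv.2 p hp).1,
      congrArg₂ (· / ·) (hu.2 p hp).2 (hv.2 p hp).2⟩
  · exact hu.1.continuousOn.div hv.1.continuousOn fun p hp => (hpos p hp).ne'

theorem compare_bdry {q : Pt} (hq : q ∈ cube) (h : q ∉ bdry) : q 0 ∈ Ioo (0 : ℝ) 1 := by
  have h1 := hq 0
  rw [bdry, mem_ofPred_eq, not_or] at h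
  exact ⟨lt_of_le_of_ne h1.1 (Ne.symm h.1), lt_of_le_of_ne h1.2 h.2⟩

/-- Non-positivity persists. -/
theorem compare_nonpos {γ : ℝ → Pt → Matrix (Fin 3) (Fin 3) ℝ} (hγ : IsCurve γ)
    {w : ℝ → Pt → ℝ} (hw : ∀ t ∈ Icc (0 : ℝ) 1, IsExt (γ t) (fun _ => 1) (w t)) {t : ℝ}
    (ht : t ∈ Icc (0 : ℝ) 1) (hneg : ¬ ∀ p ∈ slab, 0 < w t p) :
    ∀ᶠ s in 𝓝[Icc (0 : ℝ) 1] t, ¬ ∀ p ∈ slab, 0 < w s p := by
  push Not at hneg
  obtain ⟨x₀, hx₀, hx₀w⟩ := hneg
  obtain ⟨K, hK, hbar⟩ := compare_barrier (hγ.1 t ht)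
  set Ψ : Pt → ℝ := fun q => Real.exp (K * q 0) with hΨ
  have hΨs : SmoothFn Ψ := compare_smooth_exp K
  have hΨpos : ∀ q, 0 < Ψ q := fun q => Real.exp_pos _
  have hΨle : ∀ q ∈ slab, Ψ q ≤ Real.exp K := by
    intro q hq
    apply Real.exp_le_exp.2
    have h1 : q 0 ≤ 1 := hq.2
    nlinarith
  set δ : ℝ := (Real.exp K)⁻¹ / 2 with hδ
  have hδ0 : 0 < δ := by positivity
  have hδΨ : ∀ q ∈ slab, δ * Ψ q ≤ 1 / 2 := by
    intro q hq
    calc δ * Ψ q ≤ δ * Real.exp K := mul_le_mul_of_nonneg_left (hΨle q hq) hδ0.le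
      _ = 1 / 2 := by rw [hδ]; field_simp
  obtain ⟨hwt, hPwt, hbt⟩ := hw t ht
  set φ : Pt → ℝ := fun q => (-1) * w t q + δ * Ψ q with hφ
  have hφs : SmoothFn φ := smoothFn_add (smoothFn_const_mul (-1) hwt) (smoothFn_const_mul δ hΨs)
  have hPφ : ∀ p ∈ cube, confLap (γ t) φ p < 0 := by
    intro p hp
    rw [hφ, confLap_add_mul _ hwt.1 hΨs.1 (-1) δ (cube_subset hp), hPwt p (cube_subset hp)]
    have := mul_neg_of_pos_of_neg hδ0 (hbar p hp)
    linarith
  have hev := compare_unif (curve_continuous hγ hφs.1) ht hPφ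
  have hevI : ∀ᶠ s in 𝓝[Icc (0 : ℝ) 1] t, s ∈ Icc (0 : ℝ) 1 := eventually_mem_nhdsWithin
  filter_upwards [hev, hevI] with s hs hsI hpos
  obtain ⟨hws, hPws, hbs⟩ := hw s hsI
  -- maximum of `φ / w s`
  obtain ⟨q, hq, hmin⟩ := compare_ratio (smoothFn_const_mul (-1) hφs) hws hpos
  have hqs := cube_subset hq
  set m : ℝ := φ q / w s q with hm
  have hmax : ∀ p ∈ slab, φ p / w s p ≤ m := by
    intro p hp
    have h1 := hmin p hp
    have e1 : ∀ r : Pt, (-1) * φ r / w s r = -(φ r / w s r) := fun r => by ring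
    rw [e1, e1] at h1
    rw [hm]
    linarith
  have hm0 : 0 < m := by
    have h1 : 0 < φ x₀ := by
      rw [hφ]
      have h2 := mul_pos hδ0 (hΨpos x₀)
      simp only []
      linarith
    exact lt_of_lt_of_le (div_pos h1 (hpos x₀ hx₀)) (hmax x₀ hx₀)
  have hqb : q ∉ bdry := by
    intro hb
    have h1 : φ q < 0 := by
      have h2 := hδΨ q hqs
      have h3 := hbt q hb
      simp only [hφ]
      rw [h3]
      linarith
    have h2 : m < 0 := div_neg_of_neg_of_pos h1 (hpos q hqs)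
    linarith
  have hqI := compare_bdry hq hqb
  have hF : SmoothFn fun p => m * w s p + (-1) * φ p :=
    smoothFn_add (smoothFn_const_mul m hws) (smoothFn_const_mul (-1) hφs)
  have hF0 : ∀ p ∈ slab, 0 ≤ m * w s p + (-1) * φ p := by
    intro p hp
    have h1 := (div_le_iff₀ (hpos p hp)).1 (hmax p hp)
    linarith
  have hFq : m * w s q + (-1) * φ q = 0 := by
    rw [hm, div_mul_cancel₀ _ (hpos q hqs).ne']
    ring
  have htouch := touch (hγ.1 s hsI) hF.1 hF0 hqI hFq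
  rw [confLap_add_mul _ hws.1 hφs.1 m (-1) hqs, hPws q hqs] at htouch
  have := hs q hq
  linarith

/-- Positivity persists. -/
theorem compare_pos {γ : ℝ → Pt → Matrix (Fin 3) (Fin 3) ℝ} (hγ : IsCurve γ)
    {w : ℝ → Pt → ℝ} (hw : ∀ t ∈ Icc (0 : ℝ) 1, IsExt (γ t) (fun _ => 1) (w t)) {t : ℝ}
    (ht : t ∈ Icc (0 : ℝ) 1) (hpos : ∀ p ∈ slab, 0 < w t p) :
    ∀ᶠ s in 𝓝[Icc (0 : ℝ) 1] t, ∀ p ∈ slab, 0 < w s p := by
  obtain ⟨K, hK, hbar⟩ := compare_barrier (hγ.1 t ht)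
  set Ψ : Pt → ℝ := fun q => Real.exp (K * q 0) with hΨ
  have hΨs : SmoothFn Ψ := compare_smooth_exp K
  have hΨpos : ∀ q, 0 < Ψ q := fun q => Real.exp_pos _
  have hΨle : ∀ q ∈ slab, Ψ q ≤ Real.exp K := by
    intro q hq
    apply Real.exp_le_exp.2
    have h1 : q 0 ≤ 1 := hq.2
    nlinarith
  obtain ⟨hwt, hPwt, hbt⟩ := hw t ht
  obtain ⟨r, hr, hrmin⟩ := exists_min hwt.2 hwt.1.continuousOn
  set μ : ℝ := w t r with hμ
  have hμ0 : 0 < μ := hpos r (cube_subset hr)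
  set δ : ℝ := μ * (Real.exp K)⁻¹ / 2 with hδ
  have hδ0 : 0 < δ := by positivity
  have hδΨ : ∀ q ∈ slab, δ * Ψ q ≤ w t q / 2 := by
    intro q hq
    calc δ * Ψ q ≤ δ * Real.exp K := mul_le_mul_of_nonneg_left (hΨle q hq) hδ0.le
      _ = μ / 2 := by rw [hδ]; field_simp
      _ ≤ w t q / 2 := by have := hrmin q hq; linarith
  set Φ : Pt → ℝ := fun q => 1 * w t q + (-δ) * Ψ q with hΦ
  have hΦs : SmoothFn Φ := smoothFn_add (smoothFn_const_mul 1 hwt) (smoothFn_const_mul (-δ) hΨs)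
  have hΦpos : ∀ q ∈ slab, 0 < Φ q := by
    intro q hq
    have h1 := hδΨ q hq
    have h2 := hpos q hq
    simp only [hΦ]
    linarith
  have hΦle : ∀ q ∈ slab, Φ q ≤ w t q := by
    intro q hq
    have h1 := mul_pos hδ0 (hΨpos q)
    simp only [hΦ]
    linarith
  have hPΦ : ∀ p ∈ cube, 0 < confLap (γ t) Φ p := by
    intro p hp
    rw [hΦ, confLap_add_mul _ hwt.1 hΨs.1 1 (-δ) (cube_subset hp), hPwt p (cube_subset hp)]
    have := mul_neg_of_pos_of_neg hδ0 (hbar p hp)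
    linarith
  have hne : cube.Nonempty := ⟨fun _ => 0, fun _ => by simp⟩
  obtain ⟨y, hy, hymin⟩ := isCompact_cube.exists_isMinOn hne
    ((compare_cont (hγ.1 t ht) hΦs.1).mono cube_subset)
  set c : ℝ := confLap (γ t) Φ y / 2 with hc
  have hc0 : 0 < c := by have := hPΦ y hy; rw [hc]; linarith
  have hPΦc : ∀ p ∈ cube, -confLap (γ t) Φ p < -c := by
    intro p hp
    have h1 : confLap (γ t) Φ y ≤ confLap (γ t) Φ p := hymin hp
    have h2 := hPΦ y hy
    rw [hc]
    linarith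
  have hev1 := compare_unif (G := fun z => -confLap (γ z.1) Φ z.2)
    (curve_continuous hγ hΦs.1).neg ht hPΦc
  have hev2 := compare_unif (curve_continuous hγ hwt.1) ht (c := c / 4)
    (fun p hp => by rw [hPwt p (cube_subset hp)]; linarith)
  have hevI : ∀ᶠ s in 𝓝[Icc (0 : ℝ) 1] t, s ∈ Icc (0 : ℝ) 1 := eventually_mem_nhdsWithin
  filter_upwards [hev1, hev2, hevI] with s hs1 hs2 hsI
  obtain ⟨hws, hPws, hbs⟩ := hw s hsI
  -- `F = Φ / 2 + (w s - w t)`
  have hd : SmoothFn fun q => 1 * w s q + (-1) * w t q :=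
    smoothFn_add (smoothFn_const_mul 1 hws) (smoothFn_const_mul (-1) hwt)
  have hFs : SmoothFn fun q => (1 / 2) * Φ q + 1 * (1 * w s q + (-1) * w t q) :=
    smoothFn_add (smoothFn_const_mul (1 / 2) hΦs) (smoothFn_const_mul 1 hd)
  set F : Pt → ℝ := fun q => (1 / 2) * Φ q + 1 * (1 * w s q + (-1) * w t q) with hF
  obtain ⟨q, hq, hmin⟩ := compare_ratio hFs hΦs hΦpos
  have hqs := cube_subset hq
  set m : ℝ := F q / Φ q with hm
  have hm0 : 0 ≤ m := by
    by_contra hcon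
    push Not at hcon
    have hqb : q ∉ bdry := by
      intro hb
      have h1 : 0 < F q := by
        have h2 := hΦpos q hqs
        simp only [hF]
        rw [hbs q hb, hbt q hb]
        linarith
      have h2 : 0 < m := div_pos h1 (hΦpos q hqs)
      linarith
    have hqI := compare_bdry hq hqb
    have hGs : SmoothFn fun p => 1 * F p + (-m) * Φ p :=
      smoothFn_add (smoothFn_const_mul 1 hFs) (smoothFn_const_mul (-m) hΦs)
    have hG0 : ∀ p ∈ slab, 0 ≤ 1 * F p + (-m) * Φ p := by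
      intro p hp
      have h1 := (le_div_iff₀ (hΦpos p hp)).1 (hmin p hp)
      linarith
    have hGq : 1 * F q + (-m) * Φ q = 0 := by
      rw [hm]
      have := (hΦpos q hqs).ne'
      field_simp
      ring
    have htouch := touch (hγ.1 s hsI) hGs.1 hG0 hqI hGq
    rw [confLap_add_mul _ hFs.1 hΦs.1 1 (-m) hqs, hF,
      confLap_add_mul _ hΦs.1 hd.1 (1 / 2) 1 hqs, confLap_add_mul _ hws.1 hwt.1 1 (-1) hqs,
      hPws q hqs] at htouch
    have h1 : c < confLap (γ s) Φ q := by have := hs1 q hq; linarith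
    have h2 : confLap (γ s) (w t) q < c / 4 := hs2 q hq
    nlinarith [mul_pos (neg_pos.2 hcon) (hc0.trans h1)]
  intro p hp
  have h1 : 0 ≤ F p := by
    have h2 := hm0.trans (hmin p hp)
    have h3 := mul_nonneg h2 (hΦpos p hp).le
    rwa [div_mul_cancel₀ _ (hΦpos p hp).ne'] at h3
  have h2 := hΦle p hp
  have h3 := hpos p hp
  simp only [hF] at h1
  linarith

theorem curve_pos {γ : ℝ → Pt → Matrix (Fin 3) (Fin 3) ℝ} (hγ : IsCurve γ)
    (hS : ∀ t ∈ Icc (0 : ℝ) 1, SDefined (γ t)) {w₀ w₁ : Pt → ℝ}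
    (hw₀ : IsExt (γ 0) (fun _ => 1) w₀) (hpos : ∀ p ∈ slab, 0 < w₀ p)
    (hw₁ : IsExt (γ 1) (fun _ => 1) w₁) : ∀ p ∈ slab, 0 < w₁ p := by
  have hex : ∀ t : ℝ, ∃ u : Pt → ℝ, t ∈ Icc (0 : ℝ) 1 → IsExt (γ t) (fun _ => 1) u := by
    intro t
    by_cases ht : t ∈ Icc (0 : ℝ) 1
    · obtain ⟨u, hu, -⟩ := hS t ht (fun _ => 1) (smoothFn_const 1)
      exact ⟨u, fun _ => hu⟩
    · exact ⟨fun _ => 0, fun h => absurd h ht⟩
  choose w hw using hex
  have h01 : (0 : ℝ) ∈ Icc (0 : ℝ) 1 := ⟨le_rfl, zero_le_one⟩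
  have h11 : (1 : ℝ) ∈ Icc (0 : ℝ) 1 := ⟨zero_le_one, le_rfl⟩
  have huniq : ∀ t ∈ Icc (0 : ℝ) 1, ∀ u v, IsExt (γ t) (fun _ => 1) u →
      IsExt (γ t) (fun _ => 1) v → EqOn u v slab := by
    intro t ht u v hu hv
    obtain ⟨z, -, hz⟩ := hS t ht (fun _ => 1) (smoothFn_const 1)
    intro p hp
    rw [hz u hu hp, hz v hv hp]
  set A : Set (Icc (0 : ℝ) 1) := {t | ∀ p ∈ slab, 0 < w t p} with hA
  have hopen : IsOpen A := by
    rw [isOpen_iff_mem_nhds]
    intro t ht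
    have h1 := compare_pos hγ (fun s hs => hw s hs) t.2 ht
    rw [← eventually_nhds_subtype_iff] at h1
    exact h1
  have hclosed : IsClosed A := by
    rw [← isOpen_compl_iff, isOpen_iff_mem_nhds]
    intro t ht
    have h1 := compare_nonpos hγ (fun s hs => hw s hs) t.2 ht
    rw [← eventually_nhds_subtype_iff] at h1
    exact h1
  have hA0 : (⟨0, h01⟩ : Icc (0 : ℝ) 1) ∈ A := by
    intro p hp
    rw [huniq 0 h01 (w 0) w₀ (hw 0 h01) hw₀ hp]
    exact hpos p hp
  have huniv : A = univ := IsClopen.eq_univ ⟨hclosed, hopen⟩ ⟨_, hA0⟩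
  have hA1 : (⟨1, h11⟩ : Icc (0 : ℝ) 1) ∈ A := by rw [huniv]; exact mem_univ _
  intro p hp
  rw [huniq 1 h11 w₁ (w 1) hw₁ (hw 1 h11) hp]
  exact hA1 p hp

end Pool.Agent.H13.Steklov
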