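import Mathlib

/-!
# Metrics on `[0,1] × T²` and the conformal Steklov problem: definitions

`M = [0,1] × T²` with `T² = ℝ²/ℤ²`, a compact 3-manifold with boundary `{0,1} × T²`. Functions and
metrics on `M` are represented by functions on `ℝ³` which on the closed slab `[0,1] × ℝ²` are smooth
(up to the boundary) and invariant under `ℤ²`; values outside the slab play no role. All
derivatives are derivatives within the slab.
-/

open scoped ContDiff
open Set

namespace Pool.Agent.H13.Steklov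

/-- Points of `ℝ³`; coordinate `0` is the interval coordinate. -/
abbrev Pt := Fin 3 → ℝ

/-- The closed slab `[0,1] × ℝ²`, the universal cover of `M = [0,1] × T²`. -/
def slab : Set Pt := {p | p 0 ∈ Icc (0 : ℝ) 1}

/-- The boundary of the slab. -/
def bdry : Set Pt := {p | p 0 = 0 ∨ p 0 = 1}

/-- Invariance under the translations by `(0,1,0)` and `(0,0,1)`. -/
def Periodic (u : Pt → ℝ) : Prop :=
  ∀ p ∈ slab, u (p + Pi.single 1 1) = u p ∧ u (p + Pi.single 2 1) = u p

/-- Smooth functions on `M` (smooth up to the boundary). -/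
def SmoothFn (u : Pt → ℝ) : Prop := ContDiffOn ℝ ∞ u slab ∧ Periodic u

/-- The `i`-th partial derivative within the slab. -/
noncomputable def pd (i : Fin 3) (u : Pt → ℝ) (p : Pt) : ℝ :=
  fderivWithin ℝ u slab p (Pi.single i 1)

/-- Smooth Riemannian metrics on `M`. -/
def IsMetric (g : Pt → Matrix (Fin 3) (Fin 3) ℝ) : Prop :=
  (∀ i j, SmoothFn fun p => g p i j) ∧ ∀ p ∈ slab, (g p).PosDef

/-- Christoffel symbols `Γ^k_{ij}`. -/
noncomputable def christ (g : Pt → Matrix (Fin 3) (Fin 3) ℝ) (k i j : Fin 3) (p : Pt) : ℝ :=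
  (1 / 2) * ∑ l, (g p)⁻¹ k l * (pd i (fun q => g q j l) p + pd j (fun q => g q i l) p -
    pd l (fun q => g q i j) p)

/-- Scalar curvature. -/
noncomputable def scal (g : Pt → Matrix (Fin 3) (Fin 3) ℝ) (p : Pt) : ℝ :=
  ∑ i, ∑ j, (g p)⁻¹ i j * ∑ k, (pd k (christ g k i j) p - pd j (christ g k i k) p +
    ∑ l, (christ g k k l p * christ g l i j p - christ g k j l p * christ g l i k p))

/-- The positive Laplacian. -/
noncomputable def lap (g : Pt → Matrix (Fin 3) (Fin 3) ℝ) (u : Pt → ℝ) (p : Pt) : ℝ :=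
  -∑ i, ∑ j, (g p)⁻¹ i j * (pd i (pd j u) p - ∑ k, christ g k i j p * pd k u p)

/-- The conformal Laplacian `P_g = Δ_g + (n-2)/(4(n-1)) R_g`, `n = 3`. -/
noncomputable def confLap (g : Pt → Matrix (Fin 3) (Fin 3) ℝ) (u : Pt → ℝ) (p : Pt) : ℝ :=
  lap g u p + (1 / 8) * scal g p * u p

/-- `-1` on `{0} × T²`, `1` on `{1} × T²`: the sign of the outward direction. -/
noncomputable def outSign (p : Pt) : ℝ := if p 0 = 0 then -1 else 1

/-- The outward unit normal derivative at a boundary point; `ν^i = ± g^{i0} / (g^{00})^{1/2}`. -/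
noncomputable def normalDeriv (g : Pt → Matrix (Fin 3) (Fin 3) ℝ) (u : Pt → ℝ) (p : Pt) : ℝ :=
  outSign p * (∑ i, (g p)⁻¹ i 0 * pd i u p) / √((g p)⁻¹ 0 0)

/-- The second fundamental form `II(∂_a, ∂_b) = g(∇_a ν, ∂_b) = -ν_0 Γ^0_{ab}` of the boundary,
`a, b ∈ {1, 2}`. -/
noncomputable def secondForm (g : Pt → Matrix (Fin 3) (Fin 3) ℝ) (a b : Fin 2) (p : Pt) : ℝ :=
  -(outSign p * christ g 0 a.succ b.succ p / √((g p)⁻¹ 0 0))

/-- The metric induced on the boundary. -/
def indMetric (g : Pt → Matrix (Fin 3) (Fin 3) ℝ) (p : Pt) : Matrix (Fin 2) (Fin 2) ℝ :=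
  Matrix.of fun a b => g p a.succ b.succ

/-- The mean curvature `h_g = tr_g II`. -/
noncomputable def meanCurv (g : Pt → Matrix (Fin 3) (Fin 3) ℝ) (p : Pt) : ℝ :=
  ∑ a, ∑ b, (indMetric g p)⁻¹ a b * secondForm g a b p

/-- The conformal boundary operator `B_g u = ∂_ν u + (n-2)/(2(n-1)) h_g u`, `n = 3`. -/
noncomputable def confB (g : Pt → Matrix (Fin 3) (Fin 3) ℝ) (u : Pt → ℝ) (p : Pt) : ℝ :=
  normalDeriv g u p + (1 / 4) * meanCurv g p * u p

/-- `u = H_g f`: `u` is a smooth solution of `P_g u = 0` in `M` with `u = f` on the boundary. -/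
def IsExt (g : Pt → Matrix (Fin 3) (Fin 3) ℝ) (f u : Pt → ℝ) : Prop :=
  SmoothFn u ∧ (∀ p ∈ slab, confLap g u p = 0) ∧ ∀ p ∈ bdry, u p = f p

/-- Problem (S) is defined for `g`: for all smooth boundary values there is exactly one `H_g f`;
in particular `0` is not a Dirichlet eigenvalue. -/
def SDefined (g : Pt → Matrix (Fin 3) (Fin 3) ℝ) : Prop :=
  ∀ f, SmoothFn f → ∃ u, IsExt g f u ∧ ∀ v, IsExt g f v → EqOn v u slab

/-- `N_S(g) ≥ k`: the conformal Steklov problem has at least `k` negative eigenvalues, counted with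
multiplicity. -/
def NegSteklov (g : Pt → Matrix (Fin 3) (Fin 3) ℝ) (k : ℕ) : Prop :=
  ∃ (u : Fin k → Pt → ℝ) (lam : Fin k → ℝ),
    (∀ i, SmoothFn (u i) ∧ (∀ p ∈ slab, confLap g (u i) p = 0) ∧ lam i < 0 ∧
      ∀ p ∈ bdry, confB g (u i) p = lam i * u i p) ∧
    LinearIndependent ℝ fun i => fun p : bdry => u i p

/-- Iterated partial derivatives. -/
noncomputable def iterPd : List (Fin 3) → (Pt → ℝ) → Pt → ℝ
  | [], u => u
  | i :: l, u => pd i (iterPd l u)

/-- A curve of metrics, continuous in the `C^∞` topology: all partial derivatives of the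
coefficients are jointly continuous. -/
def IsCurve (γ : ℝ → Pt → Matrix (Fin 3) (Fin 3) ℝ) : Prop :=
  (∀ t ∈ Icc (0 : ℝ) 1, IsMetric (γ t)) ∧
    ∀ (l : List (Fin 3)) (i j : Fin 3),
      ContinuousOn (fun z : ℝ × Pt => iterPd l (fun p => γ z.1 p i j) z.2)
        (Icc (0 : ℝ) 1 ×ˢ slab)

/-- The metric `dx² + ℓ² (e^{2κx} dy₁² + e^{-2κx} dy₂²)`. -/
noncomputable def solMetric (κ ℓ : ℝ) (p : Pt) : Matrix (Fin 3) (Fin 3) ℝ :=
  Matrix.diagonal ![1, ℓ ^ 2 * Real.exp (2 * κ * p 0), ℓ ^ 2 * Real.exp (-(2 * κ * p 0))]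

end Pool.Agent.H13.Steklov
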