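import Mathlib

/-!
# STEK FourierDecay: Fourier series of smooth periodic functions of two variables

Paper proof. `a_k - i b_k = ∫∫ h(y) e^{-2πi(k₁ y₁ + k₂ y₂)} dy` (the real series
`∑ (a_k cos + b_k sin)(2π k·y)` is the real part of the complex one). Integration by parts `m` times in
`y₁` (if `k₁ ≠ 0`) resp. `y₂`: `|h^(k)| ≤ C_m / max(|k₁|, |k₂|)^m`. Summable, so the series converges
to `h` (`UnitAddTorus`: `hasSum_mFourier_series_apply_of_summable`, or one-dimensional Fourier series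
twice).
-/

open scoped ContDiff Topology
open Set Filter

namespace Pool.Agent.H13.Steklov

/-- The character `x ↦ e^{2πikx}`. -/
noncomputable def FourierDecay_e (k : ℤ) (x : ℝ) : ℂ := Complex.exp (2 * Real.pi * Complex.I * k * x)

theorem FourierDecay_e_zero (k : ℤ) : FourierDecay_e k 0 = 1 := by simp [FourierDecay_e]

theorem FourierDecay_e_one (k : ℤ) : FourierDecay_e k 1 = 1 := by
  unfold FourierDecay_e
  rw [Complex.exp_eq_one_iff]
  exact ⟨k, by push_cast; ring⟩

theorem FourierDecay_e_norm (k : ℤ) (x : ℝ) : ‖FourierDecay_e k x‖ = 1 := by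
  unfold FourierDecay_e
  have : (2 * Real.pi * Complex.I * k * x : ℂ) = ((2 * Real.pi * k * x : ℝ) : ℂ) * Complex.I := by
    push_cast; ring
  rw [this, Complex.norm_exp_ofReal_mul_I]

theorem FourierDecay_e_cont (k : ℤ) : Continuous (FourierDecay_e k) := by
  unfold FourierDecay_e
  fun_prop

theorem FourierDecay_e_deriv (k : ℤ) (x : ℝ) :
    HasDerivAt (FourierDecay_e k) (2 * Real.pi * Complex.I * k * FourierDecay_e k x) x := by
  unfold FourierDecay_e
  have h1 : HasDerivAt (fun x : ℝ => (2 * Real.pi * Complex.I * k * x : ℂ))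
      (2 * Real.pi * Complex.I * k) x := by
    simpa using (Complex.ofRealCLM.hasDerivAt (x := x)).const_mul (2 * Real.pi * Complex.I * k : ℂ)
  have h2 := h1.cexp
  have h3 : 2 * Real.pi * Complex.I * k * Complex.exp (2 * Real.pi * Complex.I * k * x) =
      Complex.exp (2 * Real.pi * Complex.I * k * x) * (2 * Real.pi * Complex.I * k) := by ring
  rw [h3]
  exact h2

/-- One-dimensional Fourier series. -/
theorem FourierDecay_one (g : ℝ → ℂ) (hg : Continuous g) (hp : ∀ x, g (x + 1) = g x)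
    (hs : Summable fun k : ℤ => ∫ x in (0 : ℝ)..1, FourierDecay_e (-k) x * g x) (x : ℝ) :
    HasSum (fun k : ℤ => (∫ x in (0 : ℝ)..1, FourierDecay_e (-k) x * g x) * FourierDecay_e k x)
      (g x) := by
  have hp' : Function.Periodic g (1 : ℝ) := hp
  let f : C(AddCircle (1 : ℝ), ℂ) := ⟨hp'.lift, by
    rw [continuous_coinduced_dom]
    exact hg⟩
  have hf : ∀ y : ℝ, f (y : AddCircle (1 : ℝ)) = g y := fun y => rfl
  have hc : ∀ k : ℤ, fourierCoeff f k = ∫ x in (0 : ℝ)..1, FourierDecay_e (-k) x * g x := by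
    intro k
    rw [fourierCoeff_eq_intervalIntegral _ k 0]
    simp only [div_one, one_smul, zero_add, smul_eq_mul]
    apply intervalIntegral.integral_congr
    intro y _
    simp only [fourier_coe_apply, hf]
    unfold FourierDecay_e
    simp
  have hs' : Summable (fourierCoeff f) := by
    have : fourierCoeff f = fun k : ℤ => ∫ x in (0 : ℝ)..1, FourierDecay_e (-k) x * g x :=
      funext hc
    rw [this]; exact hs
  have h := has_pointwise_sum_fourier_series_of_summable hs' (x : AddCircle (1 : ℝ))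
  rw [hf] at h
  convert h using 1
  funext k
  rw [hc]
  simp only [fourier_coe_apply, smul_eq_mul]
  unfold FourierDecay_e
  simp

/-- Double Fourier coefficients. -/
noncomputable def FourierDecay_c (F : ℝ × ℝ → ℂ) (k : ℤ × ℤ) : ℂ :=
  ∫ y in (0 : ℝ)..1, FourierDecay_e (-k.2) y *
    ∫ x in (0 : ℝ)..1, FourierDecay_e (-k.1) x * F (x, y)

theorem FourierDecay_inner_cont (F : ℝ × ℝ → ℂ) (hF : Continuous F) (k : ℤ) :
    Continuous fun y : ℝ => ∫ x in (0 : ℝ)..1, FourierDecay_e (-k) x * F (x, y) := by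
  apply intervalIntegral.continuous_parametric_intervalIntegral_of_continuous'
  have := FourierDecay_e_cont (-k)
  fun_prop

theorem FourierDecay_swap (F : ℝ × ℝ → ℂ) (hF : Continuous F) (k : ℤ × ℤ) :
    FourierDecay_c F k = ∫ x in (0 : ℝ)..1, FourierDecay_e (-k.1) x *
      ∫ y in (0 : ℝ)..1, FourierDecay_e (-k.2) y * F (x, y) := by
  unfold FourierDecay_c
  simp_rw [← intervalIntegral.integral_const_mul]
  simp_rw [intervalIntegral.integral_of_le zero_le_one]
  rw [MeasureTheory.integral_integral_swap]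
  · congr 1
    funext x
    congr 1
    funext y
    ring
  · have h1 : Continuous (Function.uncurry fun (y x : ℝ) =>
        FourierDecay_e (-k.2) y * (FourierDecay_e (-k.1) x * F (x, y))) := by
      have := FourierDecay_e_cont (-k.1)
      have := FourierDecay_e_cont (-k.2)
      unfold Function.uncurry
      fun_prop
    rw [MeasureTheory.Measure.prod_restrict]
    have h2 := h1.continuousOn.integrableOn_compact (μ := (MeasureTheory.volume : MeasureTheory.Measure (ℝ × ℝ)))
      ((isCompact_Icc (a := (0 : ℝ)) (b := 1)).prod (isCompact_Icc (a := (0 : ℝ)) (b := 1)))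
    exact h2.mono_set (prod_mono Ioc_subset_Icc_self Ioc_subset_Icc_self)

theorem FourierDecay_bound (F : ℝ × ℝ → ℂ) (hF : Continuous F) :
    ∃ C : ℝ, ∀ k, ‖FourierDecay_c F k‖ ≤ C := by
  obtain ⟨C, hC⟩ := ((isCompact_Icc (a := (0 : ℝ)) (b := 1)).prod
    (isCompact_Icc (a := (0 : ℝ)) (b := 1))).exists_bound_of_continuousOn hF.continuousOn
  refine ⟨C, fun k => ?_⟩
  unfold FourierDecay_c
  have h1 : ∀ y ∈ Set.uIoc (0 : ℝ) 1, ‖FourierDecay_e (-k.2) y *
      ∫ x in (0 : ℝ)..1, FourierDecay_e (-k.1) x * F (x, y)‖ ≤ C := by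
    intro y hy
    rw [norm_mul, FourierDecay_e_norm, one_mul]
    have h2 : ∀ x ∈ Set.uIoc (0 : ℝ) 1, ‖FourierDecay_e (-k.1) x * F (x, y)‖ ≤ C := by
      intro x hx
      rw [norm_mul, FourierDecay_e_norm, one_mul]
      rw [uIoc_of_le zero_le_one] at hx hy
      exact hC _ ⟨Ioc_subset_Icc_self hx, Ioc_subset_Icc_self hy⟩
    have := intervalIntegral.norm_integral_le_of_norm_le_const h2
    simpa using this
  have := intervalIntegral.norm_integral_le_of_norm_le_const h1
  simpa using this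

/-- One-dimensional integration by parts. -/
theorem FourierDecay_parts (u u' : ℝ → ℂ) (hu : ∀ x, HasDerivAt u (u' x) x) (hu' : Continuous u')
    (h01 : u 1 = u 0) (k : ℤ) :
    ∫ x in (0 : ℝ)..1, FourierDecay_e (-k) x * u' x =
      (2 * Real.pi * Complex.I * k) * ∫ x in (0 : ℝ)..1, FourierDecay_e (-k) x * u x := by
  have hd : ∀ x ∈ uIcc (0 : ℝ) 1, HasDerivAt (fun x => FourierDecay_e (-k) x * u x)
      (2 * Real.pi * Complex.I * (-k : ℤ) * FourierDecay_e (-k) x * u x +
        FourierDecay_e (-k) x * u' x) x := fun x _ => (FourierDecay_e_deriv (-k) x).mul (hu x)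
  have hcu : Continuous u := continuous_iff_continuousAt.2 fun x => (hu x).continuousAt
  have hce := FourierDecay_e_cont (-k)
  have hi := intervalIntegral.integral_eq_sub_of_hasDerivAt hd
    (by apply Continuous.intervalIntegrable; fun_prop)
  rw [FourierDecay_e_one, FourierDecay_e_zero, h01, sub_self] at hi
  rw [intervalIntegral.integral_add (by apply Continuous.intervalIntegrable; fun_prop)
    (by apply Continuous.intervalIntegrable; fun_prop)] at hi
  have h2 : ∫ x in (0 : ℝ)..1, 2 * Real.pi * Complex.I * (-k : ℤ) * FourierDecay_e (-k) x * u x =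
      (-(2 * Real.pi * Complex.I * k)) * ∫ x in (0 : ℝ)..1, FourierDecay_e (-k) x * u x := by
    rw [← intervalIntegral.integral_const_mul]
    apply intervalIntegral.integral_congr
    intro x _
    push_cast
    ring
  rw [h2] at hi
  linear_combination hi

/-- Class of functions. -/
def FourierDecay_P (F : ℝ × ℝ → ℂ) : Prop :=
  ContDiff ℝ ∞ F ∧ (∀ y : ℝ × ℝ, F (y + (1, 0)) = F y) ∧ (∀ y : ℝ × ℝ, F (y + (0, 1)) = F y)

/-- Directional derivative. -/
noncomputable def FourierDecay_D (v : ℝ × ℝ) (F : ℝ × ℝ → ℂ) (z : ℝ × ℝ) : ℂ := fderiv ℝ F z v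

theorem FourierDecay_D_P (v : ℝ × ℝ) {F : ℝ × ℝ → ℂ} (hF : FourierDecay_P F) :
    FourierDecay_P (FourierDecay_D v F) := by
  refine ⟨?_, ?_, ?_⟩
  · exact (hF.1.fderiv_right (m := ∞) (by simp)).clm_apply contDiff_const
  · intro y
    unfold FourierDecay_D
    rw [← fderiv_comp_add_right (f := F) (x := y) (1, 0)]
    have : (fun x => F (x + (1, 0))) = F := funext hF.2.1
    rw [this]
  · intro y
    unfold FourierDecay_D
    rw [← fderiv_comp_add_right (f := F) (x := y) (0, 1)]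
    have : (fun x => F (x + (0, 1))) = F := funext hF.2.2
    rw [this]

theorem FourierDecay_D1 {F : ℝ × ℝ → ℂ} (hF : FourierDecay_P F) (k : ℤ × ℤ) :
    FourierDecay_c (FourierDecay_D (1, 0) F) k =
      (2 * Real.pi * Complex.I * k.1) * FourierDecay_c F k := by
  unfold FourierDecay_c
  have hD := FourierDecay_D_P (1, 0) hF
  rw [← intervalIntegral.integral_const_mul]
  apply intervalIntegral.integral_congr
  intro y _
  simp only
  rw [FourierDecay_parts (fun x => F (x, y)) (fun x => FourierDecay_D (1, 0) F (x, y))]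
  · ring
  · intro x
    have h1 : HasFDerivAt F (fderiv ℝ F (x, y)) (x, y) :=
      (hF.1.differentiable (by simp) (x, y)).hasFDerivAt
    have h2 : HasDerivAt (fun x : ℝ => (x, y)) ((1 : ℝ), (0 : ℝ)) x :=
      (hasDerivAt_id x).prodMk (hasDerivAt_const x y)
    exact h1.comp_hasDerivAt x h2
  · have := hD.1.continuous
    fun_prop
  · have := hF.2.1 (0, y)
    simpa using this

theorem FourierDecay_D2 {F : ℝ × ℝ → ℂ} (hF : FourierDecay_P F) (k : ℤ × ℤ) :
    FourierDecay_c (FourierDecay_D (0, 1) F) k =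
      (2 * Real.pi * Complex.I * k.2) * FourierDecay_c F k := by
  have hD := FourierDecay_D_P (0, 1) hF
  rw [FourierDecay_swap _ hD.1.continuous, FourierDecay_swap _ hF.1.continuous]
  rw [← intervalIntegral.integral_const_mul]
  apply intervalIntegral.integral_congr
  intro x _
  simp only
  rw [FourierDecay_parts (fun y => F (x, y)) (fun y => FourierDecay_D (0, 1) F (x, y))]
  · ring
  · intro y
    have h1 : HasFDerivAt F (fderiv ℝ F (x, y)) (x, y) :=
      (hF.1.differentiable (by simp) (x, y)).hasFDerivAt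
    have h2 : HasDerivAt (fun y : ℝ => (x, y)) ((0 : ℝ), (1 : ℝ)) y :=
      (hasDerivAt_const y x).prodMk (hasDerivAt_id y)
    exact h1.comp_hasDerivAt y h2
  · have := hD.1.continuous
    fun_prop
  · have := hF.2.2 (x, 0)
    simpa using this

theorem FourierDecay_iter {F : ℝ × ℝ → ℂ} (hF : FourierDecay_P F) (m : ℕ) :
    FourierDecay_P ((FourierDecay_D (1, 0))^[m] F) ∧ FourierDecay_P ((FourierDecay_D (0, 1))^[m] F) ∧
    ∀ k, FourierDecay_c ((FourierDecay_D (1, 0))^[m] F) k =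
      (2 * Real.pi * Complex.I * k.1) ^ m * FourierDecay_c F k ∧
      FourierDecay_c ((FourierDecay_D (0, 1))^[m] F) k =
      (2 * Real.pi * Complex.I * k.2) ^ m * FourierDecay_c F k := by
  induction m with
  | zero => exact ⟨hF, hF, fun k => by simp⟩
  | succ m ih =>
    obtain ⟨i1, i2, i3⟩ := ih
    simp only [Function.iterate_succ_apply']
    refine ⟨FourierDecay_D_P _ i1, FourierDecay_D_P _ i2, fun k => ⟨?_, ?_⟩⟩
    · rw [FourierDecay_D1 i1, (i3 k).1, pow_succ]; ring
    · rw [FourierDecay_D2 i2, (i3 k).2, pow_succ]; ring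

theorem FourierDecay_norm2 (j : ℤ) : |(j : ℝ)| ≤ ‖(2 * Real.pi * Complex.I * j : ℂ)‖ := by
  rw [norm_mul, norm_mul, norm_mul, Complex.norm_I, mul_one, Complex.norm_intCast]
  have h1 : ‖(2 : ℂ)‖ = 2 := by simp
  have h2 : ‖(Real.pi : ℂ)‖ = Real.pi := by
    rw [Complex.norm_real, Real.norm_eq_abs, abs_of_pos Real.pi_pos]
  rw [h1, h2]
  have h3 := Real.pi_gt_three
  nlinarith [abs_nonneg (j : ℝ)]

theorem FourierDecay_decay {F : ℝ × ℝ → ℂ} (hF : FourierDecay_P F) (m : ℕ) :
    ∃ C : ℝ, ∀ k : ℤ × ℤ,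
      ‖FourierDecay_c F k‖ * (1 + |(k.1 : ℝ)| + |(k.2 : ℝ)|) ^ m ≤ C := by
  obtain ⟨i1, i2, i3⟩ := FourierDecay_iter hF m
  obtain ⟨A, hA⟩ := FourierDecay_bound F hF.1.continuous
  obtain ⟨B, hB⟩ := FourierDecay_bound _ i1.1.continuous
  obtain ⟨D, hD⟩ := FourierDecay_bound _ i2.1.continuous
  refine ⟨3 ^ m * (A + B + D), fun k => ?_⟩
  have hA0 := hA k
  have hB0 := hB k
  have hD0 := hD k
  rw [(i3 k).1, norm_mul, norm_pow] at hB0
  rw [(i3 k).2, norm_mul, norm_pow] at hD0
  have hc := norm_nonneg (FourierDecay_c F k)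
  have hB1 : |(k.1 : ℝ)| ^ m * ‖FourierDecay_c F k‖ ≤ B :=
    (mul_le_mul_of_nonneg_right (pow_le_pow_left₀ (abs_nonneg _) (FourierDecay_norm2 _) m) hc).trans
      hB0
  have hD1 : |(k.2 : ℝ)| ^ m * ‖FourierDecay_c F k‖ ≤ D :=
    (mul_le_mul_of_nonneg_right (pow_le_pow_left₀ (abs_nonneg _) (FourierDecay_norm2 _) m) hc).trans
      hD0
  have a1 := abs_nonneg (k.1 : ℝ)
  have a2 := abs_nonneg (k.2 : ℝ)
  have hmax : (1 + |(k.1 : ℝ)| + |(k.2 : ℝ)|) ^ m ≤
      3 ^ m * (1 + |(k.1 : ℝ)| ^ m + |(k.2 : ℝ)| ^ m) := by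
    set M := max 1 (max |(k.1 : ℝ)| |(k.2 : ℝ)|) with hM
    have e1 : (1 : ℝ) ≤ M := le_max_left _ _
    have e2 : |(k.1 : ℝ)| ≤ M := (le_max_left _ _).trans (le_max_right _ _)
    have e3 : |(k.2 : ℝ)| ≤ M := (le_max_right _ _).trans (le_max_right _ _)
    have e4 : (1 + |(k.1 : ℝ)| + |(k.2 : ℝ)|) ^ m ≤ (3 * M) ^ m := by
      apply pow_le_pow_left₀ (by positivity)
      linarith
    rw [mul_pow] at e4
    refine e4.trans (mul_le_mul_of_nonneg_left ?_ (by positivity))
    have f1 : (0 : ℝ) ≤ |(k.1 : ℝ)| ^ m := by positivity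
    have f2 : (0 : ℝ) ≤ |(k.2 : ℝ)| ^ m := by positivity
    rcases max_choice (1 : ℝ) (max |(k.1 : ℝ)| |(k.2 : ℝ)|) with h | h
    · rw [hM, h, one_pow]; linarith
    · rcases max_choice |(k.1 : ℝ)| |(k.2 : ℝ)| with h' | h'
      · rw [hM, h, h']; linarith
      · rw [hM, h, h']; linarith
  calc ‖FourierDecay_c F k‖ * (1 + |(k.1 : ℝ)| + |(k.2 : ℝ)|) ^ m
      ≤ ‖FourierDecay_c F k‖ * (3 ^ m * (1 + |(k.1 : ℝ)| ^ m + |(k.2 : ℝ)| ^ m)) :=
        mul_le_mul_of_nonneg_left hmax hc
    _ = 3 ^ m * (‖FourierDecay_c F k‖ + |(k.1 : ℝ)| ^ m * ‖FourierDecay_c F k‖ +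
        |(k.2 : ℝ)| ^ m * ‖FourierDecay_c F k‖) := by ring
    _ ≤ 3 ^ m * (A + B + D) := by
        apply mul_le_mul_of_nonneg_left _ (by positivity)
        linarith

theorem FourierDecay_sumZ : Summable fun k : ℤ => 1 / (1 + |(k : ℝ)|) ^ 2 := by
  have h := (Real.summable_one_div_int_pow (p := 2)).2 (by norm_num)
  have h2 : Summable fun k : ℤ => if k = 0 then (1 : ℝ) else 0 :=
    summable_of_hasFiniteSupport ((Set.finite_singleton (0 : ℤ)).subset (by
      intro k hk
      by_contra hk'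
      simp only [mem_singleton_iff] at hk'
      simp [hk'] at hk))
  refine Summable.of_nonneg_of_le (fun k => by positivity) (fun k => ?_) (h.add h2)
  by_cases hk : k = 0
  · subst hk; simp
  · rw [if_neg hk, add_zero]
    have : (0 : ℝ) < |(k : ℝ)| := by
      rw [abs_pos]; exact_mod_cast hk
    have e : (k : ℝ) ^ 2 = |(k : ℝ)| ^ 2 := (sq_abs _).symm
    rw [e]
    apply one_div_le_one_div_of_le (by positivity)
    apply pow_le_pow_left₀ this.le
    linarith

theorem FourierDecay_sumZZ : Summable fun k : ℤ × ℤ => 1 / (1 + |(k.1 : ℝ)| + |(k.2 : ℝ)|) ^ 4 := by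
  have h := FourierDecay_sumZ.mul_of_nonneg FourierDecay_sumZ
    (fun k => by positivity) (fun k => by positivity)
  refine Summable.of_nonneg_of_le (fun k => by positivity) (fun k => ?_) h
  have a1 := abs_nonneg (k.1 : ℝ)
  have a2 := abs_nonneg (k.2 : ℝ)
  rw [one_div_mul_one_div]
  apply one_div_le_one_div_of_le (by positivity)
  have e1 : (1 + |(k.1 : ℝ)|) ^ 2 ≤ (1 + |(k.1 : ℝ)| + |(k.2 : ℝ)|) ^ 2 :=
    pow_le_pow_left₀ (by positivity) (by linarith) 2
  have e2 : (1 + |(k.2 : ℝ)|) ^ 2 ≤ (1 + |(k.1 : ℝ)| + |(k.2 : ℝ)|) ^ 2 :=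
    pow_le_pow_left₀ (by positivity) (by linarith) 2
  calc (1 + |(k.1 : ℝ)|) ^ 2 * (1 + |(k.2 : ℝ)|) ^ 2
      ≤ (1 + |(k.1 : ℝ)| + |(k.2 : ℝ)|) ^ 2 * (1 + |(k.1 : ℝ)| + |(k.2 : ℝ)|) ^ 2 :=
        mul_le_mul e1 e2 (by positivity) (by positivity)
    _ = _ := by ring

theorem FourierDecay_summable {F : ℝ × ℝ → ℂ} (hF : FourierDecay_P F) :
    Summable fun k : ℤ × ℤ => ‖FourierDecay_c F k‖ := by
  obtain ⟨C, hC⟩ := FourierDecay_decay hF 4
  refine Summable.of_nonneg_of_le (fun k => norm_nonneg _) (fun k => ?_)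
    (FourierDecay_sumZZ.mul_left C)
  have a1 := abs_nonneg (k.1 : ℝ)
  have a2 := abs_nonneg (k.2 : ℝ)
  have hp : (0 : ℝ) < (1 + |(k.1 : ℝ)| + |(k.2 : ℝ)|) ^ 4 := by positivity
  rw [mul_one_div, le_div_iff₀ hp]
  exact hC k

theorem FourierDecay_hasSum {F : ℝ × ℝ → ℂ} (hF : FourierDecay_P F) (y : ℝ × ℝ) :
    HasSum (fun k : ℤ × ℤ => FourierDecay_c F k * (FourierDecay_e k.1 y.1 * FourierDecay_e k.2 y.2))
      (F y) := by
  have hs := FourierDecay_summable hF
  have hs1 : Summable fun k : ℤ × ℤ =>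
      FourierDecay_c F k * (FourierDecay_e k.1 y.1 * FourierDecay_e k.2 y.2) := by
    apply Summable.of_norm
    simp only [norm_mul, FourierDecay_e_norm, mul_one]
    exact hs
  have hc : ∀ k : ℤ, Continuous fun y : ℝ => ∫ x in (0 : ℝ)..1, FourierDecay_e (-k) x * F (x, y) :=
    fun k => FourierDecay_inner_cont F hF.1.continuous k
  -- the inner sums
  have hin : ∀ (k1 : ℤ) (t : ℝ), HasSum (fun k2 : ℤ => FourierDecay_c F (k1, k2) *
      FourierDecay_e k2 t) (∫ x in (0 : ℝ)..1, FourierDecay_e (-k1) x * F (x, t)) := by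
    intro k1 t
    apply FourierDecay_one (fun t => ∫ x in (0 : ℝ)..1, FourierDecay_e (-k1) x * F (x, t)) (hc k1)
    · intro t
      apply intervalIntegral.integral_congr
      intro x _
      have := hF.2.2 (x, t)
      simp only [Prod.mk_add_mk, add_zero] at this
      simp only [this]
    · have h2 : Summable fun k2 : ℤ => ‖FourierDecay_c F (k1, k2)‖ := hs.prod_factor k1
      exact Summable.of_norm h2
  have hin' : ∀ k1 : ℤ, HasSum (fun k2 : ℤ => FourierDecay_c F (k1, k2) *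
      (FourierDecay_e k1 y.1 * FourierDecay_e k2 y.2))
      ((∫ x in (0 : ℝ)..1, FourierDecay_e (-k1) x * F (x, y.2)) * FourierDecay_e k1 y.1) := by
    intro k1
    have h3 := (hin k1 y.2).mul_right (FourierDecay_e k1 y.1)
    have e : (fun k2 : ℤ => FourierDecay_c F (k1, k2) * FourierDecay_e k2 y.2 *
        FourierDecay_e k1 y.1) = fun k2 : ℤ => FourierDecay_c F (k1, k2) *
        (FourierDecay_e k1 y.1 * FourierDecay_e k2 y.2) := by
      funext k2
      ring
    rw [e] at h3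
    exact h3
  have hout : HasSum (fun k1 : ℤ =>
      (∫ x in (0 : ℝ)..1, FourierDecay_e (-k1) x * F (x, y.2)) * FourierDecay_e k1 y.1)
      (∑' k : ℤ × ℤ, FourierDecay_c F k * (FourierDecay_e k.1 y.1 * FourierDecay_e k.2 y.2)) :=
    hs1.hasSum.prod_fiberwise hin'
  have hsum1 : Summable fun k1 : ℤ => ∫ x in (0 : ℝ)..1, FourierDecay_e (-k1) x * F (x, y.2) := by
    apply Summable.of_norm
    have h4 := hout.summable.norm
    simp only [norm_mul, FourierDecay_e_norm, mul_one] at h4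
    exact h4
  have hfin := FourierDecay_one (fun x => F (x, y.2)) (by
    have := hF.1.continuous
    fun_prop) (fun x => by
      have := hF.2.1 (x, y.2)
      simpa using this) hsum1 y.1
  have := hfin.unique hout
  have e : F (y.1, y.2) = F y := rfl
  rw [← e, this]
  exact hs1.hasSum

theorem fourier_decay (h : ℝ × ℝ → ℝ) (hs : ContDiff ℝ ∞ h) (h1 : ∀ y, h (y.1 + 1, y.2) = h y)
    (h2 : ∀ y, h (y.1, y.2 + 1) = h y) :
    ∃ a b : ℤ × ℤ → ℝ, (∀ m : ℕ, ∃ C : ℝ, ∀ k : ℤ × ℤ,
        |a k| + |b k| ≤ C / (1 + |(k.1 : ℝ)| + |(k.2 : ℝ)|) ^ m) ∧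
      ∀ y : ℝ × ℝ, HasSum (fun k : ℤ × ℤ =>
        a k * Real.cos (2 * Real.pi * (k.1 * y.1 + k.2 * y.2)) +
          b k * Real.sin (2 * Real.pi * (k.1 * y.1 + k.2 * y.2))) (h y) := by
  have hF : FourierDecay_P (fun y => (h y : ℂ)) := by
    refine ⟨Complex.ofRealCLM.contDiff.comp hs, fun y => ?_, fun y => ?_⟩
    · have := h1 y
      have e : y + (1, 0) = (y.1 + 1, y.2) := by ext <;> simp
      simp only [e, this]
    · have := h2 y
      have e : y + (0, 1) = (y.1, y.2 + 1) := by ext <;> simp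
      simp only [e, this]
  refine ⟨fun k => (FourierDecay_c (fun y => (h y : ℂ)) k).re,
    fun k => -(FourierDecay_c (fun y => (h y : ℂ)) k).im, fun m => ?_, fun y => ?_⟩
  · obtain ⟨C, hC⟩ := FourierDecay_decay hF m
    refine ⟨2 * C, fun k => ?_⟩
    have a1 := abs_nonneg (k.1 : ℝ)
    have a2 := abs_nonneg (k.2 : ℝ)
    have hp : (0 : ℝ) < (1 + |(k.1 : ℝ)| + |(k.2 : ℝ)|) ^ m := by positivity
    rw [le_div_iff₀ hp, abs_neg]
    have e1 := Complex.abs_re_le_norm (FourierDecay_c (fun y => (h y : ℂ)) k)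
    have e2 := Complex.abs_im_le_norm (FourierDecay_c (fun y => (h y : ℂ)) k)
    have e3 := hC k
    nlinarith
  · have h3 := Complex.hasSum_re (FourierDecay_hasSum hF y)
    simp only [Complex.ofReal_re] at h3
    have e0 : (fun k : ℤ × ℤ => (FourierDecay_c (fun y => (h y : ℂ)) k *
        (FourierDecay_e k.1 y.1 * FourierDecay_e k.2 y.2)).re) = fun k : ℤ × ℤ =>
        (FourierDecay_c (fun y => (h y : ℂ)) k).re *
          Real.cos (2 * Real.pi * (k.1 * y.1 + k.2 * y.2)) +
        -(FourierDecay_c (fun y => (h y : ℂ)) k).im *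
          Real.sin (2 * Real.pi * (k.1 * y.1 + k.2 * y.2)) := by
      funext k
      have e : FourierDecay_e k.1 y.1 * FourierDecay_e k.2 y.2 =
          Complex.exp (((2 * Real.pi * (k.1 * y.1 + k.2 * y.2) : ℝ) : ℂ) * Complex.I) := by
        unfold FourierDecay_e
        rw [← Complex.exp_add]
        congr 1
        push_cast
        ring
      rw [e, Complex.mul_re, Complex.exp_ofReal_mul_I_re, Complex.exp_ofReal_mul_I_im]
      ring
    rw [e0] at h3
    exact h3

end Pool.Agent.H13.Steklov
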