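import Pool.Agent.H13.Steklov.SolDefs

/-!
# STEK OdeBound: bounds for the derivatives of a solution

Paper proof. `Q = pot κ γ α β`; on `[0,1]`, `|Q^{(i)}| ≤ C_i (1 + α + β)` with `C_i` depending on
`κ, γ, i` only. `c^{(n+2)} = ∑_i binom(n,i) Q^{(i)} c^{(n-i)}` (Leibniz for `iteratedDeriv`), strong
induction on `n`; `n = 0, 1` is the hypothesis.
-/

open scoped ContDiff Topology
open Set Filter

namespace Pool.Agent.H13.Steklov

private theorem OdeBound_iter (κ γ α β : ℝ) (i : ℕ) :
    iteratedDeriv i (pot κ γ α β) = fun x => α * (-(2 * κ)) ^ i * Real.exp (-(2 * κ * x)) +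
      β * (2 * κ) ^ i * Real.exp (2 * κ * x) - (if i = 0 then γ else 0) := by
  induction i with
  | zero =>
    funext x
    simp [pot]
  | succ i ih =>
    rw [iteratedDeriv_succ, ih]
    funext x
    have h1 : HasDerivAt (fun x : ℝ => Real.exp (-(2 * κ * x)))
        (Real.exp (-(2 * κ * x)) * (-(2 * κ * 1))) x :=
      (((hasDerivAt_id x).const_mul (2 * κ)).neg).exp
    have h2 : HasDerivAt (fun x : ℝ => Real.exp (2 * κ * x))
        (Real.exp (2 * κ * x) * (2 * κ * 1)) x :=
      ((hasDerivAt_id x).const_mul (2 * κ)).exp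
    have h3 := ((h1.const_mul (α * (-(2 * κ)) ^ i)).add (h2.const_mul (β * (2 * κ) ^ i))).sub_const
      (if i = 0 then γ else 0)
    rw [HasDerivAt.deriv (f := fun x => α * (-(2 * κ)) ^ i * Real.exp (-(2 * κ * x)) +
      β * (2 * κ) ^ i * Real.exp (2 * κ * x) - (if i = 0 then γ else 0)) h3]
    simp only [Nat.add_eq_zero_iff, one_ne_zero, and_false, if_false]
    ring

private theorem OdeBound_pot (κ γ α β : ℝ) (hα : 0 ≤ α) (hβ : 0 ≤ β) (k i : ℕ) (hi : i ≤ k) (x : ℝ)
    (hx : x ∈ Icc (0 : ℝ) 1) :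
    |iteratedDeriv i (pot κ γ α β) x| ≤
      ((1 + 2 * |κ|) ^ k * Real.exp (2 * |κ|) + |γ|) * (1 + α + β) := by
  rw [OdeBound_iter]
  have hE : ∀ s : ℝ, |s| ≤ 2 * |κ| → Real.exp s ≤ Real.exp (2 * |κ|) := fun s hs =>
    Real.exp_le_exp.mpr ((le_abs_self s).trans hs)
  have hab : |2 * κ * x| ≤ 2 * |κ| := by
    rw [abs_mul, abs_mul, abs_two]
    have : |x| ≤ 1 := by rw [abs_le]; constructor <;> linarith [hx.1, hx.2]
    nlinarith [abs_nonneg κ, abs_nonneg x]
  have h1 := hE (-(2 * κ * x)) (by rwa [abs_neg])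
  have h2 := hE (2 * κ * x) hab
  have hp : |2 * κ| ^ i ≤ (1 + 2 * |κ|) ^ k := by
    rw [abs_mul, abs_two]
    calc (2 * |κ|) ^ i ≤ (1 + 2 * |κ|) ^ i := by
          gcongr
          linarith
      _ ≤ (1 + 2 * |κ|) ^ k := by
          apply pow_le_pow_right₀ _ hi
          have := abs_nonneg κ
          linarith
  have hp0 : 0 ≤ (1 + 2 * |κ|) ^ k := by positivity
  have t1 : |α * (-(2 * κ)) ^ i * Real.exp (-(2 * κ * x))| ≤
      α * ((1 + 2 * |κ|) ^ k * Real.exp (2 * |κ|)) := by
    rw [abs_mul, abs_mul, abs_pow, abs_neg, abs_of_nonneg hα, abs_of_pos (Real.exp_pos _), mul_assoc]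
    gcongr
  have t2 : |β * (2 * κ) ^ i * Real.exp (2 * κ * x)| ≤
      β * ((1 + 2 * |κ|) ^ k * Real.exp (2 * |κ|)) := by
    rw [abs_mul, abs_mul, abs_pow, abs_of_nonneg hβ, abs_of_pos (Real.exp_pos _), mul_assoc]
    gcongr
  have t3 : |(if i = 0 then γ else 0)| ≤ |γ| := by
    split_ifs
    · exact le_rfl
    · simp
  have h4 := abs_sub (α * (-(2 * κ)) ^ i * Real.exp (-(2 * κ * x)) +
      β * (2 * κ) ^ i * Real.exp (2 * κ * x)) (if i = 0 then γ else 0)
  have h5 := abs_add_le (α * (-(2 * κ)) ^ i * Real.exp (-(2 * κ * x)))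
      (β * (2 * κ) ^ i * Real.exp (2 * κ * x))
  have hEpos : 0 ≤ (1 + 2 * |κ|) ^ k * Real.exp (2 * |κ|) := by positivity
  have hγ := abs_nonneg γ
  have h6 : 0 ≤ |γ| * (α + β) := by positivity
  nlinarith

theorem ode_bound (κ γ : ℝ) (n : ℕ) : ∃ (C : ℝ) (N : ℕ), 0 ≤ C ∧ ∀ α β : ℝ, 0 ≤ α → 0 ≤ β →
    ∀ c : ℝ → ℝ, ContDiff ℝ ∞ c → (∀ x, deriv (deriv c) x = pot κ γ α β x * c x) →
    ∀ A : ℝ, (∀ x ∈ Icc (0 : ℝ) 1, |c x| ≤ A ∧ |deriv c x| ≤ A) →
    ∀ x ∈ Icc (0 : ℝ) 1, |iteratedDeriv n c x| ≤ C * (1 + α + β) ^ N * A := by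
  have key : ∀ n : ℕ, ∃ (C : ℝ) (N : ℕ), 0 ≤ C ∧ ∀ α β : ℝ, 0 ≤ α → 0 ≤ β →
      ∀ c : ℝ → ℝ, ContDiff ℝ ∞ c → (∀ x, deriv (deriv c) x = pot κ γ α β x * c x) →
      ∀ A : ℝ, (∀ x ∈ Icc (0 : ℝ) 1, |c x| ≤ A ∧ |deriv c x| ≤ A) →
      ∀ m ≤ n, ∀ x ∈ Icc (0 : ℝ) 1, |iteratedDeriv m c x| ≤ C * (1 + α + β) ^ N * A := by
    intro n
    induction n with
    | zero =>
      refine ⟨1, 0, zero_le_one, ?_⟩
      intro α β _ _ c _ _ A hA m hm x hx
      obtain rfl : m = 0 := by omega
      rw [iteratedDeriv_zero]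
      simpa using (hA x hx).1
    | succ n ih =>
      obtain ⟨C, N, hC, h⟩ := ih
      set K : ℝ := (1 + 2 * |κ|) ^ n * Real.exp (2 * |κ|) + |γ| with hK
      have hK0 : 0 ≤ K := by positivity
      refine ⟨1 + C + 2 ^ n * K * C, N + 1, by positivity, ?_⟩
      intro α β hα hβ c hc hode A hA m hm x hx
      have hA0 : 0 ≤ A := (abs_nonneg _).trans (hA x hx).1
      have hB1 : 1 ≤ 1 + α + β := by linarith
      set B : ℝ := 1 + α + β with hB
      have hB0 : 0 ≤ B := by linarith
      have hBN : 1 ≤ B ^ (N + 1) := one_le_pow₀ hB1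
      have hmono : B ^ N ≤ B ^ (N + 1) := pow_le_pow_right₀ hB1 (Nat.le_succ N)
      rcases Nat.lt_or_ge m (n + 1) with hlt | hge
      · have h1 := h α β hα hβ c hc hode A hA m (by omega) x hx
        refine h1.trans ?_
        have h2 : C * B ^ N ≤ (1 + C + 2 ^ n * K * C) * B ^ (N + 1) := by
          apply mul_le_mul _ hmono (by positivity) (by positivity)
          have : 0 ≤ 2 ^ n * K * C := by positivity
          linarith
        exact mul_le_mul_of_nonneg_right h2 hA0
      · obtain rfl : m = n + 1 := by omega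
        rcases Nat.eq_zero_or_pos n with hn | hn
        · subst hn
          rw [zero_add, iteratedDeriv_one]
          refine ((hA x hx).2).trans ?_
          have h2 : 1 ≤ (1 + C + 2 ^ 0 * K * C) * B ^ (0 + N + 1) := by
            have h3 : 1 ≤ 1 + C + 2 ^ 0 * K * C := by
              have : 0 ≤ 2 ^ 0 * K * C := by positivity
              linarith
            have h4 : 1 ≤ B ^ (0 + N + 1) := one_le_pow₀ hB1
            nlinarith
          have h2' : 1 ≤ (1 + C + 2 ^ 0 * K * C) * B ^ (N + 1) := by simpa using h2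
          calc A = 1 * A := (one_mul A).symm
            _ ≤ _ := mul_le_mul_of_nonneg_right h2' hA0
        · obtain ⟨k, rfl⟩ : ∃ k, n = k + 1 := ⟨n - 1, by omega⟩
          have e1 : iteratedDeriv (k + 1 + 1) c = iteratedDeriv k (fun x => pot κ γ α β x * c x) := by
            have e2 : iteratedDeriv (k + 1 + 1) c = iteratedDeriv k (deriv (deriv c)) := by
              rw [iteratedDeriv_succ', iteratedDeriv_succ']
            rw [e2]
            congr 1
            funext y
            exact hode y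
          have hpot : ContDiff ℝ ∞ (pot κ γ α β) := by
            unfold pot
            fun_prop
          rw [e1]
          have e3 : iteratedDeriv k (fun x => pot κ γ α β x * c x) x =
              ∑ i ∈ Finset.range (k + 1), (k.choose i : ℝ) * iteratedDeriv i (pot κ γ α β) x *
                iteratedDeriv (k - i) c x := by
            have := iteratedDeriv_fun_mul (n := k) (x := x) (f := pot κ γ α β) (g := c)
              (hpot.contDiffAt.of_le (by exact_mod_cast le_top))
              (hc.contDiffAt.of_le (by exact_mod_cast le_top))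
            exact this
          rw [e3]
          have h5 : ∀ i ∈ Finset.range (k + 1), |(k.choose i : ℝ) *
              iteratedDeriv i (pot κ γ α β) x * iteratedDeriv (k - i) c x| ≤
              (k.choose i : ℝ) * ((K * B) * (C * B ^ N * A)) := by
            intro i hi
            have hi' := Finset.mem_range.mp hi
            rw [abs_mul, abs_mul, Nat.abs_cast, mul_assoc]
            have p1 := OdeBound_pot κ γ α β hα hβ (k + 1) i (by omega) x hx
            have p2 := h α β hα hβ c hc hode A hA (k - i) (by omega) x hx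
            gcongr
          refine (Finset.abs_sum_le_sum_abs _ _).trans ((Finset.sum_le_sum h5).trans ?_)
          rw [← Finset.sum_mul]
          have h6 : (∑ i ∈ Finset.range (k + 1), (k.choose i : ℝ)) = 2 ^ k := by
            exact_mod_cast Nat.sum_range_choose k
          rw [h6]
          have h7 : (2 : ℝ) ^ k * ((K * B) * (C * B ^ N * A)) =
              (2 ^ k * K * C) * B ^ (N + 1) * A := by ring
          rw [h7]
          apply mul_le_mul_of_nonneg_right _ hA0
          apply mul_le_mul_of_nonneg_right _ (by positivity)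
          have h8 : (2 : ℝ) ^ k ≤ 2 ^ (k + 1) := pow_le_pow_right₀ (by norm_num) (Nat.le_succ k)
          have h9 : (2 : ℝ) ^ k * K * C ≤ 2 ^ (k + 1) * K * C := by gcongr
          linarith
  obtain ⟨C, N, hC, h⟩ := key n
  exact ⟨C, N, hC, fun α β hα hβ c hc hode A hA x hx =>
    h α β hα hβ c hc hode A hA n le_rfl x hx⟩

end Pool.Agent.H13.Steklov
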