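import Pool.Agent.H13.Steklov.Basic

/-!
# STEK SlabSeries: termwise differentiation on the closed slab

Paper proof. (1) Let `s = slab` (convex, `uniqueDiffOn_slab`), `F_k : Pt → E` (`E` a complete normed
space) differentiable within `s` with `‖F_k'‖ ≤ v_k` on `s`, `v` summable, `∑ F_k` summable at each point.
Then `∑ F_k` has the derivative `∑ F_k'` within `s` (finite partial sums and the mean value inequality
on the convex set `s` for the tails). (2) A function `u` on the slab is `C^∞` if all its iterated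
partial derivatives exist: e.g. show by induction on `n` (for all families with the hypothesis
`hb`) that `∑ f_k` is `ContDiffOn ℝ n` on the slab, using `contDiffOn_succ_iff_fderivWithin` (or
`..._hasFDerivWithinAt`) and that the derivative is `v ↦ ∑ i, v i * ∑_k pd i (f_k)`; the family
`pd i (f_k)` satisfies the hypothesis again (`iterPd l (pd i u) = iterPd (l ++ [i]) u`).
-/

open scoped ContDiff Topology
open Set Filter

namespace Pool.Agent.H13.Steklov

/-- The derivative of a series of functions on the slab with summably bounded derivatives. -/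
theorem slabSeries_hasFDerivWithinAt {ι : Type*} {F : ι → Pt → ℝ} {F' : ι → Pt → Pt →L[ℝ] ℝ}
    {w : ι → ℝ} (hw : Summable w)
    (hF : ∀ k, ∀ p ∈ slab, HasFDerivWithinAt (F k) (F' k p) slab p)
    (hb : ∀ k, ∀ p ∈ slab, ‖F' k p‖ ≤ w k) (hs : ∀ p ∈ slab, Summable fun k => F k p)
    {p : Pt} (hp : p ∈ slab) :
    HasFDerivWithinAt (fun q => ∑' k, F k q) (∑' k, F' k p) slab p := by
  have hs' : Summable fun k => F' k p := Summable.of_norm_bounded hw fun k => hb k p hp
  have hdom : ∀ k, ∀ q ∈ slab, ‖q - p‖⁻¹ * ‖F k q - F k p - F' k p (q - p)‖ ≤ 2 * w k := by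
    intro k q hq
    have h1 : ‖F k q - F k p‖ ≤ w k * ‖q - p‖ :=
      convex_slab.norm_image_sub_le_of_norm_hasFDerivWithin_le (hF k) (hb k) hp hq
    have h2 : ‖F' k p (q - p)‖ ≤ w k * ‖q - p‖ :=
      ((F' k p).le_opNorm _).trans (mul_le_mul_of_nonneg_right (hb k p hp) (norm_nonneg _))
    have h3 : ‖F k q - F k p - F' k p (q - p)‖ ≤ 2 * w k * ‖q - p‖ := by
      refine (norm_sub_le _ _).trans ?_
      linarith
    have hw0 : 0 ≤ w k := (norm_nonneg _).trans (hb k p hp)
    by_cases h0 : ‖q - p‖ = 0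
    · rw [h0, inv_zero, zero_mul]
      linarith
    · have h4 : 0 < ‖q - p‖ := lt_of_le_of_ne (norm_nonneg _) (Ne.symm h0)
      rw [inv_mul_le_iff₀ h4]
      linarith
  rw [hasFDerivWithinAt_iff_tendsto]
  have hlim : Tendsto (fun q => ∑' k, ‖q - p‖⁻¹ * ‖F k q - F k p - F' k p (q - p)‖)
      (𝓝[slab] p) (𝓝 (∑' _ : ι, (0 : ℝ))) := by
    refine tendsto_tsum_of_dominated_convergence (bound := fun k => 2 * w k)
      (hw.mul_left 2) (fun k => ?_) ?_
    · exact hasFDerivWithinAt_iff_tendsto.1 (hF k p hp)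
    · filter_upwards [self_mem_nhdsWithin] with q hq k
      rw [Real.norm_of_nonneg (by positivity)]
      exact hdom k q hq
  rw [tsum_zero] at hlim
  refine squeeze_zero' (Eventually.of_forall fun q => by positivity) ?_ hlim
  filter_upwards [self_mem_nhdsWithin] with q hq
  have hsum : Summable fun k => ‖q - p‖⁻¹ * ‖F k q - F k p - F' k p (q - p)‖ :=
    Summable.of_nonneg_of_le (fun k => by positivity) (fun k => hdom k q hq) (hw.mul_left 2)
  have h5 : (∑' k, F k q) - (∑' k, F k p) - (∑' k, F' k p) (q - p) =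
      ∑' k, (F k q - F k p - F' k p (q - p)) := by
    have h6 : (∑' k, F' k p) (q - p) = ∑' k, F' k p (q - p) :=
      ContinuousLinearMap.map_tsum (ContinuousLinearMap.apply ℝ ℝ (q - p)) hs'
    have h7 : Summable fun k => F' k p (q - p) :=
      hs'.mapL (ContinuousLinearMap.apply ℝ ℝ (q - p))
    rw [h6, ← (hs q hq).tsum_sub (hs p hp), ← ((hs q hq).sub (hs p hp)).tsum_sub h7]
  rw [h5, tsum_mul_left]
  by_cases h0 : ‖q - p‖ = 0
  · rw [h0, inv_zero, zero_mul, zero_mul]
  refine mul_le_mul_of_nonneg_left ?_ (by positivity)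
  refine norm_tsum_le_tsum_norm ?_
  have h8 := hsum.mul_left ‖q - p‖
  refine h8.congr fun k => ?_
  rw [← mul_assoc, mul_inv_cancel₀ h0, one_mul]

theorem slabSeries_iterPd_append (l : List (Fin 3)) (i : Fin 3) (u : Pt → ℝ) :
    iterPd l (pd i u) = iterPd (l ++ [i]) u := by
  induction l with
  | nil => rfl
  | cons j l ih => 
    change pd j (iterPd l (pd i u)) = pd j (iterPd (l ++ [i]) u)
    rw [ih]

/-- The total derivative as a combination of the partial derivatives. -/
theorem slabSeries_fderivWithin_eq (u : Pt → ℝ) (p : Pt) :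
    fderivWithin ℝ u slab p = ∑ i, pd i u p •
      ContinuousLinearMap.proj (R := ℝ) (φ := fun _ : Fin 3 => ℝ) i := by
  ext v
  have h : v = ∑ i, v i • (Pi.single i (1 : ℝ) : Pt) := by
    ext j
    simp [Finset.sum_apply, Pi.single_apply]
  conv_lhs => rw [h]
  rw [map_sum]
  simp only [map_smul, smul_eq_mul, _root_.sum_apply, _root_.smul_apply,
    ContinuousLinearMap.proj_apply, pd]
  exact Finset.sum_congr rfl fun i _ => mul_comm _ _

theorem slabSeries_norm_le (u : Pt → ℝ) (p : Pt) :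
    ‖fderivWithin ℝ u slab p‖ ≤ ∑ i, |pd i u p| := by
  rw [slabSeries_fderivWithin_eq]
  refine (norm_sum_le _ _).trans (Finset.sum_le_sum fun i _ => ?_)
  rw [norm_smul, Real.norm_eq_abs]
  refine mul_le_of_le_one_right (abs_nonneg _) ?_
  refine ContinuousLinearMap.opNorm_le_bound _ zero_le_one fun v => ?_
  rw [one_mul]
  exact norm_le_pi_norm v i

/-- Summable bounds of all partial derivatives. -/
def slabSeries_Bdd {ι : Type*} (f : ι → Pt → ℝ) : Prop :=
  ∀ l : List (Fin 3), ∃ v : ι → ℝ, Summable v ∧ ∀ k, ∀ p ∈ slab, |iterPd l (f k) p| ≤ v k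

theorem slabSeries_bdd_pd {ι : Type*} {f : ι → Pt → ℝ} (hb : slabSeries_Bdd f) (i : Fin 3) :
    slabSeries_Bdd fun k => pd i (f k) := by
  intro l
  obtain ⟨v, hv, h⟩ := hb (l ++ [i])
  refine ⟨v, hv, fun k p hp => ?_⟩
  rw [slabSeries_iterPd_append]
  exact h k p hp

theorem slabSeries_summable {ι : Type*} {f : ι → Pt → ℝ} (hb : slabSeries_Bdd f) {p : Pt}
    (hp : p ∈ slab) : Summable fun k => f k p := by
  obtain ⟨v, hv, h⟩ := hb []
  exact Summable.of_norm_bounded hv fun k => h k p hp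

theorem slabSeries_deriv {ι : Type*} {f : ι → Pt → ℝ} (hf : ∀ k, ContDiffOn ℝ ∞ (f k) slab)
    (hb : slabSeries_Bdd f) {p : Pt} (hp : p ∈ slab) :
    HasFDerivWithinAt (fun q => ∑' k, f k q) (∑ i, (∑' k, pd i (f k) p) •
      ContinuousLinearMap.proj (R := ℝ) (φ := fun _ : Fin 3 => ℝ) i) slab p := by
  choose v hv h using fun i : Fin 3 => hb [i]
  have h1 := slabSeries_hasFDerivWithinAt (F := f) (F' := fun k p => fderivWithin ℝ (f k) slab p)
    (w := fun k => ∑ i, v i k) (summable_sum fun i _ => hv i)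
    (fun k p hp => (differentiableWithinAt_of_smooth (hf k) hp).hasFDerivWithinAt)
    (fun k p hp => (slabSeries_norm_le _ _).trans (Finset.sum_le_sum fun i _ => h i k p hp))
    (fun p hp => slabSeries_summable hb hp) hp
  have h2 : (∑' k, fderivWithin ℝ (f k) slab p) = ∑ i, (∑' k, pd i (f k) p) •
      ContinuousLinearMap.proj (R := ℝ) (φ := fun _ : Fin 3 => ℝ) i := by
    have hs : ∀ i, Summable fun k => pd i (f k) p := fun i =>
      slabSeries_summable (slabSeries_bdd_pd hb i) hp
    simp_rw [slabSeries_fderivWithin_eq]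
    rw [Summable.tsum_finsetSum fun i _ => (hs i).smul_const _]
    exact Finset.sum_congr rfl fun i _ => (hs i).tsum_smul_const _
  rw [← h2]
  exact h1

theorem slabSeries_contDiffOn (n : ℕ) : ∀ {ι : Type*} {f : ι → Pt → ℝ},
    (∀ k, ContDiffOn ℝ ∞ (f k) slab) → slabSeries_Bdd f →
      ContDiffOn ℝ n (fun q => ∑' k, f k q) slab := by
  induction n with
  | zero =>
    intro ι f hf hb
    rw [Nat.cast_zero, contDiffOn_zero]
    exact fun p hp => (slabSeries_deriv hf hb hp).continuousWithinAt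
  | succ n ih =>
    intro ι f hf hb
    rw [Nat.cast_add, Nat.cast_one,
      contDiffOn_succ_iff_hasFDerivWithinAt_of_uniqueDiffOn uniqueDiffOn_slab]
    refine ⟨fun h => absurd h (by simp), fun p => ∑ i, (∑' k, pd i (f k) p) •
      ContinuousLinearMap.proj (R := ℝ) (φ := fun _ : Fin 3 => ℝ) i, ?_,
      fun p hp => slabSeries_deriv hf hb hp⟩
    refine ContDiffOn.sum fun i _ => ?_
    exact (ih (fun k => contDiffOn_pd (hf k) i) (slabSeries_bdd_pd hb i)).smul contDiffOn_const

theorem slab_series {ι : Type*} (f : ι → Pt → ℝ) (hf : ∀ k, SmoothFn (f k))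
    (hb : ∀ l : List (Fin 3), ∃ v : ι → ℝ, Summable v ∧ ∀ k, ∀ p ∈ slab, |iterPd l (f k) p| ≤ v k) :
    SmoothFn (fun p => ∑' k, f k p) ∧
      ∀ i, ∀ p ∈ slab, pd i (fun q => ∑' k, f k q) p = ∑' k, pd i (f k) p := by
  have hb' : slabSeries_Bdd f := hb
  refine ⟨⟨?_, fun p hp => ⟨?_, ?_⟩⟩, fun i p hp => ?_⟩
  · exact contDiffOn_infty.2 fun n => slabSeries_contDiffOn n (fun k => (hf k).1) hb'
  · exact tsum_congr fun k => ((hf k).2 p hp).1
  · exact tsum_congr fun k => ((hf k).2 p hp).2
  · have h := slabSeries_deriv (fun k => (hf k).1) hb' hp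
    change fderivWithin ℝ (fun q => ∑' k, f k q) slab p (Pi.single i 1) = _
    rw [h.fderivWithin (uniqueDiffOn_slab p hp)]
    simp [Pi.single_apply]

end Pool.Agent.H13.Steklov
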