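import Pool.Agent.H13.Steklov.OdeBvp
import Pool.Agent.H13.Steklov.OdeBound
import Pool.Agent.H13.Steklov.FourierDecay
import Pool.Agent.H13.Steklov.SlabSeries

/-!
# STEK SolExist: solution of the Dirichlet problem (uses `bvp`, `bvp_osc`, `ode_bound`,
`fourier_decay`, `slab_series`, which may be assumed)

Paper proof. Expand `f(0, ·)` and `f(1, ·)` by `fourier_decay` (coefficients `a⁰_k, b⁰_k`, `a¹_k, b¹_k`).
For `k ≠ 0` let `Q_k = pot κ (κ²/4) α β`, `α = 4π² k₁² / ℓ²`, `β = 4π² k₂² / ℓ²`; by `hsmall`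
`0 ≤ Q_k ≤ K_k = C (1 + k₁² + k₂²)` on `[0,1]`. `bvp` gives `c_k` with boundary values `a⁰_k, a¹_k`, and
`d_k` with `b⁰_k, b¹_k`; for `k = 0` use `bvp_osc` with `w = κ/2` (bounded derivatives are not a problem
for a single term, or use `ode_bound` with `α = β = 0`).
`u(p) = ∑' k, (c_k(p 0) cos(2π k·y) + d_k(p 0) sin(2π k·y))`. Bound for `iterPd l` of a term: by induction
on `l`, `iterPd l` of the term is a combination of `c_k^{(j)}(p 0) * (2π k₁)^r (2π k₂)^s * (± cos or sin)`,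
so by `ode_bound` it is `≤ C (1 + |k₁| + |k₂|)^N * (|a⁰_k| + |b⁰_k| + |a¹_k| + |b¹_k|)`, summable over `ℤ × ℤ`.
Termwise `solOp` vanishes. Boundary values: `HasSum.tsum_eq`.
-/

open scoped ContDiff Topology
open Set Filter

namespace Pool.Agent.H13.Steklov

/-! ### One Fourier mode -/

/-- The phase of a mode. -/
noncomputable def solExist_L (k : ℤ × ℤ) : Pt →L[ℝ] ℝ :=
  (2 * Real.pi * (k.1 : ℝ)) • ContinuousLinearMap.proj (R := ℝ) (φ := fun _ : Fin 3 => ℝ) 1 +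
    (2 * Real.pi * (k.2 : ℝ)) • ContinuousLinearMap.proj (R := ℝ) (φ := fun _ : Fin 3 => ℝ) 2

theorem solExist_L_apply (k : ℤ × ℤ) (p : Pt) :
    solExist_L k p = 2 * Real.pi * (k.1 * p 1 + k.2 * p 2) := by
  simp [solExist_L]; ring

/-- The frequencies of a mode. -/
noncomputable def solExist_frq (k : ℤ × ℤ) (i : Fin 3) : ℝ := solExist_L k (Pi.single i 1)

theorem solExist_frq_zero (k : ℤ × ℤ) : solExist_frq k 0 = 0 := by
  rw [solExist_frq, solExist_L_apply]; simp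

theorem solExist_frq_one (k : ℤ × ℤ) : solExist_frq k 1 = 2 * Real.pi * k.1 := by
  rw [solExist_frq, solExist_L_apply]; simp

theorem solExist_frq_two (k : ℤ × ℤ) : solExist_frq k 2 = 2 * Real.pi * k.2 := by
  rw [solExist_frq, solExist_L_apply]; simp

/-- A mode. -/
noncomputable def solExist_T (k : ℤ × ℤ) (cd : (ℝ → ℝ) × (ℝ → ℝ)) (p : Pt) : ℝ :=
  cd.1 (p 0) * Real.cos (solExist_L k p) + cd.2 (p 0) * Real.sin (solExist_L k p)

/-- The effect of a partial derivative on a mode. -/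
noncomputable def solExist_op (k : ℤ × ℤ) (i : Fin 3) (cd : (ℝ → ℝ) × (ℝ → ℝ)) :
    (ℝ → ℝ) × (ℝ → ℝ) :=
  if i = 0 then (deriv cd.1, deriv cd.2)
  else (fun x => solExist_frq k i * cd.2 x, fun x => -solExist_frq k i * cd.1 x)

/-- Iteration. -/
noncomputable def solExist_opl (k : ℤ × ℤ) (cd : (ℝ → ℝ) × (ℝ → ℝ)) :
    List (Fin 3) → (ℝ → ℝ) × (ℝ → ℝ)
  | [] => cd
  | i :: l => solExist_op k i (solExist_opl k cd l)

/-- Smooth pairs. -/
def solExist_sm (cd : (ℝ → ℝ) × (ℝ → ℝ)) : Prop := ContDiff ℝ ∞ cd.1 ∧ ContDiff ℝ ∞ cd.2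

theorem solExist_sm_op (k : ℤ × ℤ) (i : Fin 3) {cd : (ℝ → ℝ) × (ℝ → ℝ)} (h : solExist_sm cd) :
    solExist_sm (solExist_op k i cd) := by
  unfold solExist_op
  split_ifs with hi
  · exact ⟨(contDiff_infty_iff_deriv.1 h.1).2, (contDiff_infty_iff_deriv.1 h.2).2⟩
  · exact ⟨contDiff_const.mul h.2, contDiff_const.mul h.1⟩

theorem solExist_sm_opl (k : ℤ × ℤ) {cd : (ℝ → ℝ) × (ℝ → ℝ)} (h : solExist_sm cd)
    (l : List (Fin 3)) : solExist_sm (solExist_opl k cd l) := by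
  induction l with
  | nil => exact h
  | cons i l ih => exact solExist_sm_op k i ih

theorem solExist_pd_T (k : ℤ × ℤ) (i : Fin 3) {cd : (ℝ → ℝ) × (ℝ → ℝ)} (h : solExist_sm cd)
    {p : Pt} (hp : p ∈ slab) :
    pd i (solExist_T k cd) p = solExist_T k (solExist_op k i cd) p := by
  have h0 : HasFDerivAt (fun q : Pt => q 0)
      (ContinuousLinearMap.proj (R := ℝ) (φ := fun _ : Fin 3 => ℝ) 0) p :=
    (ContinuousLinearMap.proj (R := ℝ) (φ := fun _ : Fin 3 => ℝ) 0).hasFDerivAt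
  have hd1 : DifferentiableAt ℝ cd.1 (p 0) := (h.1.differentiable (by simp)) _
  have hd2 : DifferentiableAt ℝ cd.2 (p 0) := (h.2.differentiable (by simp)) _
  have hc : HasFDerivAt (fun q : Pt => cd.1 (q 0)) _ p := hd1.hasDerivAt.comp_hasFDerivAt p h0
  have hd : HasFDerivAt (fun q : Pt => cd.2 (q 0)) _ p := hd2.hasDerivAt.comp_hasFDerivAt p h0
  have hL : HasFDerivAt (fun q : Pt => solExist_L k q) (solExist_L k) p :=
    (solExist_L k).hasFDerivAt
  have hT : HasFDerivAt (solExist_T k cd) _ p := (hc.mul hL.cos).add (hd.mul hL.sin)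
  rw [hasFDerivAt_pd hp hT i]
  have e0 : solExist_L k (Pi.single i 1) = solExist_frq k i := rfl
  unfold solExist_op solExist_T
  split_ifs with hi
  · subst hi
    simp [e0, solExist_frq_zero]
    ring
  · have e1 : (Pi.single i (1 : ℝ) : Pt) 0 = 0 := by
      rw [Pi.single_apply, if_neg (Ne.symm hi)]
    simp [e0, e1]
    ring

theorem solExist_smoothFn_T (k : ℤ × ℤ) {cd : (ℝ → ℝ) × (ℝ → ℝ)} (h : solExist_sm cd) :
    SmoothFn (solExist_T k cd) := by
  refine ⟨?_, fun p _ => ?_⟩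
  · have h0 : ContDiff ℝ ∞ fun q : Pt => q 0 := contDiff_apply ℝ ℝ (0 : Fin 3)
    have hL : ContDiff ℝ ∞ fun q : Pt => solExist_L k q := (solExist_L k).contDiff
    exact (((h.1.comp h0).mul (Real.contDiff_cos.comp hL)).add
      ((h.2.comp h0).mul (Real.contDiff_sin.comp hL))).contDiffOn
  · have e1 : solExist_L k (p + Pi.single 1 1) = solExist_L k p + (k.1 : ℤ) * (2 * Real.pi) := by
      rw [map_add, show solExist_L k (Pi.single 1 1) = solExist_frq k 1 from rfl,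
        solExist_frq_one]; ring
    have e2 : solExist_L k (p + Pi.single 2 1) = solExist_L k p + (k.2 : ℤ) * (2 * Real.pi) := by
      rw [map_add, show solExist_L k (Pi.single 2 1) = solExist_frq k 2 from rfl,
        solExist_frq_two]; ring
    constructor
    · unfold solExist_T
      rw [e1, Real.cos_add_int_mul_two_pi, Real.sin_add_int_mul_two_pi]
      simp
    · unfold solExist_T
      rw [e2, Real.cos_add_int_mul_two_pi, Real.sin_add_int_mul_two_pi]
      simp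

theorem solExist_iterPd_T (k : ℤ × ℤ) {cd : (ℝ → ℝ) × (ℝ → ℝ)} (h : solExist_sm cd)
    (l : List (Fin 3)) :
    EqOn (iterPd l (solExist_T k cd)) (solExist_T k (solExist_opl k cd l)) slab := by
  induction l with
  | nil => intro p _; rfl
  | cons i l ih =>
    intro p hp
    change pd i (iterPd l (solExist_T k cd)) p = _
    rw [pd_congr ih i hp, solExist_pd_T k i (solExist_sm_opl k h l) hp]
    rfl

theorem solExist_frq_le (k : ℤ × ℤ) (i : Fin 3) :
    |solExist_frq k i| ≤ 2 * Real.pi * (1 + |(k.1 : ℝ)| + |(k.2 : ℝ)|) := by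
  have hpi := Real.pi_pos
  have h1 := abs_nonneg (k.1 : ℝ)
  have h2 := abs_nonneg (k.2 : ℝ)
  have h3 : i = 0 ∨ i = 1 ∨ i = 2 := by fin_cases i <;> simp
  rcases h3 with rfl | rfl | rfl
  · rw [solExist_frq_zero, abs_zero]; positivity
  · rw [solExist_frq_one, abs_mul, abs_of_pos (by positivity : (0 : ℝ) < 2 * Real.pi)]
    apply mul_le_mul_of_nonneg_left _ (by positivity)
    linarith
  · rw [solExist_frq_two, abs_mul, abs_of_pos (by positivity : (0 : ℝ) < 2 * Real.pi)]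
    apply mul_le_mul_of_nonneg_left _ (by positivity)
    linarith

theorem solExist_opl_bound (k : ℤ × ℤ) (W : ℝ) (hW : 1 ≤ W) (hf : ∀ i, |solExist_frq k i| ≤ W)
    {cd : (ℝ → ℝ) × (ℝ → ℝ)} (h : solExist_sm cd) (B : ℕ → ℝ) (hmono : Monotone B)
    (hB0 : ∀ j, 0 ≤ B j)
    (hB : ∀ j, ∀ x ∈ Icc (0 : ℝ) 1, |iteratedDeriv j cd.1 x| ≤ B j ∧ |iteratedDeriv j cd.2 x| ≤ B j)
    (l : List (Fin 3)) :
    ∀ j, ∀ x ∈ Icc (0 : ℝ) 1,
      |iteratedDeriv j (solExist_opl k cd l).1 x| ≤ W ^ l.length * B (j + l.length) ∧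
        |iteratedDeriv j (solExist_opl k cd l).2 x| ≤ W ^ l.length * B (j + l.length) := by
  induction l with
  | nil => intro j x hx; simpa [solExist_opl] using hB j x hx
  | cons i l ih =>
    intro j x hx
    have hW0 : (0 : ℝ) ≤ W := by linarith
    have hWl : (0 : ℝ) ≤ W ^ l.length := pow_nonneg hW0 _
    have e : j + (i :: l).length = (j + 1) + l.length := by simp; omega
    rw [e]
    have e2 : W ^ (i :: l).length = W * W ^ l.length := by simp [pow_succ]; ring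
    rw [e2]
    change |iteratedDeriv j (solExist_op k i (solExist_opl k cd l)).1 x| ≤ _ ∧
      |iteratedDeriv j (solExist_op k i (solExist_opl k cd l)).2 x| ≤ _
    unfold solExist_op
    split_ifs with hi
    · have h1 := ih (j + 1) x hx
      rw [iteratedDeriv_succ', iteratedDeriv_succ'] at h1
      have h2 : W ^ l.length * B (j + 1 + l.length) ≤ W * W ^ l.length * B (j + 1 + l.length) := by
        rw [mul_assoc]
        exact le_mul_of_one_le_left (mul_nonneg hWl (hB0 _)) hW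
      exact ⟨h1.1.trans h2, h1.2.trans h2⟩
    · have h1 := ih j x hx
      have hs := solExist_sm_opl k h l
      have h2 : B (j + l.length) ≤ B (j + 1 + l.length) := hmono (by omega)
      have h3 : W ^ l.length * B (j + l.length) ≤ W ^ l.length * B (j + 1 + l.length) :=
        mul_le_mul_of_nonneg_left h2 hWl
      have g1 : iteratedDeriv j (fun x => solExist_frq k i * (solExist_opl k cd l).2 x) x =
          solExist_frq k i * iteratedDeriv j (solExist_opl k cd l).2 x := by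
        rw [iteratedDeriv_const_mul_field]
      have g2 : iteratedDeriv j (fun x => -solExist_frq k i * (solExist_opl k cd l).1 x) x =
          -solExist_frq k i * iteratedDeriv j (solExist_opl k cd l).1 x := by
        rw [iteratedDeriv_const_mul_field]
      refine ⟨?_, ?_⟩
      · change |iteratedDeriv j (fun x => solExist_frq k i * (solExist_opl k cd l).2 x) x| ≤ _
        rw [g1, abs_mul, mul_assoc]
        exact mul_le_mul (hf i) (h1.2.trans h3) (abs_nonneg _) hW0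
      · change |iteratedDeriv j (fun x => -solExist_frq k i * (solExist_opl k cd l).1 x) x| ≤ _
        rw [g2, abs_mul, abs_neg, mul_assoc]
        exact mul_le_mul (hf i) (h1.1.trans h3) (abs_nonneg _) hW0

/-! ### Sizes -/

/-- The size of a mode. -/
noncomputable def solExist_s (k : ℤ × ℤ) : ℝ := 1 + |(k.1 : ℝ)| + |(k.2 : ℝ)|

theorem solExist_one_le_s (k : ℤ × ℤ) : 1 ≤ solExist_s k := by
  have h1 := abs_nonneg (k.1 : ℝ)
  have h2 := abs_nonneg (k.2 : ℝ)
  unfold solExist_s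
  linarith

theorem solExist_s_pos (k : ℤ × ℤ) : 0 < solExist_s k := by
  linarith [solExist_one_le_s k]

theorem solExist_summable_int : Summable fun n : ℤ => 1 / (1 + |(n : ℝ)|) ^ 2 := by
  have h := (Real.summable_one_div_int_add_rpow (1 / 2) 2).2 (by norm_num)
  refine Summable.of_nonneg_of_le (fun n => by positivity) (fun n => ?_) h
  have h0 : (n : ℝ) + 1 / 2 ≠ 0 := by
    intro h
    have h1 : (2 * n + 1 : ℤ) = 0 := by
      have : (2 * (n : ℝ) + 1) = 0 := by linarith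
      exact_mod_cast this
    omega
  have h1 : 0 < |(n : ℝ) + 1 / 2| := abs_pos.2 h0
  have h2 : |(n : ℝ) + 1 / 2| ≤ 1 + |(n : ℝ)| := by
    have := abs_add_le (n : ℝ) (1 / 2)
    have h3 : |(1 / 2 : ℝ)| = 1 / 2 := abs_of_pos (by norm_num)
    linarith
  have h3 : |(n : ℝ) + 1 / 2| ^ (2 : ℝ) = |(n : ℝ) + 1 / 2| ^ 2 := by
    exact_mod_cast Real.rpow_natCast _ 2
  rw [h3]
  exact one_div_le_one_div_of_le (by positivity) (pow_le_pow_left₀ h1.le h2 2)

theorem solExist_summable_s : Summable fun k : ℤ × ℤ => 1 / solExist_s k ^ 4 := by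
  have h := solExist_summable_int.mul_of_nonneg solExist_summable_int
    (fun n => by positivity) (fun n => by positivity)
  refine Summable.of_nonneg_of_le
    (fun k => one_div_nonneg.2 (pow_nonneg (solExist_s_pos k).le _)) (fun k => ?_) h
  have h1 := abs_nonneg (k.1 : ℝ)
  have h2 := abs_nonneg (k.2 : ℝ)
  rw [one_div_mul_one_div]
  apply one_div_le_one_div_of_le (by positivity)
  have e1 : 1 + |(k.1 : ℝ)| ≤ solExist_s k := by unfold solExist_s; linarith
  have e2 : 1 + |(k.2 : ℝ)| ≤ solExist_s k := by unfold solExist_s; linarith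
  calc (1 + |(k.1 : ℝ)|) ^ 2 * (1 + |(k.2 : ℝ)|) ^ 2
      ≤ solExist_s k ^ 2 * solExist_s k ^ 2 := by
        apply mul_le_mul (pow_le_pow_left₀ (by positivity) e1 2)
          (pow_le_pow_left₀ (by positivity) e2 2) (by positivity)
          (pow_nonneg (solExist_s_pos k).le _)
    _ = solExist_s k ^ 4 := by ring

theorem solExist_summable {A : ℤ × ℤ → ℝ} (hA0 : ∀ k, 0 ≤ A k)
    (hA : ∀ m : ℕ, ∃ C : ℝ, ∀ k, A k ≤ C / solExist_s k ^ m) (C : ℝ) (hC : 0 ≤ C) (M : ℕ) :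
    Summable fun k => C * solExist_s k ^ M * A k := by
  obtain ⟨C', hC'⟩ := hA (M + 4)
  refine Summable.of_nonneg_of_le
    (fun k => mul_nonneg (mul_nonneg hC (pow_nonneg (solExist_s_pos k).le _)) (hA0 k))
    (fun k => ?_) (solExist_summable_s.mul_left (C * C'))
  have hs := solExist_s_pos k
  calc C * solExist_s k ^ M * A k ≤ C * solExist_s k ^ M * (C' / solExist_s k ^ (M + 4)) :=
        mul_le_mul_of_nonneg_left (hC' k) (mul_nonneg hC (pow_nonneg hs.le _))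
    _ = C * C' * (1 / solExist_s k ^ 4) := by
        rw [pow_add]
        field_simp

/-- The coefficients of the potential. -/
noncomputable def solExist_co (ℓ : ℝ) (k : ℤ × ℤ) (i : Fin 3) : ℝ :=
  solExist_frq k i ^ 2 / ℓ ^ 2

theorem solExist_co_nonneg (ℓ : ℝ) (k : ℤ × ℤ) (i : Fin 3) : 0 ≤ solExist_co ℓ k i := by
  unfold solExist_co; positivity

theorem solExist_co_le (ℓ : ℝ) (k : ℤ × ℤ) (i : Fin 3) :
    solExist_co ℓ k i ≤ 4 * Real.pi ^ 2 / ℓ ^ 2 * solExist_s k ^ 2 := by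
  have h1 := solExist_frq_le k i
  have h2 : solExist_frq k i ^ 2 ≤ (2 * Real.pi * solExist_s k) ^ 2 := by
    rw [← sq_abs]
    exact pow_le_pow_left₀ (abs_nonneg _) h1 2
  have h3 : solExist_co ℓ k i ≤ (2 * Real.pi * solExist_s k) ^ 2 / ℓ ^ 2 :=
    div_le_div_of_nonneg_right h2 (by positivity)
  refine h3.trans (le_of_eq ?_)
  ring

theorem solExist_term_bound (κ γ ℓ : ℝ) (l : List (Fin 3)) :
    ∃ (C : ℝ) (M : ℕ), 0 ≤ C ∧ ∀ (k : ℤ × ℤ) (cd : (ℝ → ℝ) × (ℝ → ℝ)) (A : ℝ),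
      solExist_sm cd →
      (∀ x, deriv (deriv cd.1) x = pot κ γ (solExist_co ℓ k 1) (solExist_co ℓ k 2) x * cd.1 x) →
      (∀ x, deriv (deriv cd.2) x = pot κ γ (solExist_co ℓ k 1) (solExist_co ℓ k 2) x * cd.2 x) →
      (∀ x ∈ Icc (0 : ℝ) 1, |cd.1 x| ≤ A ∧ |deriv cd.1 x| ≤ A) →
      (∀ x ∈ Icc (0 : ℝ) 1, |cd.2 x| ≤ A ∧ |deriv cd.2 x| ≤ A) →
      ∀ p ∈ slab, |iterPd l (solExist_T k cd) p| ≤ C * solExist_s k ^ M * A := by
  choose C N hC hb using ode_bound κ γ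
  set n := l.length with hn
  set Cs : ℕ → ℝ := fun n => ∑ i ∈ Finset.range (n + 1), C i with hCs
  set Ns : ℕ → ℕ := fun n => ∑ i ∈ Finset.range (n + 1), N i with hNs
  set D : ℝ := 1 + 8 * Real.pi ^ 2 / ℓ ^ 2 with hD
  have hD0 : 0 ≤ D := by rw [hD]; positivity
  have hCs0 : ∀ n, 0 ≤ Cs n := fun n => Finset.sum_nonneg fun i _ => hC i
  have hCsm : Monotone Cs := by
    intro a b hab
    exact Finset.sum_le_sum_of_subset_of_nonneg (Finset.range_mono (by omega)) fun i _ _ => hC i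
  have hNsm : Monotone Ns := by
    intro a b hab
    exact Finset.sum_le_sum_of_subset (Finset.range_mono (by omega))
  have hCle : ∀ n, C n ≤ Cs n := fun n =>
    Finset.single_le_sum (f := C) (fun i _ => hC i) (Finset.mem_range.2 (Nat.lt_succ_self n))
  have hNle : ∀ n, N n ≤ Ns n := fun n =>
    Finset.single_le_sum (f := N) (fun i _ => Nat.zero_le _)
      (Finset.mem_range.2 (Nat.lt_succ_self n))
  refine ⟨2 * (2 * Real.pi) ^ n * (Cs n * D ^ Ns n), n + 2 * Ns n, ?_, ?_⟩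
  · have := hCs0 n
    positivity
  intro k cd A hsm ho1 ho2 hA1 hA2 p hp
  have hA : 0 ≤ A := (abs_nonneg _).trans (hA1 0 (by simp)).1
  have hs1 := solExist_one_le_s k
  have hs := solExist_s_pos k
  set E : ℝ := 1 + solExist_co ℓ k 1 + solExist_co ℓ k 2 with hE
  have hE1 : 1 ≤ E := by
    have := solExist_co_nonneg ℓ k 1
    have := solExist_co_nonneg ℓ k 2
    rw [hE]; linarith
  have hED : E ≤ D * solExist_s k ^ 2 := by
    have h1 := solExist_co_le ℓ k 1
    have h2 := solExist_co_le ℓ k 2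
    have h3 : (1 : ℝ) ≤ solExist_s k ^ 2 := one_le_pow₀ hs1
    have h4 : D * solExist_s k ^ 2 = solExist_s k ^ 2 + 4 * Real.pi ^ 2 / ℓ ^ 2 * solExist_s k ^ 2 +
      4 * Real.pi ^ 2 / ℓ ^ 2 * solExist_s k ^ 2 := by rw [hD]; ring
    rw [hE, h4]
    linarith
  have hpi := Real.pi_gt_three
  have hW1 : 1 ≤ 2 * Real.pi * solExist_s k := by nlinarith
  have key := solExist_opl_bound k (2 * Real.pi * solExist_s k) hW1
    (fun i => solExist_frq_le k i) hsm (fun j => Cs j * E ^ Ns j * A) ?_ ?_ ?_ l 0 (p 0) hp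
  · rw [solExist_iterPd_T k hsm l hp]
    have k1 := key.1
    have k2 := key.2
    rw [iteratedDeriv_zero, Nat.zero_add] at k1 k2
    rw [← hn] at k1 k2
    have hcos := Real.abs_cos_le_one (solExist_L k p)
    have hsi := Real.abs_sin_le_one (solExist_L k p)
    unfold solExist_T
    have b1 : |(solExist_opl k cd l).1 (p 0) * Real.cos (solExist_L k p)| ≤
        (2 * Real.pi * solExist_s k) ^ n * (Cs n * E ^ Ns n * A) := by
      rw [abs_mul]
      calc _ ≤ |(solExist_opl k cd l).1 (p 0)| * 1 :=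
            mul_le_mul_of_nonneg_left hcos (abs_nonneg _)
        _ ≤ _ := by rw [mul_one]; exact k1
    have b2 : |(solExist_opl k cd l).2 (p 0) * Real.sin (solExist_L k p)| ≤
        (2 * Real.pi * solExist_s k) ^ n * (Cs n * E ^ Ns n * A) := by
      rw [abs_mul]
      calc _ ≤ |(solExist_opl k cd l).2 (p 0)| * 1 :=
            mul_le_mul_of_nonneg_left hsi (abs_nonneg _)
        _ ≤ _ := by rw [mul_one]; exact k2
    have b3 := (abs_add_le ((solExist_opl k cd l).1 (p 0) * Real.cos (solExist_L k p))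
      ((solExist_opl k cd l).2 (p 0) * Real.sin (solExist_L k p))).trans (add_le_add b1 b2)
    refine b3.trans ?_
    have hE2 : E ^ Ns n ≤ (D * solExist_s k ^ 2) ^ Ns n :=
      pow_le_pow_left₀ (by linarith) hED _
    calc (2 * Real.pi * solExist_s k) ^ n * (Cs n * E ^ Ns n * A) +
          (2 * Real.pi * solExist_s k) ^ n * (Cs n * E ^ Ns n * A)
        = (2 * (2 * Real.pi * solExist_s k) ^ n * Cs n * A) * E ^ Ns n := by ring
      _ ≤ (2 * (2 * Real.pi * solExist_s k) ^ n * Cs n * A) * (D * solExist_s k ^ 2) ^ Ns n := by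
          apply mul_le_mul_of_nonneg_left hE2
          have := hCs0 n
          positivity
      _ = _ := by
          rw [mul_pow, mul_pow _ (solExist_s k ^ 2), ← pow_mul, pow_add]
          ring
  · intro a b hab
    have h1 := hCsm hab
    have h2 : E ^ Ns a ≤ E ^ Ns b := pow_le_pow_right₀ hE1 (hNsm hab)
    have h3 : Cs a * E ^ Ns a ≤ Cs b * E ^ Ns b :=
      mul_le_mul h1 h2 (pow_nonneg (by linarith) _) (hCs0 b)
    exact mul_le_mul_of_nonneg_right h3 hA
  · intro j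
    have := hCs0 j
    have : 0 ≤ E := by linarith
    positivity
  · intro j x hx
    have hle : C j * E ^ N j * A ≤ Cs j * E ^ Ns j * A := by
      apply mul_le_mul_of_nonneg_right _ hA
      exact mul_le_mul (hCle j) (pow_le_pow_right₀ hE1 (hNle j)) (pow_nonneg (by linarith) _)
        (hCs0 j)
    exact ⟨(hb j _ _ (solExist_co_nonneg ℓ k 1) (solExist_co_nonneg ℓ k 2) cd.1 hsm.1 ho1 A hA1
        x hx).trans hle,
      (hb j _ _ (solExist_co_nonneg ℓ k 1) (solExist_co_nonneg ℓ k 2) cd.2 hsm.2 ho2 A hA2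
        x hx).trans hle⟩

/-! ### The coefficient functions -/

theorem solExist_contDiff_pot (κ γ α β : ℝ) : ContDiff ℝ ∞ (pot κ γ α β) := by
  unfold pot
  have h1 : ContDiff ℝ ∞ fun x : ℝ => Real.exp (-(2 * κ * x)) :=
    Real.contDiff_exp.comp (contDiff_const.mul contDiff_id).neg
  have h2 : ContDiff ℝ ∞ fun x : ℝ => Real.exp (2 * κ * x) :=
    Real.contDiff_exp.comp (contDiff_const.mul contDiff_id)
  exact ((contDiff_const.mul h1).add (contDiff_const.mul h2)).sub contDiff_const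

/-- The bound for the potential. -/
noncomputable def solExist_K (κ ℓ : ℝ) (k : ℤ × ℤ) : ℝ :=
  solExist_co ℓ k 1 + solExist_co ℓ k 2 * Real.exp (2 * κ)

theorem solExist_K_nonneg (κ ℓ : ℝ) (k : ℤ × ℤ) : 0 ≤ solExist_K κ ℓ k := by
  have h1 := solExist_co_nonneg ℓ k 1
  have h2 := solExist_co_nonneg ℓ k 2
  unfold solExist_K
  positivity

theorem solExist_mode_ne {κ ℓ : ℝ} (hκ : 0 < κ) (hℓ : 0 < ℓ)
    (hsmall : ℓ ^ 2 * κ ^ 2 * Real.exp (2 * κ) ≤ 16 * Real.pi ^ 2) {k : ℤ × ℤ} (hk : k ≠ 0)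
    (a b : ℝ) :
    ∃ c : ℝ → ℝ, ContDiff ℝ ∞ c ∧ c 0 = a ∧ c 1 = b ∧
      (∀ x, deriv (deriv c) x =
        pot κ (κ ^ 2 / 4) (solExist_co ℓ k 1) (solExist_co ℓ k 2) x * c x) ∧
      ∀ x ∈ Icc (0 : ℝ) 1, |c x| ≤ (1 + solExist_K κ ℓ k) * (|a| + |b|) ∧
        |deriv c x| ≤ (1 + solExist_K κ ℓ k) * (|a| + |b|) := by
  have hα := solExist_co_nonneg ℓ k 1
  have hβ := solExist_co_nonneg ℓ k 2
  have hpi := Real.pi_pos
  have hab : 4 * Real.pi ^ 2 / ℓ ^ 2 ≤ solExist_co ℓ k 1 + solExist_co ℓ k 2 := by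
    have h1 : (1 : ℝ) ≤ (k.1 : ℝ) ^ 2 + (k.2 : ℝ) ^ 2 := by
      have h2 : (1 : ℤ) ≤ k.1 ^ 2 + k.2 ^ 2 := by
        by_contra hcon
        push Not at hcon
        have h3 : k.1 ^ 2 = 0 := by nlinarith [sq_nonneg k.1, sq_nonneg k.2]
        have h4 : k.2 ^ 2 = 0 := by nlinarith [sq_nonneg k.1, sq_nonneg k.2]
        exact hk (Prod.ext (pow_eq_zero_iff (by norm_num) |>.1 h3)
          (pow_eq_zero_iff (by norm_num) |>.1 h4))
      exact_mod_cast h2
    have e : solExist_co ℓ k 1 + solExist_co ℓ k 2 =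
        4 * Real.pi ^ 2 / ℓ ^ 2 * ((k.1 : ℝ) ^ 2 + (k.2 : ℝ) ^ 2) := by
      unfold solExist_co
      rw [solExist_frq_one, solExist_frq_two]
      ring
    rw [e]
    exact le_mul_of_one_le_right (by positivity) h1
  have hγ : κ ^ 2 / 4 ≤ 4 * Real.pi ^ 2 / ℓ ^ 2 * Real.exp (-(2 * κ)) := by
    rw [Real.exp_neg, ← div_eq_mul_inv, div_div, le_div_iff₀ (by positivity)]
    nlinarith
  have hx1 : ∀ x ∈ Icc (0 : ℝ) 1, Real.exp (-(2 * κ)) ≤ Real.exp (-(2 * κ * x)) := by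
    intro x hx
    apply Real.exp_le_exp.2
    nlinarith [hx.1, hx.2]
  have hx2 : ∀ x ∈ Icc (0 : ℝ) 1, Real.exp (-(2 * κ)) ≤ Real.exp (2 * κ * x) := by
    intro x hx
    apply Real.exp_le_exp.2
    nlinarith [hx.1, hx.2, mul_nonneg hκ.le hx.1]
  have hx3 : ∀ x ∈ Icc (0 : ℝ) 1, Real.exp (-(2 * κ * x)) ≤ 1 := by
    intro x hx
    apply Real.exp_le_one_iff.2
    nlinarith [hx.1, hx.2, mul_nonneg hκ.le hx.1]
  have hx4 : ∀ x ∈ Icc (0 : ℝ) 1, Real.exp (2 * κ * x) ≤ Real.exp (2 * κ) := by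
    intro x hx
    apply Real.exp_le_exp.2
    nlinarith [hx.1, hx.2]
  have hQ0 : ∀ x ∈ Icc (0 : ℝ) 1,
      0 ≤ pot κ (κ ^ 2 / 4) (solExist_co ℓ k 1) (solExist_co ℓ k 2) x := by
    intro x hx
    unfold pot
    have e1 := mul_le_mul_of_nonneg_left (hx1 x hx) hα
    have e2 := mul_le_mul_of_nonneg_left (hx2 x hx) hβ
    have e3 := mul_le_mul_of_nonneg_right hab (Real.exp_pos (-(2 * κ))).le
    nlinarith
  have hQK : ∀ x ∈ Icc (0 : ℝ) 1,
      pot κ (κ ^ 2 / 4) (solExist_co ℓ k 1) (solExist_co ℓ k 2) x ≤ solExist_K κ ℓ k := by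
    intro x hx
    unfold pot solExist_K
    have e1 := mul_le_mul_of_nonneg_left (hx3 x hx) hα
    have e2 := mul_le_mul_of_nonneg_left (hx4 x hx) hβ
    have e3 : 0 ≤ κ ^ 2 / 4 := by positivity
    linarith
  obtain ⟨c, hc, h0, h1, hode, hb⟩ := bvp (pot κ (κ ^ 2 / 4) (solExist_co ℓ k 1)
    (solExist_co ℓ k 2)) (solExist_contDiff_pot _ _ _ _) (solExist_K κ ℓ k) hQ0 hQK a b
  refine ⟨c, hc, h0, h1, hode, fun x hx => ⟨?_, (hb x hx).2⟩⟩
  refine (hb x hx).1.trans ?_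
  have := solExist_K_nonneg κ ℓ k
  exact le_mul_of_one_le_left (by positivity) (by linarith)

theorem solExist_mode_zero {κ ℓ : ℝ} (hsin : Real.sin (κ / 2) ≠ 0) (a b : ℝ) :
    ∃ (c : ℝ → ℝ) (A : ℝ), 0 ≤ A ∧ ContDiff ℝ ∞ c ∧ c 0 = a ∧ c 1 = b ∧
      (∀ x, deriv (deriv c) x =
        pot κ (κ ^ 2 / 4) (solExist_co ℓ 0 1) (solExist_co ℓ 0 2) x * c x) ∧
      ∀ x ∈ Icc (0 : ℝ) 1, |c x| ≤ A ∧ |deriv c x| ≤ A := by
  obtain ⟨c, hc, h0, h1, hode⟩ := bvp_osc (κ / 2) hsin a b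
  have hc0 : ContinuousOn c (Icc 0 1) := hc.continuous.continuousOn
  have hc1 : ContinuousOn (deriv c) (Icc 0 1) :=
    (contDiff_infty_iff_deriv.1 hc).2.continuous.continuousOn
  obtain ⟨A1, hA1⟩ := isCompact_Icc.exists_bound_of_continuousOn hc0
  obtain ⟨A2, hA2⟩ := isCompact_Icc.exists_bound_of_continuousOn hc1
  refine ⟨c, max 0 (max A1 A2), le_max_left _ _, hc, h0, h1, ?_, ?_⟩
  · intro x
    rw [hode x]
    have e1 : solExist_co ℓ 0 1 = 0 := by
      unfold solExist_co; rw [solExist_frq_one]; simp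
    have e2 : solExist_co ℓ 0 2 = 0 := by
      unfold solExist_co; rw [solExist_frq_two]; simp
    rw [e1, e2]
    unfold pot
    ring
  · intro x hx
    have g1 := hA1 x hx
    have g2 := hA2 x hx
    rw [Real.norm_eq_abs] at g1 g2
    exact ⟨g1.trans ((le_max_left _ _).trans (le_max_right _ _)),
      g2.trans ((le_max_right _ _).trans (le_max_right _ _))⟩

/-- All modes of one type. -/
theorem solExist_modes {κ ℓ : ℝ} (hκ : 0 < κ) (hℓ : 0 < ℓ) (hsin : Real.sin (κ / 2) ≠ 0)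
    (hsmall : ℓ ^ 2 * κ ^ 2 * Real.exp (2 * κ) ≤ 16 * Real.pi ^ 2) (a b : ℤ × ℤ → ℝ) :
    ∃ (c : ℤ × ℤ → ℝ → ℝ) (A0 : ℝ), 0 ≤ A0 ∧ ∀ k, ContDiff ℝ ∞ (c k) ∧ c k 0 = a k ∧
      c k 1 = b k ∧
      (∀ x, deriv (deriv (c k)) x =
        pot κ (κ ^ 2 / 4) (solExist_co ℓ k 1) (solExist_co ℓ k 2) x * c k x) ∧
      ∀ x ∈ Icc (0 : ℝ) 1,
        |c k x| ≤ (1 + solExist_K κ ℓ k) * (|a k| + |b k|) + (if k = 0 then A0 else 0) ∧
        |deriv (c k) x| ≤ (1 + solExist_K κ ℓ k) * (|a k| + |b k|) +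
          (if k = 0 then A0 else 0) := by
  obtain ⟨c0, A0, hA0, hc0, h00, h01, hode0, hb0⟩ :=
    solExist_mode_zero (κ := κ) (ℓ := ℓ) hsin (a 0) (b 0)
  choose c1 hc1 h10 h11 hode1 hb1 using fun (k : {k : ℤ × ℤ // k ≠ 0}) =>
    solExist_mode_ne hκ hℓ hsmall k.2 (a k.1) (b k.1)
  refine ⟨fun k => if h : k = 0 then c0 else c1 ⟨k, h⟩, A0, hA0, fun k => ?_⟩
  by_cases hk : k = 0
  · subst hk
    simp only [dif_pos, if_pos]
    refine ⟨hc0, h00, h01, hode0, fun x hx => ?_⟩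
    have h1 := solExist_K_nonneg κ ℓ 0
    have h2 : 0 ≤ (1 + solExist_K κ ℓ 0) * (|a 0| + |b 0|) := by positivity
    have h3 := hb0 x hx
    exact ⟨by linarith [h3.1], by linarith [h3.2]⟩
  · simp only [dif_neg hk, if_neg hk, add_zero]
    exact ⟨hc1 ⟨k, hk⟩, h10 ⟨k, hk⟩, h11 ⟨k, hk⟩, hode1 ⟨k, hk⟩, hb1 ⟨k, hk⟩⟩

theorem solExist_solOp (κ ℓ : ℝ) (hℓ : 0 < ℓ) (k : ℤ × ℤ) {cd : (ℝ → ℝ) × (ℝ → ℝ)}
    (hsm : solExist_sm cd)
    (h1 : ∀ x, deriv (deriv cd.1) x =
      pot κ (κ ^ 2 / 4) (solExist_co ℓ k 1) (solExist_co ℓ k 2) x * cd.1 x)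
    (h2 : ∀ x, deriv (deriv cd.2) x =
      pot κ (κ ^ 2 / 4) (solExist_co ℓ k 1) (solExist_co ℓ k 2) x * cd.2 x)
    {p : Pt} (hp : p ∈ slab) : solOp κ ℓ (solExist_T k cd) p = 0 := by
  have e : ∀ i, pd i (pd i (solExist_T k cd)) p =
      solExist_T k (solExist_op k i (solExist_op k i cd)) p := by
    intro i
    have := solExist_iterPd_T k hsm [i, i] hp
    exact this
  unfold solOp
  rw [e 0, e 1, e 2]
  have n1 : (1 : Fin 3) ≠ 0 := by decide
  have n2 : (2 : Fin 3) ≠ 0 := by decide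
  simp only [solExist_op, if_neg n1, if_neg n2, solExist_T, if_true]
  rw [h1, h2]
  unfold pot solExist_co
  field_simp
  ring

/-- The boundary functions. -/
theorem solExist_bdry {f : Pt → ℝ} (hf : SmoothFn f) {t : ℝ} (ht : t ∈ Icc (0 : ℝ) 1) :
    ∃ a b : ℤ × ℤ → ℝ, (∀ m : ℕ, ∃ C : ℝ, ∀ k : ℤ × ℤ, |a k| + |b k| ≤ C / solExist_s k ^ m) ∧
      ∀ p : Pt, p 0 = t → HasSum (fun k : ℤ × ℤ =>
        a k * Real.cos (solExist_L k p) + b k * Real.sin (solExist_L k p)) (f p) := by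
  have hs : ContDiff ℝ ∞ fun y : ℝ × ℝ => f ![t, y.1, y.2] := by
    refine hf.1.comp_contDiff (f := fun y : ℝ × ℝ => ![t, y.1, y.2]) ?_ fun y => ?_
    · rw [contDiff_pi]
      intro i
      have h3 : i = 0 ∨ i = 1 ∨ i = 2 := by fin_cases i <;> simp
      rcases h3 with rfl | rfl | rfl
      · exact contDiff_const
      · exact contDiff_fst
      · exact contDiff_snd
    · exact ht
  have h1 : ∀ y : ℝ × ℝ, f ![t, y.1 + 1, y.2] = f ![t, y.1, y.2] := by
    intro y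
    have e : ![t, y.1 + 1, y.2] = ![t, y.1, y.2] + (Pi.single 1 1 : Pt) := by
      ext i; fin_cases i <;> simp
    rw [e]
    exact (hf.2 ![t, y.1, y.2] ht).1
  have h2 : ∀ y : ℝ × ℝ, f ![t, y.1, y.2 + 1] = f ![t, y.1, y.2] := by
    intro y
    have e : ![t, y.1, y.2 + 1] = ![t, y.1, y.2] + (Pi.single 2 1 : Pt) := by
      ext i; fin_cases i <;> simp
    rw [e]
    exact (hf.2 ![t, y.1, y.2] ht).2
  obtain ⟨a, b, hab, hsum⟩ := fourier_decay (fun y => f ![t, y.1, y.2]) hs h1 h2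
  refine ⟨a, b, hab, fun p hp => ?_⟩
  have e : p = ![t, p 1, p 2] := by
    ext i; fin_cases i
    · exact hp
    · rfl
    · rfl
  have h := hsum (p 1, p 2)
  simp only [← e] at h
  simpa only [solExist_L_apply] using h

theorem sol_exist (κ ℓ : ℝ) (hκ : 0 < κ) (hℓ : 0 < ℓ) (hsin : Real.sin (κ / 2) ≠ 0)
    (hsmall : ℓ ^ 2 * κ ^ 2 * Real.exp (2 * κ) ≤ 16 * Real.pi ^ 2) {f : Pt → ℝ} (hf : SmoothFn f) :
    ∃ u : Pt → ℝ, SmoothFn u ∧ (∀ p ∈ slab, solOp κ ℓ u p = 0) ∧ ∀ p ∈ bdry, u p = f p := by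
  obtain ⟨a0, b0, hd0, hs0⟩ := solExist_bdry hf (t := 0) (by simp)
  obtain ⟨a1, b1, hd1, hs1⟩ := solExist_bdry hf (t := 1) (by simp)
  obtain ⟨c, A1, hA1, hc⟩ := solExist_modes hκ hℓ hsin hsmall a0 a1
  obtain ⟨d, A2, hA2, hd⟩ := solExist_modes hκ hℓ hsin hsmall b0 b1
  set cd : ℤ × ℤ → (ℝ → ℝ) × (ℝ → ℝ) := fun k => (c k, d k) with hcd
  set A : ℤ × ℤ → ℝ := fun k => (1 + solExist_K κ ℓ k) * (|a0 k| + |b0 k| + (|a1 k| + |b1 k|)) +
    (if k = 0 then A1 + A2 else 0) with hA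
  have hK := solExist_K_nonneg κ ℓ
  have hite : ∀ k : ℤ × ℤ, (0 : ℝ) ≤ if k = 0 then A1 + A2 else 0 := by
    intro k; split_ifs <;> linarith
  have hA0 : ∀ k, 0 ≤ A k := by
    intro k
    have h1 := hK k
    have h2 := hite k
    have h3 : 0 ≤ (1 + solExist_K κ ℓ k) * (|a0 k| + |b0 k| + (|a1 k| + |b1 k|)) := by positivity
    simp only [hA]
    linarith
  have hsm : ∀ k, solExist_sm (cd k) := fun k => ⟨(hc k).1, (hd k).1⟩
  have hcA : ∀ k, ∀ x ∈ Icc (0 : ℝ) 1, |c k x| ≤ A k ∧ |deriv (c k) x| ≤ A k := by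
    intro k x hx
    have h1 := (hc k).2.2.2.2 x hx
    have h2 : (1 + solExist_K κ ℓ k) * (|a0 k| + |a1 k|) + (if k = 0 then A1 else 0) ≤ A k := by
      have h3 : (1 + solExist_K κ ℓ k) * (|a0 k| + |a1 k|) ≤
          (1 + solExist_K κ ℓ k) * (|a0 k| + |b0 k| + (|a1 k| + |b1 k|)) := by
        apply mul_le_mul_of_nonneg_left _ (by linarith [hK k])
        linarith [abs_nonneg (b0 k), abs_nonneg (b1 k)]
      have h4 : (if k = 0 then A1 else 0) ≤ if k = 0 then A1 + A2 else 0 := by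
        split_ifs <;> linarith
      simp only [hA]
      linarith
    exact ⟨h1.1.trans h2, h1.2.trans h2⟩
  have hdA : ∀ k, ∀ x ∈ Icc (0 : ℝ) 1, |d k x| ≤ A k ∧ |deriv (d k) x| ≤ A k := by
    intro k x hx
    have h1 := (hd k).2.2.2.2 x hx
    have h2 : (1 + solExist_K κ ℓ k) * (|b0 k| + |b1 k|) + (if k = 0 then A2 else 0) ≤ A k := by
      have h3 : (1 + solExist_K κ ℓ k) * (|b0 k| + |b1 k|) ≤
          (1 + solExist_K κ ℓ k) * (|a0 k| + |b0 k| + (|a1 k| + |b1 k|)) := by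
        apply mul_le_mul_of_nonneg_left _ (by linarith [hK k])
        linarith [abs_nonneg (a0 k), abs_nonneg (a1 k)]
      have h4 : (if k = 0 then A2 else 0) ≤ if k = 0 then A1 + A2 else 0 := by
        split_ifs <;> linarith
      simp only [hA]
      linarith
    exact ⟨h1.1.trans h2, h1.2.trans h2⟩
  have hAdec : ∀ m : ℕ, ∃ C : ℝ, ∀ k, A k ≤ C / solExist_s k ^ m := by
    intro m
    obtain ⟨C0, hC0⟩ := hd0 (m + 2)
    obtain ⟨C1, hC1⟩ := hd1 (m + 2)
    set D : ℝ := 1 + 4 * Real.pi ^ 2 / ℓ ^ 2 + 4 * Real.pi ^ 2 / ℓ ^ 2 * Real.exp (2 * κ) with hD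
    have hD0 : 0 ≤ D := by rw [hD]; positivity
    refine ⟨D * (C0 + C1) + (A1 + A2), fun k => ?_⟩
    have hs := solExist_s_pos k
    have h1s := solExist_one_le_s k
    have e1 : 1 + solExist_K κ ℓ k ≤ D * solExist_s k ^ 2 := by
      have g1 := solExist_co_le ℓ k 1
      have g2 := mul_le_mul_of_nonneg_right (solExist_co_le ℓ k 2) (Real.exp_pos (2 * κ)).le
      have g3 : (1 : ℝ) ≤ solExist_s k ^ 2 := one_le_pow₀ h1s
      have g4 : D * solExist_s k ^ 2 = solExist_s k ^ 2 +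
        4 * Real.pi ^ 2 / ℓ ^ 2 * solExist_s k ^ 2 +
        4 * Real.pi ^ 2 / ℓ ^ 2 * solExist_s k ^ 2 * Real.exp (2 * κ) := by rw [hD]; ring
      rw [g4]
      unfold solExist_K
      linarith
    have e2 : |a0 k| + |b0 k| + (|a1 k| + |b1 k|) ≤ (C0 + C1) / solExist_s k ^ (m + 2) := by
      rw [add_div]
      exact add_le_add (hC0 k) (hC1 k)
    have e3 : (1 + solExist_K κ ℓ k) * (|a0 k| + |b0 k| + (|a1 k| + |b1 k|)) ≤
        D * (C0 + C1) / solExist_s k ^ m := by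
      calc _ ≤ D * solExist_s k ^ 2 * ((C0 + C1) / solExist_s k ^ (m + 2)) :=
            mul_le_mul e1 e2 (by positivity) (by positivity)
        _ = _ := by rw [pow_add]; field_simp
    have e4 : (if k = 0 then A1 + A2 else 0) ≤ (A1 + A2) / solExist_s k ^ m := by
      split_ifs with hk
      · subst hk
        have : solExist_s 0 = 1 := by simp [solExist_s]
        rw [this]; simp
      · have : 0 ≤ A1 + A2 := by linarith
        positivity
    simp only [hA]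
    rw [add_div]
    exact add_le_add e3 e4
  set F : ℤ × ℤ → Pt → ℝ := fun k => solExist_T k (cd k) with hF
  have hFs : ∀ k, SmoothFn (F k) := fun k => solExist_smoothFn_T k (hsm k)
  have hFb : ∀ l : List (Fin 3), ∃ v : ℤ × ℤ → ℝ, Summable v ∧
      ∀ k, ∀ p ∈ slab, |iterPd l (F k) p| ≤ v k := by
    intro l
    obtain ⟨C, M, hC, hCM⟩ := solExist_term_bound κ (κ ^ 2 / 4) ℓ l
    exact ⟨_, solExist_summable hA0 hAdec C hC M, fun k p hp =>
      hCM k (cd k) (A k) (hsm k) (hc k).2.2.2.1 (hd k).2.2.2.1 (hcA k) (hdA k) p hp⟩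
  have happ : ∀ (i : Fin 3) (l : List (Fin 3)) (u : Pt → ℝ),
      iterPd l (pd i u) = iterPd (l ++ [i]) u := by
    intro i l u
    induction l with
    | nil => rfl
    | cons j l ih => change pd j (iterPd l (pd i u)) = pd j (iterPd (l ++ [i]) u); rw [ih]
  obtain ⟨hu, hpd⟩ := slab_series F hFs hFb
  have hpd2 : ∀ i, ∀ p ∈ slab, pd i (pd i fun q => ∑' k, F k q) p =
      ∑' k, pd i (pd i (F k)) p := by
    intro i p hp
    have h1 : EqOn (pd i fun q => ∑' k, F k q) (fun q => ∑' k, pd i (F k) q) slab :=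
      fun q hq => hpd i q hq
    rw [pd_congr h1 i hp]
    refine (slab_series (fun k => pd i (F k)) (fun k => smoothFn_pd (hFs k) i) ?_).2 i p hp
    intro l
    obtain ⟨v, hv, hv2⟩ := hFb (l ++ [i])
    refine ⟨v, hv, fun k q hq => ?_⟩
    rw [happ]
    exact hv2 k q hq
  refine ⟨fun q => ∑' k, F k q, hu, fun p hp => ?_, fun p hp => ?_⟩
  · have s0 : Summable fun k => F k p := by
      obtain ⟨v, hv, hv2⟩ := hFb []
      exact Summable.of_norm_bounded hv fun k => by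
        rw [Real.norm_eq_abs]; exact hv2 k p hp
    have s2 : ∀ i, Summable fun k => pd i (pd i (F k)) p := by
      intro i
      obtain ⟨v, hv, hv2⟩ := hFb [i, i]
      exact Summable.of_norm_bounded hv fun k => by
        rw [Real.norm_eq_abs]; exact hv2 k p hp
    have hz : ∀ k, solOp κ ℓ (F k) p = 0 := fun k =>
      solExist_solOp κ ℓ hℓ k (hsm k) (hc k).2.2.2.1 (hd k).2.2.2.1 hp
    have hsum : HasSum (fun k => solOp κ ℓ (F k) p) (solOp κ ℓ (fun q => ∑' k, F k q) p) := by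
      unfold solOp
      rw [hpd2 0 p hp, hpd2 1 p hp, hpd2 2 p hp]
      exact ((s2 0).hasSum.neg.sub (((((s2 1).hasSum.mul_left _).add
        ((s2 2).hasSum.mul_left _))).mul_left _)).sub (s0.hasSum.mul_left _)
    simp only [hz] at hsum
    exact hsum.unique hasSum_zero
  · rcases hp with hp | hp
    · have h := hs0 p hp
      have e : ∀ k, F k p = a0 k * Real.cos (solExist_L k p) + b0 k * Real.sin (solExist_L k p) := by
        intro k
        simp only [hF, hcd, solExist_T]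
        rw [hp, (hc k).2.1, (hd k).2.1]
      simp only [e]
      exact h.tsum_eq
    · have h := hs1 p hp
      have e : ∀ k, F k p = a1 k * Real.cos (solExist_L k p) + b1 k * Real.sin (solExist_L k p) := by
        intro k
        simp only [hF, hcd, solExist_T]
        rw [hp, (hc k).2.2.1, (hd k).2.2.1]
      simp only [e]
      exact h.tsum_eq

end Pool.Agent.H13.Steklov
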