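import Pool.Agent.H13.Steklov.SolGeom

/-!
# STEK SolNeg: negative Steklov eigenvalues of the explicit metrics (uses SolGeom, may be assumed)

Paper proof. `w = κ/2`. Even mode `u = cos (w (x - 1/2))` (`0 < κ < 2π`): `u_xx = -w² u`, so `P u = 0`;
at `x = 1` the outward derivative is `-w sin (w/2) = -w tan (w/2) * u`, the same at `x = 0`;
`0 < w/2 < π/2`. Odd mode `u = sin (w (x - 1/2))` (`2π < κ < 4π`): outward derivative
`w cos (w/2) = w cot (w/2) * u` at `x = 1` and the same at `x = 0`; `π/2 < w/2 < π`.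
`isExt_w`: `cos (w (x - 1/2)) / cos (w/2)`.
-/

open scoped ContDiff Topology
open Set Filter

namespace Pool.Agent.H13.Steklov

/-- The solution with boundary values `1`. -/
noncomputable def wSol (κ : ℝ) (p : Pt) : ℝ :=
  Real.cos (κ / 2 * (p 0 - 1 / 2)) / Real.cos (κ / 4)

/-- a function of the first coordinate with `f'' = -(κ/2)² f` -/
theorem solNeg_confLap (κ ℓ : ℝ) (hℓ : 0 < ℓ) {f f' : ℝ → ℝ} (hf : ContDiff ℝ ∞ f)
    (h1 : ∀ x, HasDerivAt f (f' x) x) (h2 : ∀ x, HasDerivAt f' (-(κ / 2) ^ 2 * f x) x)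
    {p : Pt} (hp : p ∈ slab) : confLap (solMetric κ ℓ) (fun q => f (q 0)) p = 0 := by
  rw [confLap_sol κ ℓ hℓ (contDiffOn_fst hf) hp]
  unfold solOp
  have e0 : EqOn (pd 0 (fun q : Pt => f (q 0))) (fun q => f' (q 0)) slab := by
    intro q hq
    rw [pd_zero_fst hq (h1 _).differentiableAt, (h1 _).deriv]
  have e1 : EqOn (pd 1 (fun q : Pt => f (q 0))) (fun _ => 0) slab := by
    intro q hq
    exact pd_succ_fst hq (h1 _).differentiableAt (by decide)
  have e2 : EqOn (pd 2 (fun q : Pt => f (q 0))) (fun _ => 0) slab := by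
    intro q hq
    exact pd_succ_fst hq (h1 _).differentiableAt (by decide)
  rw [pd_congr e0 0 hp, pd_congr e1 1 hp, pd_congr e2 2 hp, pd_const, pd_const,
    pd_zero_fst hp (h2 _).differentiableAt, (h2 _).deriv]
  ring

theorem solNeg_cos_deriv (w x : ℝ) :
    HasDerivAt (fun x => Real.cos (w * (x - 1 / 2))) (-(w * Real.sin (w * (x - 1 / 2)))) x := by
  have h0 : HasDerivAt (fun x : ℝ => w * (x - 1 / 2)) w x := by
    exact (((hasDerivAt_id x).sub_const (1 / 2)).const_mul w).congr_deriv (by ring)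
  exact (h0.cos).congr_deriv (by ring)

theorem solNeg_sin_deriv (w x : ℝ) :
    HasDerivAt (fun x => Real.sin (w * (x - 1 / 2))) (w * Real.cos (w * (x - 1 / 2))) x := by
  have h0 : HasDerivAt (fun x : ℝ => w * (x - 1 / 2)) w x := by
    exact (((hasDerivAt_id x).sub_const (1 / 2)).const_mul w).congr_deriv (by ring)
  exact (h0.sin).congr_deriv (by ring)

theorem solNeg_cos_contDiff (w : ℝ) : ContDiff ℝ ∞ (fun x => Real.cos (w * (x - 1 / 2))) := by
  fun_prop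

theorem solNeg_sin_contDiff (w : ℝ) : ContDiff ℝ ∞ (fun x => Real.sin (w * (x - 1 / 2))) := by
  fun_prop

theorem solNeg_bdry_cases {p : Pt} (hp : p ∈ bdry) :
    (p 0 = 0 ∧ outSign p = -1) ∨ (p 0 = 1 ∧ outSign p = 1) := by
  rcases hp with h | h
  · left; exact ⟨h, by simp [outSign, h]⟩
  · right; exact ⟨h, by simp [outSign, h]⟩

theorem isExt_w (κ ℓ : ℝ) (hℓ : 0 < ℓ) (hcos : Real.cos (κ / 4) ≠ 0) :
    IsExt (solMetric κ ℓ) (fun _ => 1) (wSol κ) := by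
  have hf : ContDiff ℝ ∞ (fun x => Real.cos (κ / 2 * (x - 1 / 2)) / Real.cos (κ / 4)) :=
    (solNeg_cos_contDiff (κ / 2)).div_const _
  refine ⟨smoothFn_fst hf, fun p hp => ?_, fun p hp => ?_⟩
  · refine solNeg_confLap κ ℓ hℓ (f' := fun x => -(κ / 2 * Real.sin (κ / 2 * (x - 1 / 2)))
      / Real.cos (κ / 4)) hf (fun x => (solNeg_cos_deriv _ x).div_const _) (fun x => ?_) hp
    refine ((((solNeg_sin_deriv (κ / 2) x).const_mul (κ / 2)).fun_neg).div_const _).congr_deriv ?_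
    ring
  · unfold wSol
    rcases solNeg_bdry_cases hp with ⟨h, _⟩ | ⟨h, _⟩
    · rw [h, show κ / 2 * (0 - 1 / 2) = -(κ / 4) by ring, Real.cos_neg, div_self hcos]
    · rw [h, show κ / 2 * (1 - 1 / 2) = κ / 4 by ring, div_self hcos]

theorem wSol_pos (κ : ℝ) (hκ : 0 < κ) (hκ2 : κ < 2 * Real.pi) : ∀ p ∈ slab, 0 < wSol κ p := by
  intro p hp
  have hp' : p 0 ∈ Icc (0 : ℝ) 1 := hp
  unfold wSol
  refine div_pos (Real.cos_pos_of_mem_Ioo ⟨?_, ?_⟩) (Real.cos_pos_of_mem_Ioo ⟨?_, ?_⟩)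
  · nlinarith [hp'.1, hp'.2]
  · nlinarith [hp'.1, hp'.2]
  · linarith
  · linarith

theorem solNeg_cos_neg {κ : ℝ} (hκ : 2 * Real.pi < κ) (hκ2 : κ < 4 * Real.pi) :
    Real.cos (κ / 4) < 0 :=
  Real.cos_neg_of_pi_div_two_lt_of_lt (by linarith) (by linarith [Real.pi_pos])

theorem wSol_neg (κ : ℝ) (hκ : 2 * Real.pi < κ) (hκ2 : κ < 4 * Real.pi) :
    wSol κ (fun _ => 1 / 2) < 0 := by
  unfold wSol
  rw [sub_self, mul_zero, Real.cos_zero]
  exact div_neg_of_pos_of_neg one_pos (solNeg_cos_neg hκ hκ2)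

theorem solNeg_linInd {u : Pt → ℝ} {p : Pt} (hp : p ∈ bdry) (hu : u p ≠ 0) :
    LinearIndependent ℝ (fun _ : Fin 1 => fun q : bdry => u q) := by
  rw [linearIndependent_unique_iff]
  intro h
  have := congrFun h ⟨p, hp⟩
  exact hu this

theorem negSteklov_even (κ ℓ : ℝ) (hℓ : 0 < ℓ) (hκ : 0 < κ) (hκ2 : κ < 2 * Real.pi) :
    NegSteklov (solMetric κ ℓ) 1 := by
  have hc : 0 < Real.cos (κ / 4) := Real.cos_pos_of_mem_Ioo ⟨by linarith, by linarith⟩
  have hs : 0 < Real.sin (κ / 4) := Real.sin_pos_of_pos_of_lt_pi (by linarith)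
    (by linarith [Real.pi_pos])
  refine ⟨fun _ p => Real.cos (κ / 2 * (p 0 - 1 / 2)),
    fun _ => -(κ / 2 * Real.sin (κ / 4) / Real.cos (κ / 4)), fun i => ⟨?_, ?_, ?_, ?_⟩, ?_⟩
  · exact smoothFn_fst (solNeg_cos_contDiff (κ / 2))
  · intro p hp
    refine solNeg_confLap κ ℓ hℓ (f' := fun x => -(κ / 2 * Real.sin (κ / 2 * (x - 1 / 2))))
      (solNeg_cos_contDiff (κ / 2)) (fun x => solNeg_cos_deriv _ x) (fun x => ?_) hp
    refine (((solNeg_sin_deriv (κ / 2) x).const_mul (κ / 2)).fun_neg).congr_deriv ?_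
    ring
  · have : 0 < κ / 2 * Real.sin (κ / 4) / Real.cos (κ / 4) := by positivity
    linarith
  · intro p hp
    rw [confB_sol κ ℓ hℓ _ hp]
    have h1 : pd 0 (fun q : Pt => Real.cos (κ / 2 * (q 0 - 1 / 2))) p
        = -(κ / 2 * Real.sin (κ / 2 * (p 0 - 1 / 2))) := by
      rw [pd_zero_fst (f := fun x => Real.cos (κ / 2 * (x - 1 / 2))) (bdry_subset hp)
        (solNeg_cos_deriv _ _).differentiableAt, (solNeg_cos_deriv _ _).deriv]
    rw [h1]
    show outSign p * _ = _ * Real.cos (κ / 2 * (p 0 - 1 / 2))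
    rcases solNeg_bdry_cases hp with ⟨h, h2⟩ | ⟨h, h2⟩
    · rw [h, h2, show κ / 2 * (0 - 1 / 2) = -(κ / 4) by ring, Real.cos_neg, Real.sin_neg]
      field_simp
    · rw [h, h2, show κ / 2 * (1 - 1 / 2) = κ / 4 by ring]
      field_simp
  · refine solNeg_linInd (u := fun p => Real.cos (κ / 2 * (p 0 - 1 / 2))) (p := fun _ => 1)
      (Or.inr rfl) ?_
    show Real.cos (κ / 2 * ((1 : ℝ) - 1 / 2)) ≠ 0
    rw [show κ / 2 * ((1 : ℝ) - 1 / 2) = κ / 4 by ring]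
    exact hc.ne'

theorem negSteklov_odd (κ ℓ : ℝ) (hℓ : 0 < ℓ) (hκ : 2 * Real.pi < κ) (hκ2 : κ < 4 * Real.pi) :
    NegSteklov (solMetric κ ℓ) 1 := by
  have hc : Real.cos (κ / 4) < 0 := solNeg_cos_neg hκ hκ2
  have hpi := Real.pi_pos
  have hs : 0 < Real.sin (κ / 4) := Real.sin_pos_of_pos_of_lt_pi (by linarith) (by linarith)
  refine ⟨fun _ p => Real.sin (κ / 2 * (p 0 - 1 / 2)),
    fun _ => κ / 2 * Real.cos (κ / 4) / Real.sin (κ / 4), fun i => ⟨?_, ?_, ?_, ?_⟩, ?_⟩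
  · exact smoothFn_fst (solNeg_sin_contDiff (κ / 2))
  · intro p hp
    refine solNeg_confLap κ ℓ hℓ (f' := fun x => κ / 2 * Real.cos (κ / 2 * (x - 1 / 2)))
      (solNeg_sin_contDiff (κ / 2)) (fun x => solNeg_sin_deriv _ x) (fun x => ?_) hp
    refine ((solNeg_cos_deriv (κ / 2) x).const_mul (κ / 2)).congr_deriv ?_
    ring
  · refine div_neg_of_neg_of_pos (mul_neg_of_pos_of_neg (by linarith) hc) hs
  · intro p hp
    rw [confB_sol κ ℓ hℓ _ hp]
    have h1 : pd 0 (fun q : Pt => Real.sin (κ / 2 * (q 0 - 1 / 2))) p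
        = κ / 2 * Real.cos (κ / 2 * (p 0 - 1 / 2)) := by
      rw [pd_zero_fst (f := fun x => Real.sin (κ / 2 * (x - 1 / 2))) (bdry_subset hp)
        (solNeg_sin_deriv _ _).differentiableAt, (solNeg_sin_deriv _ _).deriv]
    rw [h1]
    show outSign p * _ = _ * Real.sin (κ / 2 * (p 0 - 1 / 2))
    rcases solNeg_bdry_cases hp with ⟨h, h2⟩ | ⟨h, h2⟩
    · rw [h, h2, show κ / 2 * (0 - 1 / 2) = -(κ / 4) by ring, Real.cos_neg, Real.sin_neg]
      field_simp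
    · rw [h, h2, show κ / 2 * (1 - 1 / 2) = κ / 4 by ring]
      field_simp
  · refine solNeg_linInd (u := fun p => Real.sin (κ / 2 * (p 0 - 1 / 2))) (p := fun _ => 1)
      (Or.inr rfl) ?_
    show Real.sin (κ / 2 * ((1 : ℝ) - 1 / 2)) ≠ 0
    rw [show κ / 2 * ((1 : ℝ) - 1 / 2) = κ / 4 by ring]
    exact hs.ne'

end Pool.Agent.H13.Steklov
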