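import Pool.Agent.H13.Steklov.SolDefs

/-!
# STEK SolUnique: `0` is not a Dirichlet eigenvalue of the explicit operator

Paper proof. For integers `k₁, k₂` and `x ∈ [0,1]` let
`c(x) = ∫_0^1 ∫_0^1 u(x, y₁, y₂) e^{-2πi(k₁ y₁ + k₂ y₂)} dy₁ dy₂` (or its real and imaginary parts:
with `cos` and `sin` of `2π(k₁ y₁ + k₂ y₂)` instead of the exponential). Differentiating twice under
the integral (on `0 < x < 1`; `u` is smooth there) and integrating by parts twice in `y₁`, resp. `y₂`
(periodicity), `c'' = Q c` on `(0,1)` with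
`Q(x) = 4π² ℓ⁻² (k₁² e^{-2κx} + k₂² e^{2κx}) - κ²/4`, and `c` is continuous on `[0,1]` with
`c(0) = c(1) = 0`. If `(k₁, k₂) ≠ 0` then `Q ≥ 4π² ℓ⁻² e^{-2κ} - κ²/4 ≥ 0` on `[0,1]`, so `c = 0`
(`(c²)'' = 2 c'² + 2 Q c² ≥ 0`, so `c²` is convex and nonnegative with boundary values `0`). If
`k = 0` then `c'' = -w² c` with `w = κ/2`, `sin w ≠ 0`: `c(x) = A cos (w x) + B sin (w x)`
(e.g. `c' cos(wx) + w c sin(wx)` and `c' sin(wx) - w c cos(wx)` are constant) and `c = 0`.
So all Fourier coefficients of the continuous periodic function `u(x, ·, ·)` vanish, hence `u = 0`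
(1-dimensional uniqueness twice: a continuous 1-periodic `f : ℝ → ℂ` with all
`∫_0^1 f(t) e^{-2πint} dt = 0` is `0`, from `hasSum_fourier_series_of_summable` on `AddCircle 1`).
-/

open scoped ContDiff Topology
open Set Filter

namespace Pool.Agent.H13.Steklov

/-! ### One-dimensional uniqueness -/

theorem solUnique_fourier {f : ℝ → ℝ} (hf : Continuous f) (hp : ∀ t, f (t + 1) = f t)
    (h : ∀ (n : ℤ) (s : ℝ), ∫ t in (0 : ℝ)..1, f t * Real.cos (2 * Real.pi * n * t + s) = 0) :
    ∀ t, f t = 0 := by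
  have : Fact ((0 : ℝ) < 1) := ⟨one_pos⟩
  have hper : Function.Periodic (fun t => (f t : ℂ)) 1 := fun t => by
    simp only [hp]
  have hcont : Continuous (hper.lift : AddCircle (1 : ℝ) → ℂ) := by
    refine (QuotientAddGroup.isQuotientMap_mk _).continuous_iff.2 ?_
    exact Complex.continuous_ofReal.comp hf
  let F : C(AddCircle (1 : ℝ), ℂ) := ⟨hper.lift, hcont⟩
  have hFc : ∀ n, fourierCoeff F n = 0 := by
    intro n
    rw [fourierCoeff_eq_intervalIntegral F n 0]
    have h1 := h n 0
    have h2 := h n (-(Real.pi / 2))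
    have e : ∀ x : ℝ, fourier (-n) (x : AddCircle (1 : ℝ)) • F (x : AddCircle (1 : ℝ)) =
        ((f x * Real.cos (2 * Real.pi * n * x + 0) : ℝ) : ℂ) +
        (-Complex.I) * ((f x * Real.cos (2 * Real.pi * n * x + -(Real.pi / 2)) : ℝ) : ℂ) := by
      intro x
      have eF : F (x : AddCircle (1 : ℝ)) = (f x : ℂ) := rfl
      rw [eF, fourier_coe_apply, smul_eq_mul, add_zero]
      have e1 : Real.cos (2 * Real.pi * n * x + -(Real.pi / 2)) = Real.sin (2 * Real.pi * n * x) := by
        rw [← sub_eq_add_neg, Real.cos_sub_pi_div_two]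
      rw [e1]
      have e2 : 2 * (Real.pi : ℂ) * Complex.I * ((-n : ℤ) : ℂ) * (x : ℂ) / ((1 : ℝ) : ℂ) =
          ((-(2 * Real.pi * n * x) : ℝ) : ℂ) * Complex.I := by
        push_cast
        ring
      rw [e2, Complex.exp_mul_I, ← Complex.ofReal_cos, ← Complex.ofReal_sin, Real.cos_neg,
        Real.sin_neg]
      push_cast
      ring
    simp_rw [e]
    rw [zero_add, intervalIntegral.integral_add, intervalIntegral.integral_const_mul,
      intervalIntegral.integral_ofReal, intervalIntegral.integral_ofReal, h1, h2]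
    · simp
    · apply Continuous.intervalIntegrable; fun_prop
    · apply Continuous.intervalIntegrable; fun_prop
  have hs : HasSum (fun i => fourierCoeff F i • fourier i) F := by
    apply hasSum_fourier_series_of_summable
    have : (fourierCoeff F) = fun _ => 0 := funext hFc
    rw [this]
    exact summable_zero
  simp only [hFc, zero_smul] at hs
  have hF0 : F = 0 := hs.unique hasSum_zero
  intro t
  have h3 : F (t : AddCircle (1 : ℝ)) = 0 := by rw [hF0]; rfl
  have h4 : F (t : AddCircle (1 : ℝ)) = (f t : ℂ) := rfl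
  rw [h4] at h3
  exact_mod_cast h3

/-! ### Differentiation under the integral sign -/

theorem solUnique_hasDerivAt_integral {G G' : ℝ → ℝ → ℝ} (hG : Continuous (Function.uncurry G))
    (hG' : Continuous (Function.uncurry G')) {x₀ : ℝ}
    (h : ∀ᶠ x in 𝓝 x₀, ∀ t, HasDerivAt (fun x => G x t) (G' x t) x) :
    HasDerivAt (fun x => ∫ t in (0 : ℝ)..1, G x t) (∫ t in (0 : ℝ)..1, G' x₀ t) x₀ := by
  have hK : IsCompact (Icc (x₀ - 1) (x₀ + 1) ×ˢ Icc (0 : ℝ) 1) := isCompact_Icc.prod isCompact_Icc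
  obtain ⟨M, hM⟩ := (hK.image hG').isBounded.exists_norm_le
  have hs : {x | ∀ t, HasDerivAt (fun x => G x t) (G' x t) x} ∩ Ioo (x₀ - 1) (x₀ + 1) ∈ 𝓝 x₀ :=
    inter_mem h (Ioo_mem_nhds (by linarith) (by linarith))
  refine (intervalIntegral.hasDerivAt_integral_of_dominated_loc_of_deriv_le (bound := fun _ => M)
    hs ?_ ?_ ?_ ?_ ?_ ?_).2
  · refine Eventually.of_forall fun x => ?_
    exact (hG.comp (by fun_prop : Continuous fun t : ℝ => (x, t))).aestronglyMeasurable
  · exact (hG.comp (by fun_prop : Continuous fun t : ℝ => (x₀, t))).intervalIntegrable _ _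
  · exact (hG'.comp (by fun_prop : Continuous fun t : ℝ => (x₀, t))).aestronglyMeasurable
  · refine Eventually.of_forall fun t ht x hx => ?_
    rw [uIoc_of_le zero_le_one] at ht
    have hmem : (x, t) ∈ Icc (x₀ - 1) (x₀ + 1) ×ˢ Icc (0 : ℝ) 1 :=
      ⟨⟨hx.2.1.le, hx.2.2.le⟩, ⟨ht.1.le, ht.2⟩⟩
    exact hM _ (mem_image_of_mem (Function.uncurry G') hmem)
  · exact continuous_const.intervalIntegrable _ _
  · exact Eventually.of_forall fun t _ x hx => hx.1 t

/-! ### Points of the slab -/

/-- Projection to the unit interval. -/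
noncomputable def solUniqueCl (x : ℝ) : ℝ := max 0 (min 1 x)

theorem solUniqueCl_mem (x : ℝ) : solUniqueCl x ∈ Icc (0 : ℝ) 1 :=
  ⟨le_max_left _ _, max_le zero_le_one (min_le_left _ _)⟩

theorem solUniqueCl_eq {x : ℝ} (hx : x ∈ Icc (0 : ℝ) 1) : solUniqueCl x = x := by
  rw [solUniqueCl, min_eq_right hx.2, max_eq_right hx.1]

theorem continuous_solUniqueCl : Continuous solUniqueCl :=
  continuous_const.max (continuous_const.min continuous_id)

/-- The point with given coordinates (the first one projected to `[0,1]`). -/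
noncomputable def solUniquePt (x y z : ℝ) : Pt := ![solUniqueCl x, y, z]

theorem solUniquePt_mem (x y z : ℝ) : solUniquePt x y z ∈ slab := solUniqueCl_mem x

theorem solUniquePt_self {p : Pt} (hp : p ∈ slab) : solUniquePt (p 0) (p 1) (p 2) = p := by
  have h0 : solUniqueCl (p 0) = p 0 := solUniqueCl_eq hp
  funext i
  fin_cases i
  · exact h0
  · rfl
  · rfl

theorem continuous_solUniquePt :
    Continuous fun q : ℝ × ℝ × ℝ => solUniquePt q.1 q.2.1 q.2.2 := by
  refine continuous_pi fun i => ?_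
  fin_cases i
  · exact continuous_solUniqueCl.comp continuous_fst
  · exact continuous_fst.comp continuous_snd
  · exact continuous_snd.comp continuous_snd

theorem solUnique_cont {F : Pt → ℝ} (hF : ContinuousOn F slab) :
    Continuous fun q : ℝ × ℝ × ℝ => F (solUniquePt q.1 q.2.1 q.2.2) :=
  hF.comp_continuous continuous_solUniquePt fun _ => solUniquePt_mem _ _ _

theorem solUnique_line {F : Pt → ℝ} (hF : ContDiffOn ℝ ∞ F slab) {γ : ℝ → Pt} {t : ℝ} {i : Fin 3}
    (hγ : HasDerivAt γ (Pi.single i 1) t) (hm : ∀ s, γ s ∈ slab) :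
    HasDerivAt (fun s => F (γ s)) (pd i F (γ t)) t := by
  have h1 := (differentiableWithinAt_of_smooth hF (hm t)).hasFDerivWithinAt
  have h2 := h1.comp_hasDerivWithinAt t (hγ.hasDerivWithinAt (s := univ)) fun s _ => hm s
  rw [hasDerivWithinAt_univ] at h2
  exact h2

theorem solUnique_hd0 {x : ℝ} (hx : x ∈ Ioo (0 : ℝ) 1) (y z : ℝ) :
    HasDerivAt (fun x => solUniquePt x y z) (Pi.single 0 1) x := by
  have e : (fun x => solUniquePt x y z) =ᶠ[𝓝 x] fun x => (![x, y, z] : Pt) := by
    filter_upwards [Ioo_mem_nhds hx.1 hx.2] with w hw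
    unfold solUniquePt
    rw [solUniqueCl_eq ⟨hw.1.le, hw.2.le⟩]
  refine HasDerivAt.congr_of_eventuallyEq ?_ e
  refine hasDerivAt_pi.2 fun i => ?_
  fin_cases i
  · simpa using hasDerivAt_id' x
  · simpa using hasDerivAt_const x y
  · simpa using hasDerivAt_const x z

theorem solUnique_hd1 (x y z : ℝ) :
    HasDerivAt (fun y => solUniquePt x y z) (Pi.single 1 1) y := by
  refine hasDerivAt_pi.2 fun i => ?_
  fin_cases i
  · simpa [solUniquePt] using hasDerivAt_const y (solUniqueCl x)
  · simpa [solUniquePt] using hasDerivAt_id' y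
  · simpa [solUniquePt] using hasDerivAt_const y z

theorem solUnique_hd2 (x y z : ℝ) :
    HasDerivAt (fun z => solUniquePt x y z) (Pi.single 2 1) z := by
  refine hasDerivAt_pi.2 fun i => ?_
  fin_cases i
  · simpa [solUniquePt] using hasDerivAt_const z (solUniqueCl x)
  · simpa [solUniquePt] using hasDerivAt_const z y
  · simpa [solUniquePt] using hasDerivAt_id' z

theorem solUnique_per1 {u : Pt → ℝ} (hu : Periodic u) (x y z : ℝ) :
    u (solUniquePt x (y + 1) z) = u (solUniquePt x y z) := by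
  rw [← (hu _ (solUniquePt_mem x y z)).1]
  congr 1
  funext i
  fin_cases i <;> simp [solUniquePt]

theorem solUnique_per2 {u : Pt → ℝ} (hu : Periodic u) (x y z : ℝ) :
    u (solUniquePt x y (z + 1)) = u (solUniquePt x y z) := by
  rw [← (hu _ (solUniquePt_mem x y z)).2]
  congr 1
  funext i
  fin_cases i <;> simp [solUniquePt]

/-! ### Mode integrals -/

/-- The mode function `cos (2πnt + s)`. -/
noncomputable def solUniqueMode (n : ℤ) (s t : ℝ) : ℝ := Real.cos (2 * Real.pi * n * t + s)

theorem continuous_solUniqueMode (n : ℤ) (s : ℝ) : Continuous (solUniqueMode n s) := by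
  unfold solUniqueMode
  fun_prop

theorem solUniqueMode_hasDerivAt (n : ℤ) (s t : ℝ) :
    HasDerivAt (solUniqueMode n s) (2 * Real.pi * n * solUniqueMode n (s + Real.pi / 2) t) t := by
  have h1 : HasDerivAt (fun t : ℝ => 2 * Real.pi * n * t + s) (2 * Real.pi * n * 1) t :=
    ((hasDerivAt_id t).const_mul _).add_const _
  have h2 := h1.cos
  unfold solUniqueMode
  refine h2.congr_deriv ?_
  rw [← add_assoc, Real.cos_add_pi_div_two]
  ring

theorem solUniqueMode_add_pi (n : ℤ) (s t : ℝ) :
    solUniqueMode n (s + Real.pi / 2 + Real.pi / 2) t = -solUniqueMode n s t := by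
  unfold solUniqueMode
  rw [← add_assoc, ← add_assoc, add_assoc (2 * Real.pi * n * t + s), add_halves, Real.cos_add_pi]

theorem solUniqueMode_periodic (n : ℤ) (s t : ℝ) :
    solUniqueMode n s (t + 1) = solUniqueMode n s t := by
  unfold solUniqueMode
  have e : 2 * Real.pi * n * (t + 1) + s = 2 * Real.pi * n * t + s + n * (2 * Real.pi) := by ring
  rw [e, Real.cos_add_int_mul_two_pi]

/-- Integration by parts twice against a mode. -/
theorem solUnique_parts {w w' w'' : ℝ → ℝ} (h1 : ∀ t, HasDerivAt w (w' t) t)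
    (h2 : ∀ t, HasDerivAt w' (w'' t) t) (hc : Continuous w'') (hp : ∀ t, w (t + 1) = w t)
    (hp' : ∀ t, w' (t + 1) = w' t) (n : ℤ) (s : ℝ) :
    ∫ t in (0 : ℝ)..1, w'' t * solUniqueMode n s t =
      -(2 * Real.pi * n) ^ 2 * ∫ t in (0 : ℝ)..1, w t * solUniqueMode n s t := by
  have hw : Continuous w := continuous_iff_continuousAt.2 fun t => (h1 t).continuousAt
  have hm := continuous_solUniqueMode n s
  have hF : ∀ t, HasDerivAt (fun t => w' t * solUniqueMode n s t -
      w t * (2 * Real.pi * n * solUniqueMode n (s + Real.pi / 2) t))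
      (w'' t * solUniqueMode n s t + (2 * Real.pi * n) ^ 2 * (w t * solUniqueMode n s t)) t := by
    intro t
    have a := ((h2 t).mul (solUniqueMode_hasDerivAt n s t)).sub
      ((h1 t).mul ((solUniqueMode_hasDerivAt n (s + Real.pi / 2) t).const_mul (2 * Real.pi * n)))
    rw [solUniqueMode_add_pi] at a
    refine a.congr_deriv ?_
    ring
  have hI := intervalIntegral.integral_eq_sub_of_hasDerivAt (a := 0) (b := 1)
    (fun t _ => hF t) (by apply Continuous.intervalIntegrable; fun_prop)
  have e0 : ∀ n s, solUniqueMode n s 1 = solUniqueMode n s 0 := fun n s => by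
    have := solUniqueMode_periodic n s 0
    rwa [zero_add] at this
  have e1 : w 1 = w 0 := by have := hp 0; rwa [zero_add] at this
  have e2 : w' 1 = w' 0 := by have := hp' 0; rwa [zero_add] at this
  rw [e0, e0, e1, e2, sub_self, intervalIntegral.integral_add
    (by apply Continuous.intervalIntegrable; fun_prop)
    (by apply Continuous.intervalIntegrable; fun_prop),
    intervalIntegral.integral_const_mul] at hI
  linarith

/-- The mode integrals of a function on the slab. -/
noncomputable def solUniqueI (m n : ℤ) (a b : ℝ) (F : Pt → ℝ) (x : ℝ) : ℝ :=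
  ∫ z in (0 : ℝ)..1, (∫ y in (0 : ℝ)..1, F (solUniquePt x y z) * solUniqueMode m a y) *
    solUniqueMode n b z

theorem solUnique_inner_cont {F : Pt → ℝ} (hF : ContinuousOn F slab) (m : ℤ) (a : ℝ) :
    Continuous fun q : ℝ × ℝ => ∫ y in (0 : ℝ)..1, F (solUniquePt q.1 y q.2) *
      solUniqueMode m a y := by
  apply intervalIntegral.continuous_parametric_intervalIntegral_of_continuous'
  refine Continuous.mul ?_ ?_
  · exact (solUnique_cont hF).comp
      (by fun_prop : Continuous fun q : (ℝ × ℝ) × ℝ => (q.1.1, q.2, q.1.2))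
  · exact (continuous_solUniqueMode m a).comp continuous_snd

theorem solUnique_outer_cont {F : Pt → ℝ} (hF : ContinuousOn F slab) (m n : ℤ) (a b : ℝ) :
    Continuous (Function.uncurry fun x z : ℝ => (∫ y in (0 : ℝ)..1, F (solUniquePt x y z) *
      solUniqueMode m a y) * solUniqueMode n b z) :=
  (solUnique_inner_cont hF m a).mul ((continuous_solUniqueMode n b).comp continuous_snd)

theorem solUniqueI_cont {F : Pt → ℝ} (hF : ContinuousOn F slab) (m n : ℤ) (a b : ℝ) :
    Continuous (solUniqueI m n a b F) :=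
  intervalIntegral.continuous_parametric_intervalIntegral_of_continuous'
    (solUnique_outer_cont hF m n a b) 0 1

theorem solUniqueI_hasDerivAt {F : Pt → ℝ} (hF : ContDiffOn ℝ ∞ F slab) (m n : ℤ) (a b : ℝ)
    {x : ℝ} (hx : x ∈ Ioo (0 : ℝ) 1) :
    HasDerivAt (solUniqueI m n a b F) (solUniqueI m n a b (pd 0 F) x) x := by
  have hc := hF.continuousOn
  have hc' := (contDiffOn_pd hF 0).continuousOn
  refine solUnique_hasDerivAt_integral (solUnique_outer_cont hc m n a b)
    (solUnique_outer_cont hc' m n a b) ?_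
  filter_upwards [Ioo_mem_nhds hx.1 hx.2] with w hw z
  refine HasDerivAt.mul_const ?_ _
  refine solUnique_hasDerivAt_integral
    (G := fun x y => F (solUniquePt x y z) * solUniqueMode m a y)
    (G' := fun x y => pd 0 F (solUniquePt x y z) * solUniqueMode m a y) ?_ ?_ ?_
  · exact ((solUnique_cont hc).comp (by fun_prop : Continuous fun q : ℝ × ℝ => (q.1, q.2, z))).mul
      ((continuous_solUniqueMode m a).comp continuous_snd)
  · exact ((solUnique_cont hc').comp (by fun_prop : Continuous fun q : ℝ × ℝ => (q.1, q.2, z))).mul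
      ((continuous_solUniqueMode m a).comp continuous_snd)
  · filter_upwards [Ioo_mem_nhds hw.1 hw.2] with v hv y
    exact (solUnique_line hF (solUnique_hd0 hv y z) fun s => solUniquePt_mem s y z).mul_const _

theorem solUniqueI_parts1 {u : Pt → ℝ} (hu : SmoothFn u) (m n : ℤ) (a b x : ℝ) :
    solUniqueI m n a b (pd 1 (pd 1 u)) x =
      -(2 * Real.pi * m) ^ 2 * solUniqueI m n a b u x := by
  unfold solUniqueI
  rw [← intervalIntegral.integral_const_mul]
  refine intervalIntegral.integral_congr fun z _ => ?_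
  have h1 := smoothFn_pd hu 1
  have h2 := smoothFn_pd h1 1
  have := solUnique_parts (w := fun y => u (solUniquePt x y z))
    (w' := fun y => pd 1 u (solUniquePt x y z)) (w'' := fun y => pd 1 (pd 1 u) (solUniquePt x y z))
    (fun y => solUnique_line hu.1 (solUnique_hd1 x y z) fun s => solUniquePt_mem x s z)
    (fun y => solUnique_line h1.1 (solUnique_hd1 x y z) fun s => solUniquePt_mem x s z)
    ((solUnique_cont h2.1.continuousOn).comp (by fun_prop : Continuous fun y : ℝ => (x, y, z)))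
    (fun y => solUnique_per1 hu.2 x y z) (fun y => solUnique_per1 h1.2 x y z) m a
  rw [this]
  ring

theorem solUniqueI_parts2 {u : Pt → ℝ} (hu : SmoothFn u) (m n : ℤ) (a b x : ℝ) :
    solUniqueI m n a b (pd 2 (pd 2 u)) x =
      -(2 * Real.pi * n) ^ 2 * solUniqueI m n a b u x := by
  have h1 := smoothFn_pd hu 2
  have h2 := smoothFn_pd h1 2
  have hd : ∀ {F : Pt → ℝ}, ContDiffOn ℝ ∞ F slab → ∀ z, HasDerivAt
      (fun z => ∫ y in (0 : ℝ)..1, F (solUniquePt x y z) * solUniqueMode m a y)
      (∫ y in (0 : ℝ)..1, pd 2 F (solUniquePt x y z) * solUniqueMode m a y) z := by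
    intro F hF z
    have hc := hF.continuousOn
    have hc' := (contDiffOn_pd hF 2).continuousOn
    refine solUnique_hasDerivAt_integral
      (G := fun z y => F (solUniquePt x y z) * solUniqueMode m a y)
      (G' := fun z y => pd 2 F (solUniquePt x y z) * solUniqueMode m a y) ?_ ?_ ?_
    · exact ((solUnique_cont hc).comp (by fun_prop : Continuous fun q : ℝ × ℝ =>
        (x, q.2, q.1))).mul ((continuous_solUniqueMode m a).comp continuous_snd)
    · exact ((solUnique_cont hc').comp (by fun_prop : Continuous fun q : ℝ × ℝ =>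
        (x, q.2, q.1))).mul ((continuous_solUniqueMode m a).comp continuous_snd)
    · refine Eventually.of_forall fun v y => ?_
      exact (solUnique_line hF (solUnique_hd2 x y v) fun s => solUniquePt_mem x y s).mul_const _
  refine solUnique_parts (hd hu.1) (hd h1.1) ?_ ?_ ?_ n b
  · exact (solUnique_inner_cont h2.1.continuousOn m a).comp
      (by fun_prop : Continuous fun z : ℝ => (x, z))
  · intro z
    simp only [solUnique_per2 hu.2]
  · intro z
    simp only [solUnique_per2 h1.2]

theorem solUniqueI_lin {F G H : Pt → ℝ} (hF : ContinuousOn F slab) (hG : ContinuousOn G slab)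
    (hH : ContinuousOn H slab) (m n : ℤ) (a b x α β γ : ℝ) {K : Pt → ℝ}
    (hK : ∀ y z, K (solUniquePt x y z) = α * F (solUniquePt x y z) + β * G (solUniquePt x y z) +
      γ * H (solUniquePt x y z)) :
    solUniqueI m n a b K x = α * solUniqueI m n a b F x + β * solUniqueI m n a b G x +
      γ * solUniqueI m n a b H x := by
  have hcy : ∀ {F : Pt → ℝ}, ContinuousOn F slab → ∀ z, Continuous fun y =>
      F (solUniquePt x y z) * solUniqueMode m a y := fun hF z =>
    ((solUnique_cont hF).comp (by fun_prop : Continuous fun y : ℝ => (x, y, z))).mul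
      (continuous_solUniqueMode m a)
  have hcz : ∀ {F : Pt → ℝ}, ContinuousOn F slab → Continuous fun z =>
      (∫ y in (0 : ℝ)..1, F (solUniquePt x y z) * solUniqueMode m a y) * solUniqueMode n b z :=
    fun hF => (solUnique_outer_cont hF m n a b).comp (by fun_prop : Continuous fun z : ℝ => (x, z))
  have e : ∀ z, (∫ y in (0 : ℝ)..1, K (solUniquePt x y z) * solUniqueMode m a y) =
      α * (∫ y in (0 : ℝ)..1, F (solUniquePt x y z) * solUniqueMode m a y) +
      β * (∫ y in (0 : ℝ)..1, G (solUniquePt x y z) * solUniqueMode m a y) +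
      γ * (∫ y in (0 : ℝ)..1, H (solUniquePt x y z) * solUniqueMode m a y) := by
    intro z
    have iF := (hcy hF z).intervalIntegrable (μ := MeasureTheory.volume) 0 1
    have iG := (hcy hG z).intervalIntegrable (μ := MeasureTheory.volume) 0 1
    have iH := (hcy hH z).intervalIntegrable (μ := MeasureTheory.volume) 0 1
    rw [← intervalIntegral.integral_const_mul, ← intervalIntegral.integral_const_mul,
      ← intervalIntegral.integral_const_mul, ← intervalIntegral.integral_add (iF.const_mul α)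
      (iG.const_mul β), ← intervalIntegral.integral_add ((iF.const_mul α).add (iG.const_mul β))
      (iH.const_mul γ)]
    refine intervalIntegral.integral_congr fun y _ => ?_
    rw [hK]
    ring
  have iF := (hcz hF).intervalIntegrable (μ := MeasureTheory.volume) 0 1
  have iG := (hcz hG).intervalIntegrable (μ := MeasureTheory.volume) 0 1
  have iH := (hcz hH).intervalIntegrable (μ := MeasureTheory.volume) 0 1
  unfold solUniqueI
  rw [← intervalIntegral.integral_const_mul, ← intervalIntegral.integral_const_mul,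
      ← intervalIntegral.integral_const_mul, ← intervalIntegral.integral_add (iF.const_mul α)
      (iG.const_mul β), ← intervalIntegral.integral_add ((iF.const_mul α).add (iG.const_mul β))
      (iH.const_mul γ)]
  refine intervalIntegral.integral_congr fun z _ => ?_
  rw [e]
  ring

/-! ### The ordinary differential equations -/

theorem solUnique_ode_pos {c c' : ℝ → ℝ} {Q : ℝ → ℝ} (hc : Continuous c)
    (h1 : ∀ x ∈ Ioo (0 : ℝ) 1, HasDerivAt c (c' x) x)
    (h2 : ∀ x ∈ Ioo (0 : ℝ) 1, HasDerivAt c' (Q x * c x) x) (hQ : ∀ x ∈ Ioo (0 : ℝ) 1, 0 ≤ Q x)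
    (h0 : c 0 = 0) (hone : c 1 = 0) : ∀ x ∈ Icc (0 : ℝ) 1, c x = 0 := by
  have hconv : ConvexOn ℝ (Icc (0 : ℝ) 1) fun x => c x ^ 2 := by
    refine convexOn_of_hasDerivWithinAt2_nonneg (convex_Icc 0 1)
      (f' := fun x => 2 * (c x * c' x)) (f'' := fun x => 2 * (c' x * c' x + c x * (Q x * c x)))
      (hc.pow 2).continuousOn ?_ ?_ ?_
    · rw [interior_Icc]
      intro x hx
      refine HasDerivAt.hasDerivWithinAt ?_
      refine ((h1 x hx).pow 2).congr_deriv ?_
      push_cast
      ring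
    · rw [interior_Icc]
      intro x hx
      exact (((h1 x hx).mul (h2 x hx)).const_mul 2).hasDerivWithinAt
    · rw [interior_Icc]
      intro x hx
      have := hQ x hx
      have a1 : 0 ≤ c' x * c' x := mul_self_nonneg _
      have a2 : 0 ≤ c x * (Q x * c x) := by
        have : c x * (Q x * c x) = Q x * (c x * c x) := by ring
        rw [this]
        exact mul_nonneg (hQ x hx) (mul_self_nonneg _)
      linarith
  intro x hx
  have h := hconv.le_max_of_mem_Icc (left_mem_Icc.2 zero_le_one) (right_mem_Icc.2 zero_le_one) hx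
  simp only [h0, hone] at h
  have h3 : c x ^ 2 ≤ 0 := by simpa using h
  exact pow_eq_zero_iff two_ne_zero |>.1 (le_antisymm h3 (sq_nonneg _))

theorem solUnique_ode_neg {c c' : ℝ → ℝ} {w : ℝ} (hw : w ≠ 0) (hs : Real.sin w ≠ 0)
    (hc : Continuous c) (h1 : ∀ x ∈ Ioo (0 : ℝ) 1, HasDerivAt c (c' x) x)
    (h2 : ∀ x ∈ Ioo (0 : ℝ) 1, HasDerivAt c' (-(w ^ 2) * c x) x)
    (h0 : c 0 = 0) (hone : c 1 = 0) : ∀ x ∈ Icc (0 : ℝ) 1, c x = 0 := by
  have hcos : ∀ x, HasDerivAt (fun x => Real.cos (w * x)) (-Real.sin (w * x) * w) x := fun x => by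
    have : HasDerivAt (fun x : ℝ => w * x) (w * 1) x := (hasDerivAt_id x).const_mul w
    have := this.cos
    rwa [mul_one] at this
  have hsin : ∀ x, HasDerivAt (fun x => Real.sin (w * x)) (Real.cos (w * x) * w) x := fun x => by
    have : HasDerivAt (fun x : ℝ => w * x) (w * 1) x := (hasDerivAt_id x).const_mul w
    have := this.sin
    rwa [mul_one] at this
  have hA : ∀ x ∈ Ioo (0 : ℝ) 1, HasDerivAt
      (fun x => c' x * Real.cos (w * x) + w * (c x * Real.sin (w * x))) 0 x := by
    intro x hx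
    refine (((h2 x hx).mul (hcos x)).add (((h1 x hx).mul (hsin x)).const_mul w)).congr_deriv ?_
    ring
  have hB : ∀ x ∈ Ioo (0 : ℝ) 1, HasDerivAt
      (fun x => c' x * Real.sin (w * x) - w * (c x * Real.cos (w * x))) 0 x := by
    intro x hx
    refine (((h2 x hx).mul (hsin x)).sub (((h1 x hx).mul (hcos x)).const_mul w)).congr_deriv ?_
    ring
  have hconst : ∀ {f : ℝ → ℝ}, (∀ x ∈ Ioo (0 : ℝ) 1, HasDerivAt f 0 x) →
      ∀ x ∈ Ioo (0 : ℝ) 1, f x = f (1 / 2) := by
    intro f hf x hx
    refine isOpen_Ioo.is_const_of_deriv_eq_zero isPreconnected_Ioo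
      (fun y hy => (hf y hy).differentiableAt.differentiableWithinAt)
      (fun y hy => (hf y hy).deriv) hx ⟨by norm_num, by norm_num⟩
  obtain ⟨A, hA'⟩ : ∃ A, ∀ x ∈ Ioo (0 : ℝ) 1,
      c' x * Real.cos (w * x) + w * (c x * Real.sin (w * x)) = A := ⟨_, hconst hA⟩
  obtain ⟨B, hB'⟩ : ∃ B, ∀ x ∈ Ioo (0 : ℝ) 1,
      c' x * Real.sin (w * x) - w * (c x * Real.cos (w * x)) = B := ⟨_, hconst hB⟩
  have hform : ∀ x ∈ Ioo (0 : ℝ) 1, w * c x = A * Real.sin (w * x) - B * Real.cos (w * x) := by
    intro x hx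
    rw [← hA' x hx, ← hB' x hx]
    have := Real.sin_sq_add_cos_sq (w * x)
    linear_combination (-(w * c x)) * this
  have hclos : ∀ x ∈ Icc (0 : ℝ) 1, w * c x = A * Real.sin (w * x) - B * Real.cos (w * x) := by
    have hcl : IsClosed {x : ℝ | w * c x = A * Real.sin (w * x) - B * Real.cos (w * x)} :=
      isClosed_eq (by fun_prop) (by fun_prop)
    have hsub : Ioo (0 : ℝ) 1 ⊆ {x : ℝ | w * c x = A * Real.sin (w * x) - B * Real.cos (w * x)} :=
      hform
    have := hcl.closure_subset_iff.2 hsub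
    rw [closure_Ioo zero_ne_one] at this
    exact this
  have hB0 : B = 0 := by
    have := hclos 0 (left_mem_Icc.2 zero_le_one)
    rw [h0] at this
    simpa using this
  have hA0 : A = 0 := by
    have := hclos 1 (right_mem_Icc.2 zero_le_one)
    rw [hone, hB0] at this
    simp only [mul_zero, mul_one, zero_mul, sub_zero] at this
    rcases mul_eq_zero.1 this.symm with h | h
    · exact h
    · exact absurd h hs
  intro x hx
  have := hclos x hx
  rw [hA0, hB0] at this
  simp only [zero_mul, sub_zero] at this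
  rcases mul_eq_zero.1 this with h | h
  · exact absurd h hw
  · exact h

theorem solUnique_pot_nonneg {κ ℓ : ℝ} (hκ : 0 < κ) (hℓ : 0 < ℓ)
    (hsmall : ℓ ^ 2 * κ ^ 2 * Real.exp (2 * κ) ≤ 16 * Real.pi ^ 2) {m n : ℤ}
    (hmn : ¬(m = 0 ∧ n = 0)) {x : ℝ} (hx : x ∈ Icc (0 : ℝ) 1) :
    0 ≤ (ℓ ^ 2)⁻¹ * (Real.exp (-(2 * κ * x)) * (2 * Real.pi * m) ^ 2 +
      Real.exp (2 * κ * x) * (2 * Real.pi * n) ^ 2) - κ ^ 2 / 4 := by
  have hpi := Real.pi_pos
  have e1 : Real.exp (-(2 * κ)) ≤ Real.exp (-(2 * κ * x)) :=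
    Real.exp_le_exp.2 (by nlinarith [hx.2])
  have e2 : Real.exp (-(2 * κ)) ≤ Real.exp (2 * κ * x) :=
    Real.exp_le_exp.2 (by nlinarith [hx.1, mul_nonneg hκ.le hx.1])
  have hE := Real.exp_pos (-(2 * κ))
  have hsq : (1 : ℝ) ≤ (m : ℝ) ^ 2 + (n : ℝ) ^ 2 := by
    have : (1 : ℤ) ≤ m ^ 2 + n ^ 2 := by
      by_contra hlt
      have h0 : m ^ 2 + n ^ 2 ≤ 0 := by omega
      have hm : m = 0 := by nlinarith [sq_nonneg m, sq_nonneg n]
      have hn : n = 0 := by nlinarith [sq_nonneg m, sq_nonneg n]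
      exact hmn ⟨hm, hn⟩
    exact_mod_cast this
  have hbig : Real.exp (-(2 * κ)) * (4 * Real.pi ^ 2) ≤
      Real.exp (-(2 * κ * x)) * (2 * Real.pi * m) ^ 2 +
      Real.exp (2 * κ * x) * (2 * Real.pi * n) ^ 2 := by
    have a1 : Real.exp (-(2 * κ)) * (2 * Real.pi * m) ^ 2 ≤
        Real.exp (-(2 * κ * x)) * (2 * Real.pi * m) ^ 2 :=
      mul_le_mul_of_nonneg_right e1 (sq_nonneg _)
    have a2 : Real.exp (-(2 * κ)) * (2 * Real.pi * n) ^ 2 ≤
        Real.exp (2 * κ * x) * (2 * Real.pi * n) ^ 2 :=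
      mul_le_mul_of_nonneg_right e2 (sq_nonneg _)
    have a3 : Real.exp (-(2 * κ)) * (4 * Real.pi ^ 2) * 1 ≤
        Real.exp (-(2 * κ)) * (4 * Real.pi ^ 2) * ((m : ℝ) ^ 2 + (n : ℝ) ^ 2) :=
      mul_le_mul_of_nonneg_left hsq (by positivity)
    nlinarith
  have hk : κ ^ 2 / 4 ≤ (ℓ ^ 2)⁻¹ * (Real.exp (-(2 * κ)) * (4 * Real.pi ^ 2)) := by
    have hl : (0 : ℝ) < ℓ ^ 2 := by positivity
    rw [← div_eq_inv_mul, le_div_iff₀ hl]
    have e3 : Real.exp (-(2 * κ)) * Real.exp (2 * κ) = 1 := by
      rw [← Real.exp_add]; simp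
    have := mul_le_mul_of_nonneg_left hsmall hE.le
    have e4 : Real.exp (-(2 * κ)) * (ℓ ^ 2 * κ ^ 2 * Real.exp (2 * κ)) = ℓ ^ 2 * κ ^ 2 := by
      linear_combination (ℓ ^ 2 * κ ^ 2) * e3
    rw [e4] at this
    linarith
  have hl : (0 : ℝ) < (ℓ ^ 2)⁻¹ := by positivity
  have := mul_le_mul_of_nonneg_left hbig hl.le
  linarith

theorem sol_unique (κ ℓ : ℝ) (hκ : 0 < κ) (hℓ : 0 < ℓ) (hsin : Real.sin (κ / 2) ≠ 0)
    (hsmall : ℓ ^ 2 * κ ^ 2 * Real.exp (2 * κ) ≤ 16 * Real.pi ^ 2) {u : Pt → ℝ} (hu : SmoothFn u)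
    (hP : ∀ p ∈ slab, solOp κ ℓ u p = 0) (hb : ∀ p ∈ bdry, u p = 0) : ∀ p ∈ slab, u p = 0 := by
  have h0 := smoothFn_pd hu 0
  have h1 := smoothFn_pd hu 1
  have h2 := smoothFn_pd hu 2
  have h11 := smoothFn_pd h1 1
  have h22 := smoothFn_pd h2 2
  -- the mode integrals vanish
  have key : ∀ (m n : ℤ) (a b : ℝ), ∀ x ∈ Icc (0 : ℝ) 1, solUniqueI m n a b u x = 0 := by
    intro m n a b
    have hc := solUniqueI_cont hu.1.continuousOn m n a b
    have hd1 : ∀ x ∈ Ioo (0 : ℝ) 1, HasDerivAt (solUniqueI m n a b u)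
        (solUniqueI m n a b (pd 0 u) x) x := fun x hx => solUniqueI_hasDerivAt hu.1 m n a b hx
    have hd2 : ∀ x ∈ Ioo (0 : ℝ) 1, HasDerivAt (solUniqueI m n a b (pd 0 u))
        (((ℓ ^ 2)⁻¹ * (Real.exp (-(2 * κ * x)) * (2 * Real.pi * m) ^ 2 +
      Real.exp (2 * κ * x) * (2 * Real.pi * n) ^ 2) - κ ^ 2 / 4) * solUniqueI m n a b u x) x := by
      intro x hx
      refine (solUniqueI_hasDerivAt h0.1 m n a b hx).congr_deriv ?_
      rw [solUniqueI_lin h11.1.continuousOn h22.1.continuousOn hu.1.continuousOn m n a b x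
        (-((ℓ ^ 2)⁻¹ * Real.exp (-(2 * κ * x)))) (-((ℓ ^ 2)⁻¹ * Real.exp (2 * κ * x)))
        (-(κ ^ 2 / 4)) ?_, solUniqueI_parts1 hu, solUniqueI_parts2 hu]
      · ring
      · intro y z
        have := hP _ (solUniquePt_mem x y z)
        unfold solOp at this
        have e : solUniquePt x y z 0 = x := solUniqueCl_eq ⟨hx.1.le, hx.2.le⟩
        rw [e] at this
        linarith
    have hc0 : ∀ x, (x = 0 ∨ x = 1) → solUniqueI m n a b u x = 0 := by
      intro x hx
      have hxI : x ∈ Icc (0 : ℝ) 1 := by rcases hx with rfl | rfl <;> simp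
      have : ∀ y z, u (solUniquePt x y z) = 0 := by
        intro y z
        apply hb
        have e : solUniquePt x y z 0 = x := solUniqueCl_eq hxI
        change solUniquePt x y z 0 = 0 ∨ solUniquePt x y z 0 = 1
        rw [e]
        exact hx
      unfold solUniqueI
      simp [this]
    by_cases hmn : m = 0 ∧ n = 0
    · obtain ⟨rfl, rfl⟩ := hmn
      refine solUnique_ode_neg (w := κ / 2) (by positivity) hsin hc hd1 ?_ (hc0 0 (Or.inl rfl))
        (hc0 1 (Or.inr rfl))
      intro x hx
      refine (hd2 x hx).congr_deriv ?_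
      push_cast
      ring
    · exact solUnique_ode_pos hc hd1 hd2 (fun x hx =>
        solUnique_pot_nonneg hκ hℓ hsmall hmn ⟨hx.1.le, hx.2.le⟩) (hc0 0 (Or.inl rfl))
        (hc0 1 (Or.inr rfl))
  -- uniqueness of Fourier coefficients, twice
  intro p hp
  have hu' := hu.1.continuousOn
  have step1 : ∀ (m : ℤ) (a z : ℝ),
      ∫ y in (0 : ℝ)..1, u (solUniquePt (p 0) y z) * solUniqueMode m a y = 0 := by
    intro m a
    refine solUnique_fourier (f := fun z =>
      ∫ y in (0 : ℝ)..1, u (solUniquePt (p 0) y z) * solUniqueMode m a y) ?_ ?_ ?_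
    · exact (solUnique_inner_cont hu' m a).comp (by fun_prop : Continuous fun z : ℝ => (p 0, z))
    · intro z
      simp only [solUnique_per2 hu.2]
    · intro n b
      exact key m n a b (p 0) hp
  have step2 : ∀ y z, u (solUniquePt (p 0) y z) = 0 := by
    intro y z
    refine solUnique_fourier (f := fun y => u (solUniquePt (p 0) y z)) ?_ ?_ ?_ y
    · exact (solUnique_cont hu').comp (by fun_prop : Continuous fun y : ℝ => (p 0, y, z))
    · intro y
      exact solUnique_per1 hu.2 _ _ _
    · intro m a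
      exact step1 m a z
  rw [← solUniquePt_self hp]
  exact step2 _ _

end Pool.Agent.H13.Steklov
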