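import Pool.Agent.H13.Steklov.Compare
import Pool.Agent.H13.Steklov.SolNeg
import Pool.Agent.H13.Steklov.SolUnique
import Pool.Agent.H13.Steklov.SolExist

/-! # STEK Final -/

open scoped ContDiff Topology
open Set Filter

namespace Pool.Agent.H13.Steklov

theorem sDefined_sol (κ ℓ : ℝ) (hκ : 0 < κ) (hℓ : 0 < ℓ) (hsin : Real.sin (κ / 2) ≠ 0)
    (hsmall : ℓ ^ 2 * κ ^ 2 * Real.exp (2 * κ) ≤ 16 * Real.pi ^ 2) : SDefined (solMetric κ ℓ) := by
  intro f hf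
  obtain ⟨u, hu, hP, hb⟩ := sol_exist κ ℓ hκ hℓ hsin hsmall hf
  refine ⟨u, ⟨hu, fun p hp => ?_, hb⟩, ?_⟩
  · rw [confLap_sol κ ℓ hℓ hu.1 hp]; exact hP p hp
  · rintro v ⟨hv, hPv, hbv⟩
    have hd : SmoothFn fun q => v q - u q := smoothFn_sub hv hu
    have h := sol_unique κ ℓ hκ hℓ hsin hsmall hd (fun p hp => ?_) (fun p hp => ?_)
    · intro p hp
      have := h p hp
      linarith
    · rw [← confLap_sol κ ℓ hℓ hd.1 hp]
      have e : confLap (solMetric κ ℓ) (fun q => v q - u q) p =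
          confLap (solMetric κ ℓ) (fun q => 1 * v q + (-1) * u q) p :=
        confLap_congr _ (fun q _ => by ring) hp
      rw [e, confLap_add_mul _ hv.1 hu.1 1 (-1) hp, hPv p hp, confLap_sol κ ℓ hℓ hu.1 hp, hP p hp]
      ring
    · rw [hbv p hp, hb p hp, sub_self]

theorem christ_congr {g g' : Pt → Matrix (Fin 3) (Fin 3) ℝ} (h : ∀ p ∈ slab, g p = g' p)
    (k i j : Fin 3) : EqOn (christ g k i j) (christ g' k i j) slab := by
  intro p hp
  have h1 : ∀ a b c : Fin 3, pd a (fun q => g q b c) p = pd a (fun q => g' q b c) p := fun a b c =>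
    pd_congr (fun q hq => by rw [h q hq]) a hp
  unfold christ
  simp only [h1, h p hp]

theorem scal_congr {g g' : Pt → Matrix (Fin 3) (Fin 3) ℝ} (h : ∀ p ∈ slab, g p = g' p) {p : Pt}
    (hp : p ∈ slab) : scal g p = scal g' p := by
  have h1 : ∀ k i j, christ g k i j p = christ g' k i j p := fun k i j => christ_congr h k i j hp
  have h2 : ∀ a k i j, pd a (christ g k i j) p = pd a (christ g' k i j) p := fun a k i j =>
    pd_congr (christ_congr h k i j) a hp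
  unfold scal
  simp only [h1, h2, h p hp]

theorem confLap_congr_metric {g g' : Pt → Matrix (Fin 3) (Fin 3) ℝ}
    (h : ∀ p ∈ slab, g p = g' p) (u : Pt → ℝ) {p : Pt} (hp : p ∈ slab) :
    confLap g u p = confLap g' u p := by
  have h1 : ∀ k i j, christ g k i j p = christ g' k i j p := fun k i j => christ_congr h k i j hp
  unfold confLap lap
  simp only [h1, scal_congr h hp, h p hp]

theorem isExt_congr {g g' : Pt → Matrix (Fin 3) (Fin 3) ℝ} (h : ∀ p ∈ slab, g p = g' p)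
    {f u : Pt → ℝ} (hu : IsExt g' f u) : IsExt g f u :=
  ⟨hu.1, fun p hp => by rw [confLap_congr_metric h u hp]; exact hu.2.1 p hp, hu.2.2⟩

/-- Disproof for problem (S) on `M = [0,1] × T²`. -/
theorem main : ∃ g₀ g₁ : Pt → Matrix (Fin 3) (Fin 3) ℝ, IsMetric g₀ ∧ IsMetric g₁ ∧
    SDefined g₀ ∧ SDefined g₁ ∧ NegSteklov g₀ 1 ∧ NegSteklov g₁ 1 ∧
    ¬ ∃ γ : ℝ → Pt → Matrix (Fin 3) (Fin 3) ℝ, IsCurve γ ∧ (∀ p ∈ slab, γ 0 p = g₀ p) ∧
      (∀ p ∈ slab, γ 1 p = g₁ p) ∧ ∀ t ∈ Icc (0 : ℝ) 1, SDefined (γ t) := by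
  have hpi := Real.pi_pos
  set ℓ : ℝ := Real.exp (-(3 * Real.pi)) with hℓ
  have hℓ0 : 0 < ℓ := Real.exp_pos _
  have hsmall : ∀ κ : ℝ, 0 < κ → κ ≤ 3 * Real.pi →
      ℓ ^ 2 * κ ^ 2 * Real.exp (2 * κ) ≤ 16 * Real.pi ^ 2 := by
    intro κ hκ hκ3
    have h1 : ℓ ^ 2 * Real.exp (2 * κ) ≤ 1 := by
      have e : ℓ ^ 2 = Real.exp (-(6 * Real.pi)) := by
        rw [hℓ, sq, ← Real.exp_add]
        congr 1
        ring
      rw [e, ← Real.exp_add, Real.exp_le_one_iff]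
      linarith
    have h2 : κ ^ 2 ≤ 9 * Real.pi ^ 2 := by nlinarith
    calc ℓ ^ 2 * κ ^ 2 * Real.exp (2 * κ) = κ ^ 2 * (ℓ ^ 2 * Real.exp (2 * κ)) := by ring
      _ ≤ κ ^ 2 * 1 := mul_le_mul_of_nonneg_left h1 (sq_nonneg κ)
      _ ≤ 16 * Real.pi ^ 2 := by nlinarith [sq_nonneg Real.pi]
  have hsin0 : Real.sin (Real.pi / 2) ≠ 0 := by rw [Real.sin_pi_div_two]; norm_num
  have hsin1 : Real.sin (3 * Real.pi / 2) ≠ 0 := by
    have e : 3 * Real.pi / 2 = Real.pi / 2 + Real.pi := by ring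
    rw [e, Real.sin_add_pi, Real.sin_pi_div_two]
    norm_num
  have hcos0 : Real.cos (Real.pi / 4) ≠ 0 := by
    rw [Real.cos_pi_div_four]
    positivity
  have hcos1 : Real.cos (3 * Real.pi / 4) ≠ 0 := by
    have e : 3 * Real.pi / 4 = Real.pi - Real.pi / 4 := by ring
    rw [e, Real.cos_pi_sub]
    exact neg_ne_zero.2 hcos0
  refine ⟨solMetric Real.pi ℓ, solMetric (3 * Real.pi) ℓ, isMetric_sol _ _ hℓ0,
    isMetric_sol _ _ hℓ0,
    sDefined_sol Real.pi ℓ hpi hℓ0 hsin0 (hsmall _ hpi (by linarith)),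
    sDefined_sol (3 * Real.pi) ℓ (by linarith) hℓ0 hsin1 (hsmall _ (by linarith) le_rfl),
    negSteklov_even _ _ hℓ0 hpi (by linarith),
    negSteklov_odd _ _ hℓ0 (by linarith) (by linarith), ?_⟩
  rintro ⟨γ, hγ, h0, h1, hS⟩
  have hw0 := isExt_congr h0 (isExt_w Real.pi ℓ hℓ0 hcos0)
  have hw1 := isExt_congr h1 (isExt_w (3 * Real.pi) ℓ hℓ0 hcos1)
  have hpos := curve_pos hγ hS hw0 (wSol_pos Real.pi hpi (by linarith)) hw1
  have hneg := wSol_neg (3 * Real.pi) (by linarith) (by linarith)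
  have hmem : (fun _ => 1 / 2 : Pt) ∈ slab := by
    change (1 / 2 : ℝ) ∈ Icc (0 : ℝ) 1
    constructor <;> norm_num
  exact absurd (hpos _ hmem) (not_lt.2 hneg.le)

end Pool.Agent.H13.Steklov
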