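import Pool.Agent.H13.Steklov.OdeExist

/-!
# STEK OdeBvp: boundary value problems (uses `ode_exist`, which may be assumed)

Paper proof of `bvp`. It is enough to treat the boundary values `(0, 1)` (apply it to `Q(1 - x)` for
`(1, 0)` and take linear combinations). `S'' = Q S`, `S(0) = 0`, `S'(0) = 1`: on `[0,1]`, `S ≥ 0`,
`S' ≥ 1` (e.g. `S > 0` on `(0, x]` for the first zero; or `(S S')' = S'^2 + Q S^2 ≥ 0`, so `S S' ≥ 0`, ...),
so `S(1) ≥ 1`. `ψ = S / S(1)` is increasing and convex on `[0,1]` with `ψ(0) = 0`, `ψ(1) = 1`, so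
`0 ≤ ψ ≤ 1`, `0 ≤ ψ'(0) ≤ 1`, and `ψ'(x) = ψ'(0) + ∫_0^x Q ψ ≤ 1 + K`.
`bvp_osc`: `c(x) = (a sin (w (1 - x)) + b sin (w x)) / sin w`.
-/

open scoped ContDiff Topology
open Set Filter

namespace Pool.Agent.H13.Steklov

lemma OdeBvp_hasDeriv {S : ℝ → ℝ} (hS : ContDiff ℝ ∞ S) (x : ℝ) : HasDerivAt S (deriv S x) x :=
  (hS.differentiable (by simp) x).hasDerivAt

lemma OdeBvp_contDiff_deriv {S : ℝ → ℝ} (hS : ContDiff ℝ ∞ S) : ContDiff ℝ ∞ (deriv S) := by
  exact (contDiff_infty_iff_deriv.1 hS).2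

lemma OdeBvp_mono {f f' : ℝ → ℝ} (hf : ∀ x, HasDerivAt f (f' x) x)
    (h : ∀ x ∈ Icc (0 : ℝ) 1, 0 ≤ f' x) : MonotoneOn f (Icc 0 1) := by
  apply monotoneOn_of_deriv_nonneg (convex_Icc 0 1)
  · exact fun x _ => (hf x).continuousAt.continuousWithinAt
  · exact fun x _ => (hf x).differentiableAt.differentiableWithinAt
  · intro x hx
    rw [(hf x).deriv]
    exact h x (interior_subset hx)

/-- boundary values `(0,1)` -/
lemma OdeBvp_one (Q : ℝ → ℝ) (hQ : ContDiff ℝ ∞ Q) (K : ℝ) (hQ0 : ∀ x ∈ Icc (0 : ℝ) 1, 0 ≤ Q x)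
    (hK : ∀ x ∈ Icc (0 : ℝ) 1, Q x ≤ K) :
    ∃ c : ℝ → ℝ, ContDiff ℝ ∞ c ∧ c 0 = 0 ∧ c 1 = 1 ∧ (∀ x, deriv (deriv c) x = Q x * c x) ∧
      ∀ x ∈ Icc (0 : ℝ) 1, |c x| ≤ 1 ∧ |deriv c x| ≤ 1 + K := by
  obtain ⟨T, hT, hT0, hT0', hTode⟩ := ode_exist Q hQ 0 1
  have hTd := OdeBvp_hasDeriv hT
  have hTd2 : ∀ x, HasDerivAt (deriv T) (Q x * T x) x := by
    intro x
    rw [← hTode x]
    exact OdeBvp_hasDeriv (OdeBvp_contDiff_deriv hT) x
  have h01 : (0 : ℝ) ∈ Icc (0 : ℝ) 1 := ⟨le_rfl, zero_le_one⟩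
  have h11 : (1 : ℝ) ∈ Icc (0 : ℝ) 1 := ⟨zero_le_one, le_rfl⟩
  have hK0 : 0 ≤ K := (hQ0 0 h01).trans (hK 0 h01)
  -- T T' monotone
  have h1 : MonotoneOn (fun x => T x * deriv T x) (Icc 0 1) := by
    apply OdeBvp_mono (f' := fun x => deriv T x * deriv T x + T x * (Q x * T x))
    · intro x; exact (hTd x).mul (hTd2 x)
    · intro x hx
      have := hQ0 x hx
      have e : deriv T x * deriv T x + T x * (Q x * T x) = (deriv T x) ^ 2 + Q x * (T x) ^ 2 := by ring
      rw [e]; positivity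
  have h2 : ∀ x ∈ Icc (0 : ℝ) 1, 0 ≤ T x * deriv T x := by
    intro x hx
    have := h1 h01 hx hx.1
    simp only [hT0, zero_mul] at this
    exact this
  have h3 : MonotoneOn (fun x => T x * T x) (Icc 0 1) := by
    apply OdeBvp_mono (f' := fun x => deriv T x * T x + T x * deriv T x)
    · intro x; exact (hTd x).mul (hTd x)
    · intro x hx
      have := h2 x hx
      nlinarith
  -- T > 0 just right of 0
  have h4 : ∀ᶠ x in 𝓝[>] (0 : ℝ), 0 < T x := by
    have hd : HasDerivAt T 1 0 := by rw [← hT0']; exact hTd 0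
    have hslope := hd.tendsto_slope_zero_right
    have hev := hslope.eventually (lt_mem_nhds (show (0 : ℝ) < 1 by norm_num))
    filter_upwards [hev, self_mem_nhdsWithin] with x hx hx0
    rw [zero_add, hT0, sub_zero, smul_eq_mul] at hx
    have hx0' : 0 < x := hx0
    have := (mul_pos_iff_of_pos_left (inv_pos.2 hx0')).1 hx
    exact this
  have h5 : ∀ x ∈ Icc (0 : ℝ) 1, 0 ≤ T x := by
    intro x hx
    by_contra hcon
    push Not at hcon
    have hx0 : 0 < x := by
      rcases hx.1.lt_or_eq with h | h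
      · exact h
      · exfalso; rw [← h, hT0] at hcon; exact lt_irrefl _ hcon
    have hev : ∀ᶠ y in 𝓝[>] (0 : ℝ), y < x := by
      exact mem_nhdsWithin_of_mem_nhds (gt_mem_nhds hx0)
    obtain ⟨e, he1, he2, he3⟩ := (h4.and (hev.and self_mem_nhdsWithin)).exists
    have he3' : 0 < e := he3
    have hcont : ContinuousOn T (Icc e x) := hT.continuous.continuousOn
    obtain ⟨z, hz, hz0⟩ := intermediate_value_Icc' he2.le hcont (show (0 : ℝ) ∈ Icc (T x) (T e) from ⟨hcon.le, he1.le⟩)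
    have := h3 (show e ∈ Icc (0 : ℝ) 1 from ⟨he3'.le, he2.le.trans hx.2⟩)
      (show z ∈ Icc (0 : ℝ) 1 from ⟨he3'.le.trans hz.1, hz.2.trans hx.2⟩) hz.1
    simp only [hz0, mul_zero] at this
    nlinarith
  have h6 : MonotoneOn (deriv T) (Icc 0 1) :=
    OdeBvp_mono hTd2 (fun x hx => mul_nonneg (hQ0 x hx) (h5 x hx))
  have h7 : ∀ x ∈ Icc (0 : ℝ) 1, 1 ≤ deriv T x := by
    intro x hx
    have := h6 h01 hx hx.1
    rwa [hT0'] at this
  have h8 : MonotoneOn (fun x => T x - x) (Icc 0 1) := by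
    apply OdeBvp_mono (f' := fun x => deriv T x - 1)
    · intro x; exact (hTd x).sub (hasDerivAt_id x)
    · intro x hx; have := h7 x hx; linarith
  have h9 : 1 ≤ T 1 := by
    have := h8 h01 h11 zero_le_one
    simp only [hT0] at this
    linarith
  have hTpos : 0 < T 1 := by linarith
  have hTm : MonotoneOn T (Icc 0 1) :=
    OdeBvp_mono hTd (fun x hx => by have := h7 x hx; linarith)
  -- normalise
  set c : ℝ → ℝ := fun x => (T 1)⁻¹ * T x with hc
  have hcs : ContDiff ℝ ∞ c := contDiff_const.mul hT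
  have hcd : ∀ x, HasDerivAt c ((T 1)⁻¹ * deriv T x) x := fun x => (hTd x).const_mul _
  have hcd' : deriv c = fun x => (T 1)⁻¹ * deriv T x := funext fun x => (hcd x).deriv
  have hcd2 : ∀ x, HasDerivAt (deriv c) (Q x * c x) x := by
    intro x
    rw [hcd']
    have := (hTd2 x).const_mul (T 1)⁻¹
    have e : Q x * c x = (T 1)⁻¹ * (Q x * T x) := by simp only [hc]; ring
    rw [e]; exact this
  have hinv : 0 < (T 1)⁻¹ := inv_pos.2 hTpos
  have hc01 : ∀ x ∈ Icc (0 : ℝ) 1, 0 ≤ c x ∧ c x ≤ 1 := by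
    intro x hx
    constructor
    · exact mul_nonneg hinv.le (h5 x hx)
    · have := hTm hx h11 hx.2
      simp only [hc]
      rw [inv_mul_le_iff₀ hTpos]; linarith
  have hcd0 : ∀ x ∈ Icc (0 : ℝ) 1, 0 ≤ deriv c x := by
    intro x hx
    rw [hcd']
    have := h7 x hx
    exact mul_nonneg hinv.le (by linarith)
  have hcdm : MonotoneOn (deriv c) (Icc 0 1) :=
    OdeBvp_mono hcd2 (fun x hx => mul_nonneg (hQ0 x hx) (hc01 x hx).1)
  have hc1 : c 1 = 1 := by simp only [hc]; field_simp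
  have hc0 : c 0 = 0 := by simp [hc, hT0]
  have hslope0 : deriv c 0 ≤ 1 := by
    have hm : MonotoneOn (fun x => c x - deriv c 0 * x) (Icc 0 1) := by
      apply OdeBvp_mono (f' := fun x => deriv c x - deriv c 0 * 1)
      · intro x
        exact (OdeBvp_hasDeriv hcs x).sub ((hasDerivAt_id x).const_mul _)
      · intro x hx
        have := hcdm h01 hx hx.1
        linarith
    have := hm h01 h11 zero_le_one
    simp only [hc1, hc0] at this
    linarith
  have hder : ∀ x ∈ Icc (0 : ℝ) 1, deriv c x ≤ 1 + K := by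
    intro x hx
    have hm : MonotoneOn (fun x => K * x - deriv c x) (Icc 0 1) := by
      apply OdeBvp_mono (f' := fun x => K * 1 - Q x * c x)
      · intro x
        exact ((hasDerivAt_id x).const_mul _).sub (hcd2 x)
      · intro x hx
        have h1 := hc01 x hx
        have h2 := hQ0 x hx
        have h3 := hK x hx
        nlinarith [mul_le_mul h3 h1.2 h1.1 hK0]
    have := hm h01 hx hx.1
    simp only [mul_zero, zero_sub] at this
    have : deriv c x ≤ K * x + deriv c 0 := by linarith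
    have h2 : K * x ≤ K := by nlinarith [hx.2]
    linarith
  refine ⟨c, hcs, hc0, hc1, fun x => (hcd2 x).deriv, fun x hx => ⟨?_, ?_⟩⟩
  · rw [abs_of_nonneg (hc01 x hx).1]; exact (hc01 x hx).2
  · rw [abs_of_nonneg (hcd0 x hx)]; exact hder x hx

theorem bvp (Q : ℝ → ℝ) (hQ : ContDiff ℝ ∞ Q) (K : ℝ) (hQ0 : ∀ x ∈ Icc (0 : ℝ) 1, 0 ≤ Q x)
    (hK : ∀ x ∈ Icc (0 : ℝ) 1, Q x ≤ K) (a b : ℝ) :
    ∃ c : ℝ → ℝ, ContDiff ℝ ∞ c ∧ c 0 = a ∧ c 1 = b ∧ (∀ x, deriv (deriv c) x = Q x * c x) ∧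
      ∀ x ∈ Icc (0 : ℝ) 1, |c x| ≤ |a| + |b| ∧ |deriv c x| ≤ (1 + K) * (|a| + |b|) := by
  obtain ⟨c1, h1s, h10, h11, h1o, h1b⟩ := OdeBvp_one Q hQ K hQ0 hK
  have hmem : ∀ x ∈ Icc (0 : ℝ) 1, 1 - x ∈ Icc (0 : ℝ) 1 := fun x hx =>
    ⟨by linarith [hx.2], by linarith [hx.1]⟩
  obtain ⟨c2, h2s, h20, h21, h2o, h2b⟩ := OdeBvp_one (fun x => Q (1 - x))
    (hQ.comp (contDiff_const.sub contDiff_id)) K (fun x hx => hQ0 _ (hmem x hx))
    (fun x hx => hK _ (hmem x hx))
  set c0 : ℝ → ℝ := fun x => c2 (1 - x) with hc0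
  have h0s : ContDiff ℝ ∞ c0 := h2s.comp (contDiff_const.sub contDiff_id)
  have hsub : ∀ x : ℝ, HasDerivAt (fun x : ℝ => 1 - x) (-1) x := fun x => by
    have := (hasDerivAt_id x).const_sub 1
    exact this
  have h0d : ∀ x, HasDerivAt c0 (- deriv c2 (1 - x)) x := by
    intro x
    have h := (OdeBvp_hasDeriv h2s (1 - x)).comp x (hsub x)
    have e : - deriv c2 (1 - x) = deriv c2 (1 - x) * (-1) := by ring
    rw [e]; exact h
  have h0d' : deriv c0 = fun x => - deriv c2 (1 - x) := funext fun x => (h0d x).deriv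
  have h0d2 : ∀ x, HasDerivAt (deriv c0) (Q x * c0 x) x := by
    intro x
    rw [h0d']
    have h := ((OdeBvp_hasDeriv (OdeBvp_contDiff_deriv h2s) (1 - x)).comp x (hsub x)).neg
    rw [h2o (1 - x)] at h
    have e : Q x * c0 x = -(Q (1 - (1 - x)) * c2 (1 - x) * (-1)) := by
      rw [show (1 : ℝ) - (1 - x) = x by ring]; simp only [hc0]; ring
    rw [e]; exact h
  refine ⟨fun x => a * c0 x + b * c1 x, (contDiff_const.mul h0s).add (contDiff_const.mul h1s), ?_, ?_, ?_, ?_⟩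
  · simp [hc0, h21, h10]
  · simp [hc0, h20, h11]
  · have hd1 : deriv (fun x => a * c0 x + b * c1 x) = fun x => a * deriv c0 x + b * deriv c1 x := by
      funext x
      exact (((OdeBvp_hasDeriv h0s x).const_mul a).add ((OdeBvp_hasDeriv h1s x).const_mul b)).deriv
    intro x
    rw [hd1]
    have h1d2 : HasDerivAt (deriv c1) (Q x * c1 x) x := by
      rw [← h1o x]; exact OdeBvp_hasDeriv (OdeBvp_contDiff_deriv h1s) x
    have h3 : HasDerivAt (fun x => a * deriv c0 x + b * deriv c1 x)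
      (a * (Q x * c0 x) + b * (Q x * c1 x)) x := ((h0d2 x).const_mul a).add (h1d2.const_mul b)
    rw [h3.deriv]
    ring
  · have hd1 : deriv (fun x => a * c0 x + b * c1 x) = fun x => a * deriv c0 x + b * deriv c1 x := by
      funext x
      exact (((OdeBvp_hasDeriv h0s x).const_mul a).add ((OdeBvp_hasDeriv h1s x).const_mul b)).deriv
    intro x hx
    have e1 := h1b x hx
    have e2 := h2b (1 - x) (hmem x hx)
    rw [hd1, h0d']
    constructor
    · calc |a * c0 x + b * c1 x| ≤ |a * c0 x| + |b * c1 x| := abs_add_le _ _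
        _ = |a| * |c2 (1 - x)| + |b| * |c1 x| := by rw [abs_mul, abs_mul]
        _ ≤ |a| * 1 + |b| * 1 := add_le_add (mul_le_mul_of_nonneg_left e2.1 (abs_nonneg _))
            (mul_le_mul_of_nonneg_left e1.1 (abs_nonneg _))
        _ = |a| + |b| := by ring
    · calc |a * -deriv c2 (1 - x) + b * deriv c1 x| ≤ |a * -deriv c2 (1 - x)| + |b * deriv c1 x| := abs_add_le _ _
        _ = |a| * |deriv c2 (1 - x)| + |b| * |deriv c1 x| := by rw [abs_mul, abs_mul, abs_neg]
        _ ≤ |a| * (1 + K) + |b| * (1 + K) := add_le_add (mul_le_mul_of_nonneg_left e2.2 (abs_nonneg _))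
            (mul_le_mul_of_nonneg_left e1.2 (abs_nonneg _))
        _ = (1 + K) * (|a| + |b|) := by ring

theorem bvp_osc (w : ℝ) (hw : Real.sin w ≠ 0) (a b : ℝ) :
    ∃ c : ℝ → ℝ, ContDiff ℝ ∞ c ∧ c 0 = a ∧ c 1 = b ∧ ∀ x, deriv (deriv c) x = -w ^ 2 * c x := by
  have hin1 : ∀ x : ℝ, HasDerivAt (fun x : ℝ => w * (1 - x)) (-w) x := fun x => by
    have := ((hasDerivAt_id x).const_sub 1).const_mul w
    rw [show -w = w * -1 by ring]; exact this
  have hin2 : ∀ x : ℝ, HasDerivAt (fun x : ℝ => w * x) w x := fun x => by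
    have := (hasDerivAt_id x).const_mul w
    rw [mul_one] at this; exact this
  set c : ℝ → ℝ := fun x => (Real.sin w)⁻¹ * (a * Real.sin (w * (1 - x)) + b * Real.sin (w * x)) with hc
  have hd1 : ∀ x, HasDerivAt c ((Real.sin w)⁻¹ * (a * (Real.cos (w * (1 - x)) * (-w)) + b * (Real.cos (w * x) * w))) x := by
    intro x
    exact (((hin1 x).sin.const_mul a).add ((hin2 x).sin.const_mul b)).const_mul _
  have hd1' : deriv c = fun x => (Real.sin w)⁻¹ * (a * (Real.cos (w * (1 - x)) * (-w)) + b * (Real.cos (w * x) * w)) :=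
    funext fun x => (hd1 x).deriv
  refine ⟨c, ?_, ?_, ?_, ?_⟩
  · apply contDiff_const.mul
    apply ContDiff.add
    · exact contDiff_const.mul (Real.contDiff_sin.comp (contDiff_const.mul (contDiff_const.sub contDiff_id)))
    · exact contDiff_const.mul (Real.contDiff_sin.comp (contDiff_const.mul contDiff_id))
  · simp only [hc, sub_zero, mul_one, mul_zero, Real.sin_zero, add_zero]
    field_simp
  · simp only [hc, sub_self, mul_zero, Real.sin_zero, mul_one, zero_add]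
    field_simp
  · intro x
    rw [hd1']
    have h : HasDerivAt (fun x => (Real.sin w)⁻¹ * (a * (Real.cos (w * (1 - x)) * -w) + b * (Real.cos (w * x) * w)))
      ((Real.sin w)⁻¹ * (a * (-Real.sin (w * (1 - x)) * -w * -w) + b * (-Real.sin (w * x) * w * w))) x :=
      ((((hin1 x).cos.mul_const (-w)).const_mul a).add (((hin2 x).cos.mul_const w).const_mul b)).const_mul (Real.sin w)⁻¹
    rw [h.deriv]
    simp only [hc]
    ring

end Pool.Agent.H13.Steklov
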