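import Mathlib

/-!
# STEK OdeExist: linear second order initial value problems

Paper proof. Global solution of `S'' = Q S` on `ℝ`: Picard series `S = ∑ S_n`,
`S_0 = a + b x`, `S_{n+1}(x) = ∫_0^x ∫_0^t Q(s) S_n(s) ds dt`,
`|S_n| ≤ (|a| + |b| R) (K R |x|)^n / n!` on `[-R, R]`. Smoothness by bootstrapping `S'' = Q S`.
-/

open scoped ContDiff Topology
open Set Filter

namespace Pool.Agent.H13.Steklov

/-- Picard iterates. -/
noncomputable def OdeExist.it (Q : ℝ → ℝ) (a b : ℝ) : ℕ → ℝ → ℝ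
  | 0 => fun x => a + b * x
  | n + 1 => fun x => ∫ t in (0:ℝ)..x, ∫ s in (0:ℝ)..t, Q s * OdeExist.it Q a b n s

/-- Inner integrals of the Picard iterates. -/
noncomputable def OdeExist.du (Q : ℝ → ℝ) (a b : ℝ) (n : ℕ) (x : ℝ) : ℝ :=
  ∫ s in (0:ℝ)..x, Q s * OdeExist.it Q a b n s

theorem OdeExist.it_succ (Q : ℝ → ℝ) (a b : ℝ) (n : ℕ) (x : ℝ) :
    OdeExist.it Q a b (n + 1) x = ∫ t in (0:ℝ)..x, OdeExist.du Q a b n t := rfl

theorem OdeExist.cont_prim {f : ℝ → ℝ} (hf : Continuous f) :
    Continuous fun x => ∫ t in (0:ℝ)..x, f t := by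
  rw [continuous_iff_continuousAt]
  intro x
  exact (hf.integral_hasStrictDerivAt 0 x).hasDerivAt.continuousAt

theorem OdeExist.it_cont {Q : ℝ → ℝ} (hQ : Continuous Q) (a b : ℝ) (n : ℕ) :
    Continuous (OdeExist.it Q a b n) := by
  induction n with
  | zero => exact continuous_const.add (continuous_const.mul continuous_id)
  | succ n ih => exact OdeExist.cont_prim (OdeExist.cont_prim (hQ.mul ih))

theorem OdeExist.du_cont {Q : ℝ → ℝ} (hQ : Continuous Q) (a b : ℝ) (n : ℕ) :
    Continuous (OdeExist.du Q a b n) :=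
  OdeExist.cont_prim (hQ.mul (OdeExist.it_cont hQ a b n))

theorem OdeExist.mem_abs {x s : ℝ} (hs : s ∈ Set.uIoc (0:ℝ) x) : |s| ≤ |x| := by
  rw [mem_uIoc] at hs
  rcases hs with ⟨h1, h2⟩ | ⟨h1, h2⟩
  · rw [abs_of_pos h1, abs_of_pos (h1.trans_le h2)]; exact h2
  · rw [abs_of_nonpos h2, abs_of_neg (h1.trans_le h2)]; linarith

theorem OdeExist.int_bound {f : ℝ → ℝ} {c x : ℝ} (n : ℕ)
    (h : ∀ s, |s| ≤ |x| → |f s| ≤ c * |s| ^ n) :
    |∫ s in (0:ℝ)..x, f s| ≤ |c| * (|x| ^ (n + 1) / (n + 1)) := by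
  have h1 : ‖∫ s in (0:ℝ)..x, f s‖ ≤ |∫ s in (0:ℝ)..x, c * |s| ^ n| := by
    apply intervalIntegral.norm_integral_le_abs_of_norm_le
    · apply MeasureTheory.ae_restrict_of_forall_mem measurableSet_uIoc
      intro s hs
      exact h s (OdeExist.mem_abs hs)
    · exact (continuous_const.mul (continuous_abs.pow n)).intervalIntegrable _ _
  rw [Real.norm_eq_abs] at h1
  refine h1.trans (le_of_eq ?_)
  rw [intervalIntegral.integral_const_mul, abs_mul]
  congr 1
  rw [intervalIntegral.abs_integral_eq_abs_integral_uIoc]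
  have h2 := integral_pow_abs_sub_uIoc (a := 0) (b := x) n
  simp only [sub_zero] at h2
  rw [h2, abs_of_nonneg (by positivity)]

theorem OdeExist.bounds {Q : ℝ → ℝ} (a b : ℝ) {R K : ℝ} (hR : 0 ≤ R)
    (hK : ∀ x, |x| ≤ R → |Q x| ≤ K) (n : ℕ) (x : ℝ) (hx : |x| ≤ R) :
    |OdeExist.it Q a b n x| ≤ (|a| + |b| * R) * ((K * R) ^ n / n.factorial) * |x| ^ n ∧
      |OdeExist.du Q a b n x| ≤
        K * ((|a| + |b| * R) * ((K * R) ^ n / n.factorial)) * (|x| ^ (n + 1) / (n + 1)) := by
  have hK0 : 0 ≤ K := (abs_nonneg _).trans (hK 0 (by simpa using hR))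
  have step : ∀ (n : ℕ) (c : ℝ), 0 ≤ c →
      (∀ x, |x| ≤ R → |OdeExist.it Q a b n x| ≤ c * |x| ^ n) →
      ∀ x, |x| ≤ R → |OdeExist.du Q a b n x| ≤ K * c * (|x| ^ (n + 1) / (n + 1)) := by
    intro n c hc h x hx
    have h1 := OdeExist.int_bound (f := fun s => Q s * OdeExist.it Q a b n s) (c := K * c)
      (x := x) n (by
        intro s hs
        rw [abs_mul, mul_assoc]
        exact mul_le_mul (hK s (hs.trans hx)) (h s (hs.trans hx)) (abs_nonneg _) hK0)
    rw [abs_of_nonneg (mul_nonneg hK0 hc)] at h1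
    exact h1
  have main : ∀ n : ℕ, ∀ x, |x| ≤ R →
      |OdeExist.it Q a b n x| ≤ (|a| + |b| * R) * ((K * R) ^ n / n.factorial) * |x| ^ n := by
    intro n
    induction n with
    | zero =>
      intro x hx
      simp only [OdeExist.it, pow_zero, Nat.factorial_zero, Nat.cast_one, div_one, mul_one]
      calc |a + b * x| ≤ |a| + |b * x| := abs_add_le _ _
        _ ≤ |a| + |b| * R := by
          rw [abs_mul]
          gcongr
    | succ n ih =>
      intro x hx
      have hc : 0 ≤ (|a| + |b| * R) * ((K * R) ^ n / n.factorial) := by positivity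
      have h1 := step n _ hc ih
      rw [OdeExist.it_succ]
      have h2 := OdeExist.int_bound (f := OdeExist.du Q a b n)
        (c := K * ((|a| + |b| * R) * ((K * R) ^ n / n.factorial)) * (|x| ^ (n + 1) / (n + 1)))
        (x := x) 0 (by
          intro s hs
          rw [pow_zero, mul_one]
          refine (h1 s (hs.trans hx)).trans ?_
          gcongr)
      have hc2 : 0 ≤ K * ((|a| + |b| * R) * ((K * R) ^ n / n.factorial)) *
          (|x| ^ (n + 1) / (n + 1)) := by positivity
      rw [abs_of_nonneg hc2] at h2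
      refine h2.trans ?_
      rw [Nat.factorial_succ]
      push_cast
      have h3 : |x| ^ (0 + 1) / ((0 : ℝ) + 1) ≤ R := by simpa using hx
      have h4 : K * ((|a| + |b| * R) * ((K * R) ^ n / n.factorial)) *
          (|x| ^ (n + 1) / (n + 1)) * R = (|a| + |b| * R) *
          ((K * R) ^ (n + 1) / ((n + 1) * n.factorial)) * |x| ^ (n + 1) := by
        have : (n.factorial : ℝ) ≠ 0 := by positivity
        have : (n : ℝ) + 1 ≠ 0 := by positivity
        field_simp
        ring
      rw [← h4]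
      refine mul_le_mul_of_nonneg_left ?_ hc2
      exact_mod_cast h3
  refine ⟨main n x hx, step n _ (by positivity) (main n) x hx⟩

/-- Uniform summable bounds on `[-R, R]`. -/
theorem OdeExist.unif {Q : ℝ → ℝ} (hQ : Continuous Q) (a b : ℝ) {R : ℝ} (hR : 0 ≤ R) :
    ∃ u : ℕ → ℝ, Summable u ∧ ∀ n x, |x| ≤ R →
      |OdeExist.it Q a b n x| ≤ u n ∧ |OdeExist.du Q a b n x| ≤ u n ∧
        |Q x * OdeExist.it Q a b n x| ≤ u n := by
  obtain ⟨K, hK⟩ := (isCompact_Icc (a := -R) (b := R)).exists_bound_of_continuousOn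
    hQ.continuousOn
  have hK' : ∀ x, |x| ≤ R → |Q x| ≤ K := fun x hx => hK x (abs_le.mp hx)
  have hK0 : 0 ≤ K := (abs_nonneg _).trans (hK' 0 (by simpa using hR))
  refine ⟨fun n => ((|a| + |b| * R) * (1 + K + K * R)) * ((K * R * R) ^ n / n.factorial), ?_, ?_⟩
  · exact (Real.summable_pow_div_factorial (K * R * R)).mul_left _
  · intro n x hx
    obtain ⟨h1, h2⟩ := OdeExist.bounds a b hR hK' n x hx
    have hp : |x| ^ n ≤ R ^ n := pow_le_pow_left₀ (abs_nonneg _) hx n
    have hp' : |x| ^ (n + 1) / (n + 1) ≤ R ^ n * R := by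
      have e1 : |x| ^ (n + 1) ≤ R ^ (n + 1) := pow_le_pow_left₀ (abs_nonneg _) hx (n + 1)
      have e2 : |x| ^ (n + 1) / ((n : ℝ) + 1) ≤ |x| ^ (n + 1) := by
        apply div_le_self (by positivity)
        have : (0 : ℝ) ≤ n := Nat.cast_nonneg n
        linarith
      rw [← pow_succ]
      exact e2.trans e1
    have hA : 0 ≤ (|a| + |b| * R) * ((K * R) ^ n / n.factorial) := by positivity
    have e0 : (|a| + |b| * R) * ((K * R) ^ n / n.factorial) * R ^ n =
        (|a| + |b| * R) * ((K * R * R) ^ n / n.factorial) := by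
      rw [mul_pow (K * R) R]; ring
    have hB : 0 ≤ (|a| + |b| * R) * ((K * R * R) ^ n / n.factorial) := by positivity
    have b1 : |OdeExist.it Q a b n x| ≤ (|a| + |b| * R) * ((K * R * R) ^ n / n.factorial) := by
      rw [← e0]
      exact h1.trans (mul_le_mul_of_nonneg_left hp hA)
    refine ⟨?_, ?_, ?_⟩
    · refine b1.trans ?_
      have : 0 ≤ (K + K * R) * ((|a| + |b| * R) * ((K * R * R) ^ n / n.factorial)) := by
        positivity
      linarith
    · have b2 : |OdeExist.du Q a b n x| ≤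
          K * R * ((|a| + |b| * R) * ((K * R * R) ^ n / n.factorial)) := by
        refine h2.trans ?_
        rw [← e0]
        calc K * ((|a| + |b| * R) * ((K * R) ^ n / n.factorial)) * (|x| ^ (n + 1) / (n + 1))
            ≤ K * ((|a| + |b| * R) * ((K * R) ^ n / n.factorial)) * (R ^ n * R) := by
              gcongr
          _ = _ := by ring
      refine b2.trans ?_
      have : 0 ≤ (1 + K) * ((|a| + |b| * R) * ((K * R * R) ^ n / n.factorial)) := by
        positivity
      linarith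
    · rw [abs_mul]
      have b3 : |Q x| * |OdeExist.it Q a b n x| ≤
          K * ((|a| + |b| * R) * ((K * R * R) ^ n / n.factorial)) :=
        mul_le_mul (hK' x hx) b1 (abs_nonneg _) hK0
      refine b3.trans ?_
      have : 0 ≤ (1 + K * R) * ((|a| + |b| * R) * ((K * R * R) ^ n / n.factorial)) := by
        positivity
      linarith

/-- Continuity of a locally uniformly summable series. -/
theorem OdeExist.cont_tsum {f : ℕ → ℝ → ℝ} (hf : ∀ n, Continuous (f n))
    (h : ∀ R : ℝ, 0 ≤ R → ∃ u : ℕ → ℝ, Summable u ∧ ∀ n x, |x| ≤ R → |f n x| ≤ u n) :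
    Continuous fun x => ∑' n, f n x := by
  rw [continuous_iff_continuousAt]
  intro x
  obtain ⟨u, hu, hb⟩ := h (|x| + 1) (by positivity)
  have h1 : ContinuousOn (fun x => ∑' n, f n x) (Icc (-(|x| + 1)) (|x| + 1)) :=
    continuousOn_tsum (fun n => (hf n).continuousOn) hu (fun n y hy => hb n y (abs_le.mpr hy))
  apply h1.continuousAt
  apply Icc_mem_nhds
  · have := neg_abs_le x; linarith
  · have := le_abs_self x; linarith

/-- Termwise integration. -/
theorem OdeExist.int_tsum {f : ℕ → ℝ → ℝ} (hf : ∀ n, Continuous (f n))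
    (h : ∀ R : ℝ, 0 ≤ R → ∃ u : ℕ → ℝ, Summable u ∧ ∀ n x, |x| ≤ R → |f n x| ≤ u n) (x : ℝ) :
    HasSum (fun n => ∫ t in (0:ℝ)..x, f n t) (∫ t in (0:ℝ)..x, ∑' n, f n t) := by
  obtain ⟨u, hu, hb⟩ := h |x| (abs_nonneg _)
  apply intervalIntegral.hasSum_integral_of_dominated_convergence (fun n _ => u n)
  · intro n
    exact (hf n).aestronglyMeasurable
  · intro n
    exact Filter.Eventually.of_forall fun t ht => hb n t (OdeExist.mem_abs ht)
  · exact Filter.Eventually.of_forall fun t _ => hu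
  · exact intervalIntegrable_const
  · refine Filter.Eventually.of_forall fun t ht => ?_
    have : Summable fun n => f n t :=
      Summable.of_norm_bounded hu (fun n => hb n t (OdeExist.mem_abs ht))
    exact this.hasSum

theorem ode_exist (Q : ℝ → ℝ) (hQ : ContDiff ℝ ∞ Q) (a b : ℝ) :
    ∃ S : ℝ → ℝ, ContDiff ℝ ∞ S ∧ S 0 = a ∧ deriv S 0 = b ∧
      ∀ x, deriv (deriv S) x = Q x * S x := by
  have hQc : Continuous Q := hQ.continuous
  have b1 : ∀ R : ℝ, 0 ≤ R → ∃ u : ℕ → ℝ, Summable u ∧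
      ∀ n x, |x| ≤ R → |OdeExist.it Q a b n x| ≤ u n := by
    intro R hR
    obtain ⟨u, hu, h⟩ := OdeExist.unif hQc a b hR
    exact ⟨u, hu, fun n x hx => (h n x hx).1⟩
  have b2 : ∀ R : ℝ, 0 ≤ R → ∃ u : ℕ → ℝ, Summable u ∧
      ∀ n x, |x| ≤ R → |OdeExist.du Q a b n x| ≤ u n := by
    intro R hR
    obtain ⟨u, hu, h⟩ := OdeExist.unif hQc a b hR
    exact ⟨u, hu, fun n x hx => (h n x hx).2.1⟩
  have b3 : ∀ R : ℝ, 0 ≤ R → ∃ u : ℕ → ℝ, Summable u ∧
      ∀ n x, |x| ≤ R → |Q x * OdeExist.it Q a b n x| ≤ u n := by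
    intro R hR
    obtain ⟨u, hu, h⟩ := OdeExist.unif hQc a b hR
    exact ⟨u, hu, fun n x hx => (h n x hx).2.2⟩
  set S : ℝ → ℝ := fun x => ∑' n, OdeExist.it Q a b n x with hS
  set W : ℝ → ℝ := fun x => ∑' n, OdeExist.du Q a b n x with hW
  have cS : Continuous S := OdeExist.cont_tsum (fun n => OdeExist.it_cont hQc a b n) b1
  have cW : Continuous W := OdeExist.cont_tsum (fun n => OdeExist.du_cont hQc a b n) b2
  have sS : ∀ x, Summable fun n => OdeExist.it Q a b n x := by
    intro x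
    obtain ⟨u, hu, hb⟩ := b1 |x| (abs_nonneg _)
    exact Summable.of_norm_bounded hu (fun n => hb n x le_rfl)
  have eS : ∀ x, S x = a + b * x + ∫ t in (0:ℝ)..x, W t := by
    intro x
    have h1 := (OdeExist.int_tsum (fun n => OdeExist.du_cont hQc a b n) b2 x).tsum_eq
    rw [hS]
    simp only
    rw [(sS x).tsum_eq_zero_add]
    simp only [OdeExist.it_succ]
    rw [h1]
    rfl
  have eW : ∀ x, W x = ∫ t in (0:ℝ)..x, Q t * S t := by
    intro x
    have h1 := (OdeExist.int_tsum (f := fun n t => Q t * OdeExist.it Q a b n t)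
      (fun n => hQc.mul (OdeExist.it_cont hQc a b n)) b3 x).tsum_eq
    simp only [tsum_mul_left] at h1
    rw [hW]
    exact h1
  have dS : ∀ x, HasDerivAt S (b + W x) x := by
    intro x
    have h1 : HasDerivAt (fun x => a + b * x + ∫ t in (0:ℝ)..x, W t) (b + W x) x := by
      have h2 := (cW.integral_hasStrictDerivAt 0 x).hasDerivAt
      have h3 : HasDerivAt (fun x : ℝ => a + b * x) b x := by
        simpa using ((hasDerivAt_id x).const_mul b).const_add a
      exact h3.add h2
    have h4 : S = fun x => a + b * x + ∫ t in (0:ℝ)..x, W t := funext eS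
    rw [h4]
    exact h1
  have dW : ∀ x, HasDerivAt W (Q x * S x) x := by
    intro x
    have h4 : W = fun x => ∫ t in (0:ℝ)..x, Q t * S t := funext eW
    have h2 := ((hQc.mul cS).integral_hasStrictDerivAt 0 x).hasDerivAt
    rw [h4]
    exact h2
  have deS : deriv S = fun x => b + W x := funext fun x => (dS x).deriv
  have deW : deriv W = fun x => Q x * S x := funext fun x => (dW x).deriv
  have smooth : ∀ n : ℕ, ContDiff ℝ n S ∧ ContDiff ℝ n W := by
    intro n
    induction n with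
    | zero => exact ⟨contDiff_zero.mpr cS, contDiff_zero.mpr cW⟩
    | succ n ih =>
      have hQn : ContDiff ℝ n Q := hQ.of_le (by exact_mod_cast le_top)
      constructor
      · push_cast
        rw [contDiff_succ_iff_deriv]
        refine ⟨fun x => (dS x).differentiableAt, by simp, ?_⟩
        rw [deS]
        exact contDiff_const.add ih.2
      · push_cast
        rw [contDiff_succ_iff_deriv]
        refine ⟨fun x => (dW x).differentiableAt, by simp, ?_⟩
        rw [deW]
        exact hQn.mul ih.1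
  have W0 : W 0 = 0 := by rw [eW]; simp
  refine ⟨S, contDiff_infty.mpr fun n => (smooth n).1, ?_, ?_, ?_⟩
  · rw [eS]; simp
  · rw [deS]; simp [W0]
  · intro x
    rw [deS]
    have : HasDerivAt (fun x => b + W x) (Q x * S x) x := (dW x).const_add b
    exact this.deriv

end Pool.Agent.H13.Steklov
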