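import Pool.Agent.H13.Steklov.Basic

/-! # Linearity of the conformal Laplacian -/

open scoped ContDiff Topology
open Set Filter

namespace Pool.Agent.H13.Steklov

/-- First order coefficient of the Laplacian. -/
noncomputable def coefB (g : Pt → Matrix (Fin 3) (Fin 3) ℝ) (k : Fin 3) (p : Pt) : ℝ :=
  ∑ i, ∑ j, (g p)⁻¹ i j * christ g k i j p

theorem confLap_eq (g : Pt → Matrix (Fin 3) (Fin 3) ℝ) (u : Pt → ℝ) (p : Pt) :
    confLap g u p = -∑ i, ∑ j, (g p)⁻¹ i j * pd i (pd j u) p + ∑ k, coefB g k p * pd k u p +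
      (1 / 8) * scal g p * u p := by
  unfold confLap lap coefB
  have h : ∑ i, ∑ j, (g p)⁻¹ i j * (pd i (pd j u) p - ∑ k, christ g k i j p * pd k u p) =
      ∑ i, ∑ j, (g p)⁻¹ i j * pd i (pd j u) p -
        ∑ k, (∑ i, ∑ j, (g p)⁻¹ i j * christ g k i j p) * pd k u p := by
    simp only [mul_sub, Finset.sum_sub_distrib, Finset.mul_sum, Finset.sum_mul]
    congr 1
    rw [Finset.sum_comm_cycle]
    refine Finset.sum_congr rfl fun k _ => Finset.sum_congr rfl fun i _ =>
      Finset.sum_congr rfl fun j _ => ?_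
    ring
  rw [h]
  ring

theorem confLap_congr (g : Pt → Matrix (Fin 3) (Fin 3) ℝ) {u v : Pt → ℝ} (h : EqOn u v slab)
    {p : Pt} (hp : p ∈ slab) : confLap g u p = confLap g v p := by
  rw [confLap_eq, confLap_eq]
  have h1 : ∀ j, EqOn (pd j u) (pd j v) slab := fun j => pd_congr h j
  have h2 : ∀ i j, pd i (pd j u) p = pd i (pd j v) p := fun i j => pd_congr (h1 j) i hp
  simp only [h2]
  rw [h hp]
  simp only [fun k => h1 k hp]

/-- Linearity. -/
theorem confLap_add_mul (g : Pt → Matrix (Fin 3) (Fin 3) ℝ) {u v : Pt → ℝ}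
    (hu : ContDiffOn ℝ ∞ u slab) (hv : ContDiffOn ℝ ∞ v slab) (a b : ℝ) {p : Pt} (hp : p ∈ slab) :
    confLap g (fun q => a * u q + b * v q) p = a * confLap g u p + b * confLap g v p := by
  have hau : ContDiffOn ℝ ∞ (fun q => a * u q) slab := contDiffOn_const.mul hu
  have hbv : ContDiffOn ℝ ∞ (fun q => b * v q) slab := contDiffOn_const.mul hv
  have h1 : ∀ j, EqOn (pd j fun q => a * u q + b * v q)
      (fun q => a * pd j u q + b * pd j v q) slab := by
    intro j q hq
    rw [pd_add hau hbv j hq, pd_const_mul a hu j hq, pd_const_mul b hv j hq]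
  have h2 : ∀ i j, pd i (pd j fun q => a * u q + b * v q) p =
      a * pd i (pd j u) p + b * pd i (pd j v) p := by
    intro i j
    rw [pd_congr (h1 j) i hp]
    rw [pd_add (contDiffOn_const.mul (contDiffOn_pd hu j))
      (contDiffOn_const.mul (contDiffOn_pd hv j)) i hp,
      pd_const_mul a (contDiffOn_pd hu j) i hp, pd_const_mul b (contDiffOn_pd hv j) i hp]
  rw [confLap_eq, confLap_eq, confLap_eq]
  simp only [h2, fun k => h1 k hp, mul_add, Finset.sum_add_distrib, neg_add]
  have e1 : ∀ (c : ℝ) (w : Fin 3 → Fin 3 → ℝ), ∑ i, ∑ j, (g p)⁻¹ i j * (c * w i j) =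
      c * ∑ i, ∑ j, (g p)⁻¹ i j * w i j := by
    intro c w
    simp only [Finset.mul_sum]
    refine Finset.sum_congr rfl fun i _ => Finset.sum_congr rfl fun j _ => ?_
    ring
  have e2 : ∀ (c : ℝ) (w : Fin 3 → ℝ), ∑ k, coefB g k p * (c * w k) =
      c * ∑ k, coefB g k p * w k := by
    intro c w
    simp only [Finset.mul_sum]
    refine Finset.sum_congr rfl fun i _ => ?_
    ring
  rw [e1, e1, e2, e2]
  ring

end Pool.Agent.H13.Steklov
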