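import Pool.Agent.H13.Steklov.Op

/-! # The explicit operator of the metric `dx² + ℓ² (e^{2κx} dy₁² + e^{-2κx} dy₂²)` -/

open Set

namespace Pool.Agent.H13.Steklov

/-- `P u = -u_xx - ℓ⁻² (e^{-2κx} u_11 + e^{2κx} u_22) - (κ²/4) u`. -/
noncomputable def solOp (κ ℓ : ℝ) (u : Pt → ℝ) (p : Pt) : ℝ :=
  -(pd 0 (pd 0 u) p) - (ℓ ^ 2)⁻¹ * (Real.exp (-(2 * κ * p 0)) * pd 1 (pd 1 u) p +
    Real.exp (2 * κ * p 0) * pd 2 (pd 2 u) p) - κ ^ 2 / 4 * u p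

/-- The potential of a Fourier mode. -/
noncomputable def pot (κ γ α β : ℝ) (x : ℝ) : ℝ :=
  α * Real.exp (-(2 * κ * x)) + β * Real.exp (2 * κ * x) - γ

end Pool.Agent.H13.Steklov
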