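import Pool.Agent.H13.Steklov.SolDefs

/-!
# STEK SolGeom: geometry of the metric `dx² + ℓ² (e^{2κx} dy₁² + e^{-2κx} dy₂²)`

Let `E = ℓ² e^{2κx}`, `G = ℓ² e^{-2κx}` (`x = p 0`). `(g p)⁻¹ = diag(1, 1/E, 1/G)`
(`Matrix.inv_diagonal` or directly). Non-zero Christoffel symbols (`christ g k i j`):
`Γ^0_11 = -κ E`, `Γ^0_22 = κ G`, `Γ^1_01 = Γ^1_10 = κ`, `Γ^2_02 = Γ^2_20 = -κ`. All are functions of
`p 0` on the slab (`pd_zero_fst`, `pd_succ_fst`, `pd_const`; state them as `EqOn` on the slab, then use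
`pd_congr`). Scalar curvature `-2 κ²`:
`R_00 = -∑_j pd 0 Γ^j_0j - Γ^1_01 Γ^1_10 - Γ^2_02 Γ^2_20 = -2κ²`, `R_11 = R_22 = 0`
(so `scal = 1 * (-2κ²)`). The first order term of the Laplacian is
`g^{11} Γ^0_11 + g^{22} Γ^0_22 = -κ + κ = 0`. Mean curvature:
`g^{11}(-s Γ^0_11) + g^{22}(-s Γ^0_22) = 0`.
-/

open scoped ContDiff Topology
open Set Filter

namespace Pool.Agent.H13.Steklov

/-- `ℓ² e^{2κx}` -/
noncomputable def solGeomE (κ ℓ x : ℝ) : ℝ := ℓ ^ 2 * Real.exp (2 * κ * x)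

/-- `ℓ² e^{-2κx}` -/
noncomputable def solGeomG (κ ℓ x : ℝ) : ℝ := ℓ ^ 2 * Real.exp (-(2 * κ * x))

theorem solGeom_E_pos (κ : ℝ) {ℓ : ℝ} (hℓ : 0 < ℓ) (x : ℝ) : 0 < solGeomE κ ℓ x := by
  unfold solGeomE; positivity

theorem solGeom_G_pos (κ : ℝ) {ℓ : ℝ} (hℓ : 0 < ℓ) (x : ℝ) : 0 < solGeomG κ ℓ x := by
  unfold solGeomG; positivity

theorem solGeom_E_contDiff (κ ℓ : ℝ) : ContDiff ℝ ∞ (solGeomE κ ℓ) := by
  unfold solGeomE; fun_prop

theorem solGeom_G_contDiff (κ ℓ : ℝ) : ContDiff ℝ ∞ (solGeomG κ ℓ) := by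
  unfold solGeomG; fun_prop

theorem solGeom_E_hasDerivAt (κ ℓ x : ℝ) :
    HasDerivAt (solGeomE κ ℓ) (2 * κ * solGeomE κ ℓ x) x := by
  unfold solGeomE
  have h1 : HasDerivAt (fun x : ℝ => 2 * κ * x) (2 * κ) x := by
    simpa using (hasDerivAt_id x).const_mul (2 * κ)
  exact ((h1.exp).const_mul (ℓ ^ 2)).congr_deriv (by ring)

theorem solGeom_G_hasDerivAt (κ ℓ x : ℝ) :
    HasDerivAt (solGeomG κ ℓ) (-(2 * κ * solGeomG κ ℓ x)) x := by
  unfold solGeomG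
  have h1 : HasDerivAt (fun x : ℝ => -(2 * κ * x)) (-(2 * κ)) x := by
    have h0 : HasDerivAt (fun x : ℝ => 2 * κ * x) (2 * κ) x := by
      simpa using (hasDerivAt_id x).const_mul (2 * κ)
    exact h0.fun_neg
  exact ((h1.exp).const_mul (ℓ ^ 2)).congr_deriv (by ring)

theorem solGeom_metric_eq (κ ℓ : ℝ) (p : Pt) :
    solMetric κ ℓ p = Matrix.diagonal ![1, solGeomE κ ℓ (p 0), solGeomG κ ℓ (p 0)] := rfl

theorem solGeom_inv {κ ℓ : ℝ} (hℓ : 0 < ℓ) (p : Pt) :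
    (solMetric κ ℓ p)⁻¹
      = Matrix.diagonal ![1, (solGeomE κ ℓ (p 0))⁻¹, (solGeomG κ ℓ (p 0))⁻¹] := by
  apply Matrix.inv_eq_right_inv
  rw [solGeom_metric_eq, Matrix.diagonal_mul_diagonal, ← Matrix.diagonal_one]
  congr 1
  have h1 := (solGeom_E_pos κ hℓ (p 0)).ne'
  have h2 := (solGeom_G_pos κ hℓ (p 0)).ne'
  funext i
  fin_cases i
  · simp
  · simp [h1]
  · simp [h2]

/-- table of the first derivatives of the metric -/
theorem solGeom_pd_g (κ ℓ : ℝ) {p : Pt} (hp : p ∈ slab) (k i j : Fin 3) :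
    pd k (fun q => solMetric κ ℓ q i j) p =
      if k = 0 ∧ i = j then
        (![0, 2 * κ * solGeomE κ ℓ (p 0), -(2 * κ * solGeomG κ ℓ (p 0))] : Fin 3 → ℝ) i
      else 0 := by
  by_cases hij : i = j
  · subst hij
    have h0 : (fun q : Pt => solMetric κ ℓ q i i)
        = fun q => (![1, solGeomE κ ℓ (q 0), solGeomG κ ℓ (q 0)] : Fin 3 → ℝ) i := by
      funext q
      rw [solGeom_metric_eq, Matrix.diagonal_apply_eq]
    rw [h0]
    have hE := (solGeom_E_hasDerivAt κ ℓ (p 0))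
    have hG := (solGeom_G_hasDerivAt κ ℓ (p 0))
    fin_cases i
    · simp [pd_const]
    · have h1 : (fun q : Pt => (![1, solGeomE κ ℓ (q 0), solGeomG κ ℓ (q 0)] : Fin 3 → ℝ)
          ((fun i => i) (⟨1, by norm_num⟩ : Fin 3))) = fun q => solGeomE κ ℓ (q 0) := by
        funext q; rfl
      rw [h1]
      by_cases hk : k = 0
      · subst hk
        rw [pd_zero_fst hp hE.differentiableAt, hE.deriv]
        simp
      · rw [pd_succ_fst hp hE.differentiableAt hk]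
        simp [hk]
    · have h1 : (fun q : Pt => (![1, solGeomE κ ℓ (q 0), solGeomG κ ℓ (q 0)] : Fin 3 → ℝ)
          ((fun i => i) (⟨2, by norm_num⟩ : Fin 3))) = fun q => solGeomG κ ℓ (q 0) := by
        funext q; rfl
      rw [h1]
      by_cases hk : k = 0
      · subst hk
        rw [pd_zero_fst hp hG.differentiableAt, hG.deriv]
        simp
      · rw [pd_succ_fst hp hG.differentiableAt hk]
        simp [hk]
  · have h0 : (fun q : Pt => solMetric κ ℓ q i j) = fun _ => (0 : ℝ) := by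
      funext q
      rw [solGeom_metric_eq, Matrix.diagonal_apply_ne _ hij]
    rw [h0, pd_const]
    simp [hij]

/-- table of the Christoffel symbols -/
noncomputable def solGeomChr (κ ℓ : ℝ) (k i j : Fin 3) (x : ℝ) : ℝ :=
  if k = 0 ∧ i = 1 ∧ j = 1 then -(κ * solGeomE κ ℓ x)
  else if k = 0 ∧ i = 2 ∧ j = 2 then κ * solGeomG κ ℓ x
  else if (k = 1 ∧ i = 0 ∧ j = 1) ∨ (k = 1 ∧ i = 1 ∧ j = 0) then κ
  else if (k = 2 ∧ i = 0 ∧ j = 2) ∨ (k = 2 ∧ i = 2 ∧ j = 0) then -κ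
  else 0

/-- table of the derivatives of the Christoffel symbols -/
noncomputable def solGeomChr' (κ ℓ : ℝ) (k i j : Fin 3) (x : ℝ) : ℝ :=
  if k = 0 ∧ i = 1 ∧ j = 1 then -(2 * κ ^ 2 * solGeomE κ ℓ x)
  else if k = 0 ∧ i = 2 ∧ j = 2 then -(2 * κ ^ 2 * solGeomG κ ℓ x)
  else 0

theorem solGeom_christ {κ ℓ : ℝ} (hℓ : 0 < ℓ) (k i j : Fin 3) {p : Pt} (hp : p ∈ slab) :
    christ (solMetric κ ℓ) k i j p = solGeomChr κ ℓ k i j (p 0) := by
  have h1 := (solGeom_E_pos κ hℓ (p 0)).ne'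
  have h2 := (solGeom_G_pos κ hℓ (p 0)).ne'
  unfold christ
  simp only [solGeom_pd_g κ ℓ hp, solGeom_inv hℓ, Fin.sum_univ_three, Matrix.diagonal_apply]
  unfold solGeomChr
  fin_cases k <;> fin_cases i <;> fin_cases j <;> simp <;> field_simp

theorem solGeom_chr_contDiff (κ ℓ : ℝ) (k i j : Fin 3) :
    ContDiff ℝ ∞ (solGeomChr κ ℓ k i j) := by
  have hE := solGeom_E_contDiff κ ℓ
  have hG := solGeom_G_contDiff κ ℓ
  have h0 : solGeomChr κ ℓ k i j = fun x => solGeomChr κ ℓ k i j x := rfl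
  rw [h0]
  unfold solGeomChr
  split_ifs <;> fun_prop

theorem solGeom_chr_hasDerivAt (κ ℓ : ℝ) (k i j : Fin 3) (x : ℝ) :
    HasDerivAt (solGeomChr κ ℓ k i j) (solGeomChr' κ ℓ k i j x) x := by
  have hE := solGeom_E_hasDerivAt κ ℓ x
  have hG := solGeom_G_hasDerivAt κ ℓ x
  have hE' : HasDerivAt (fun x => -(κ * solGeomE κ ℓ x)) (-(2 * κ ^ 2 * solGeomE κ ℓ x)) x :=
    ((hE.const_mul κ).fun_neg).congr_deriv (by ring)
  have hG' : HasDerivAt (fun x => κ * solGeomG κ ℓ x) (-(2 * κ ^ 2 * solGeomG κ ℓ x)) x :=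
    (hG.const_mul κ).congr_deriv (by ring)
  have h0 : solGeomChr κ ℓ k i j = fun x => solGeomChr κ ℓ k i j x := rfl
  rw [h0]
  unfold solGeomChr solGeomChr'
  split_ifs
  · exact hE'
  · exact hG'
  · exact hasDerivAt_const _ _
  · exact hasDerivAt_const _ _
  · exact hasDerivAt_const _ _

theorem solGeom_pd_christ {κ ℓ : ℝ} (hℓ : 0 < ℓ) (l k i j : Fin 3) {p : Pt} (hp : p ∈ slab) :
    pd l (christ (solMetric κ ℓ) k i j) p = if l = 0 then solGeomChr' κ ℓ k i j (p 0) else 0 := by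
  have h1 : EqOn (christ (solMetric κ ℓ) k i j) (fun q => solGeomChr κ ℓ k i j (q 0)) slab :=
    fun q hq => solGeom_christ hℓ k i j hq
  rw [pd_congr h1 l hp]
  have h2 := solGeom_chr_hasDerivAt κ ℓ k i j (p 0)
  by_cases hl : l = 0
  · subst hl
    rw [pd_zero_fst hp h2.differentiableAt, h2.deriv]
    simp
  · rw [pd_succ_fst hp h2.differentiableAt hl]
    simp [hl]

theorem solGeom_scal {κ ℓ : ℝ} (hℓ : 0 < ℓ) {p : Pt} (hp : p ∈ slab) :
    scal (solMetric κ ℓ) p = -(2 * κ ^ 2) := by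
  have h1 := (solGeom_E_pos κ hℓ (p 0)).ne'
  have h2 := (solGeom_G_pos κ hℓ (p 0)).ne'
  unfold scal
  simp only [solGeom_pd_christ hℓ _ _ _ _ hp, solGeom_christ hℓ _ _ _ hp, solGeom_inv hℓ,
    Fin.sum_univ_three, Matrix.diagonal_apply]
  unfold solGeomChr solGeomChr'
  simp
  field_simp
  ring

theorem isMetric_sol (κ ℓ : ℝ) (hℓ : 0 < ℓ) : IsMetric (solMetric κ ℓ) := by
  refine ⟨fun i j => ?_, fun p _ => ?_⟩
  · by_cases hij : i = j
    · subst hij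
      have h0 : (fun q : Pt => solMetric κ ℓ q i i)
          = fun q => (![1, solGeomE κ ℓ (q 0), solGeomG κ ℓ (q 0)] : Fin 3 → ℝ) i := by
        funext q
        rw [solGeom_metric_eq, Matrix.diagonal_apply_eq]
      rw [h0]
      fin_cases i
      · exact smoothFn_const 1
      · exact smoothFn_fst (solGeom_E_contDiff κ ℓ)
      · exact smoothFn_fst (solGeom_G_contDiff κ ℓ)
    · have h0 : (fun q : Pt => solMetric κ ℓ q i j) = fun _ => (0 : ℝ) := by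
        funext q
        rw [solGeom_metric_eq, Matrix.diagonal_apply_ne _ hij]
      rw [h0]
      exact smoothFn_const 0
  · rw [solGeom_metric_eq, Matrix.posDef_diagonal_iff]
    intro i
    fin_cases i
    · exact one_pos
    · exact solGeom_E_pos κ hℓ (p 0)
    · exact solGeom_G_pos κ hℓ (p 0)

theorem confLap_sol (κ ℓ : ℝ) (hℓ : 0 < ℓ) {u : Pt → ℝ} (hu : ContDiffOn ℝ ∞ u slab) {p : Pt}
    (hp : p ∈ slab) : confLap (solMetric κ ℓ) u p = solOp κ ℓ u p := by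
  have h1 := (solGeom_E_pos κ hℓ (p 0)).ne'
  have h2 := (solGeom_G_pos κ hℓ (p 0)).ne'
  unfold confLap lap solOp
  rw [solGeom_scal hℓ hp]
  simp only [solGeom_christ hℓ _ _ _ hp, solGeom_inv hℓ, Fin.sum_univ_three,
    Matrix.diagonal_apply]
  unfold solGeomChr
  simp
  have e1 : (solGeomE κ ℓ (p 0))⁻¹ = (ℓ ^ 2)⁻¹ * Real.exp (-(2 * κ * p 0)) := by
    unfold solGeomE
    rw [mul_inv, Real.exp_neg]
  have e2 : (solGeomG κ ℓ (p 0))⁻¹ = (ℓ ^ 2)⁻¹ * Real.exp (2 * κ * p 0) := by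
    unfold solGeomG
    rw [mul_inv, Real.exp_neg, inv_inv]
  have e3 : (solGeomE κ ℓ (p 0))⁻¹ * solGeomE κ ℓ (p 0) = 1 := inv_mul_cancel₀ h1
  have e4 : (solGeomG κ ℓ (p 0))⁻¹ * solGeomG κ ℓ (p 0) = 1 := inv_mul_cancel₀ h2
  linear_combination (-pd 1 (pd 1 u) p) * e1 + (-pd 2 (pd 2 u) p) * e2
    + (-κ * pd 0 u p) * e3 + (κ * pd 0 u p) * e4

theorem confB_sol (κ ℓ : ℝ) (hℓ : 0 < ℓ) (u : Pt → ℝ) {p : Pt} (hp : p ∈ bdry) :
    confB (solMetric κ ℓ) u p = outSign p * pd 0 u p := by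
  have hps := bdry_subset hp
  have h1 := (solGeom_E_pos κ hℓ (p 0)).ne'
  have h2 := (solGeom_G_pos κ hℓ (p 0)).ne'
  have hind : (indMetric (solMetric κ ℓ) p)⁻¹
      = Matrix.diagonal ![(solGeomE κ ℓ (p 0))⁻¹, (solGeomG κ ℓ (p 0))⁻¹] := by
    have h0 : indMetric (solMetric κ ℓ) p
        = Matrix.diagonal ![solGeomE κ ℓ (p 0), solGeomG κ ℓ (p 0)] := by
      ext a b
      unfold indMetric
      rw [solGeom_metric_eq]
      fin_cases a <;> fin_cases b <;> simp [Matrix.diagonal]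
    apply Matrix.inv_eq_right_inv
    rw [h0, Matrix.diagonal_mul_diagonal, ← Matrix.diagonal_one]
    congr 1
    funext i
    fin_cases i
    · simp [h1]
    · simp [h2]
  have hmean : meanCurv (solMetric κ ℓ) p = 0 := by
    unfold meanCurv secondForm
    rw [hind]
    simp only [solGeom_christ hℓ _ _ _ hps, solGeom_inv hℓ, Fin.sum_univ_two,
      Matrix.diagonal_apply]
    unfold solGeomChr
    simp
    field_simp
    ring
  unfold confB normalDeriv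
  rw [hmean]
  simp only [solGeom_inv hℓ, Fin.sum_univ_three, Matrix.diagonal_apply]
  simp

end Pool.Agent.H13.Steklov
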