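import Pool.Agent.H13.Steklov.Op

/-!
# The touching lemma

At an interior minimum with value `0` the conformal Laplacian is `≤ 0`.
-/

open scoped ContDiff Topology
open Set Filter

namespace Pool.Agent.H13.Steklov

theorem touch_second (h : ℝ → ℝ) (hmin : IsLocalMin h 0) (hc : ContinuousAt h 0) :
    0 ≤ deriv (deriv h) 0 := by
  by_contra hcon
  push Not at hcon
  have hd : deriv h 0 = 0 := hmin.deriv_eq_zero
  have hmax : IsLocalMax h 0 := isLocalMax_of_deriv_deriv_neg hcon hd hc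
  have heq : h =ᶠ[𝓝 0] fun _ : ℝ => h 0 := by
    filter_upwards [hmin, hmax] with x h1 h2
    exact le_antisymm h2 h1
  have h1 : deriv h =ᶠ[𝓝 0] deriv fun _ : ℝ => h 0 := heq.deriv
  have h2 : deriv (deriv h) 0 = deriv (deriv fun _ : ℝ => h 0) 0 := h1.deriv_eq
  rw [h2] at hcon
  simp at hcon

theorem touch_pd {F : Pt → ℝ} {q : Pt} (hq : q 0 ∈ Ioo (0 : ℝ) 1) (i : Fin 3) :
    pd i F q = fderiv ℝ F q (Pi.single i 1) := by
  unfold pd
  rw [fderivWithin_of_mem_nhds (slab_mem_nhds hq)]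

theorem touch_line {F : Pt → ℝ} (hF : ContDiffOn ℝ ∞ F slab) {q : Pt}
    (hq : q 0 ∈ Ioo (0 : ℝ) 1) (v p : Pt) (t : ℝ) (hqt : q = p + t • v) :
    HasDerivAt (fun s : ℝ => F (p + s • v)) (∑ j, v j * pd j F q) t := by
  have h1 : DifferentiableAt ℝ F q :=
    (hF.contDiffAt (slab_mem_nhds hq)).differentiableAt (by simp)
  have h2 : HasDerivAt (fun s : ℝ => p + s • v) v t := by
    have := ((hasDerivAt_id t).smul_const v).const_add p
    simpa using this
  have h3 : HasDerivAt (fun s : ℝ => F (p + s • v)) (fderiv ℝ F q v) t := by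
    subst hqt
    exact h1.hasFDerivAt.comp_hasDerivAt t h2
  have h4 : fderiv ℝ F q v = ∑ j, v j * pd j F q := by
    have hv : v = ∑ j, v j • (Pi.single j (1 : ℝ) : Pt) := by
      ext i
      simp [Finset.sum_apply, Pi.single_apply]
    conv_lhs => rw [hv]
    rw [map_sum]
    refine Finset.sum_congr rfl fun j _ => ?_
    rw [map_smul, smul_eq_mul, touch_pd hq]
  rwa [h4] at h3

theorem touch_hess {F : Pt → ℝ} (hF : ContDiffOn ℝ ∞ F slab) {p : Pt}
    (hp : p 0 ∈ Ioo (0 : ℝ) 1) (hmin : IsLocalMin F p) (v : Pt) :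
    0 ≤ ∑ j, v j * ∑ i, v i * pd i (pd j F) p := by
  set h : ℝ → ℝ := fun s => F (p + s • v) with hh
  have hpath : ContinuousAt (fun s : ℝ => p + s • v) 0 := by fun_prop
  have hmem : ∀ᶠ s in 𝓝 (0 : ℝ), (p + s • v) 0 ∈ Ioo (0 : ℝ) 1 := by
    have h1 : ContinuousAt (fun s : ℝ => (p + s • v) 0) 0 := by fun_prop
    have h2 : (p + (0 : ℝ) • v) 0 ∈ Ioo (0 : ℝ) 1 := by simpa using hp
    exact h1.eventually (isOpen_Ioo.mem_nhds h2)
  have hderiv : deriv h =ᶠ[𝓝 0] fun s => ∑ j, v j * pd j F (p + s • v) := by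
    filter_upwards [hmem] with s hs
    exact (touch_line hF hs v p s rfl).deriv
  have hpp : p = p + (0 : ℝ) • v := by simp
  have hsecond : deriv (deriv h) 0 = ∑ j, v j * ∑ i, v i * pd i (pd j F) p := by
    rw [hderiv.deriv_eq]
    have h1 : HasDerivAt (fun s : ℝ => ∑ j, v j * pd j F (p + s • v))
        (∑ j, v j * ∑ i, v i * pd i (pd j F) p) 0 := by
      apply HasDerivAt.fun_sum
      intro j _
      exact (touch_line (contDiffOn_pd hF j) hp v p 0 hpp).const_mul (v j)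
    exact h1.deriv
  rw [← hsecond]
  apply touch_second
  · have h1 : ∀ᶠ q in 𝓝 p, F p ≤ F q := hmin
    have h2 : Tendsto (fun s : ℝ => p + s • v) (𝓝 0) (𝓝 p) := by
      have := hpath.tendsto
      rwa [← hpp] at this
    have h3 := h2.eventually h1
    filter_upwards [h3] with s hs
    simpa [hh] using hs
  · exact (touch_line hF hp v p 0 hpp).continuousAt

theorem touch_trace {A : Matrix (Fin 3) (Fin 3) ℝ} (hA : A.PosSemidef) (H : Fin 3 → Fin 3 → ℝ)
    (hH : ∀ v : Fin 3 → ℝ, 0 ≤ ∑ j, v j * ∑ i, v i * H i j) : 0 ≤ ∑ i, ∑ j, A i j * H i j := by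
  obtain ⟨m, v, rfl⟩ := Matrix.posSemidef_iff_eq_sum_vecMulVec.1 hA
  have h1 : ∑ i, ∑ j, (∑ r, Matrix.vecMulVec (v r) (star (v r))) i j * H i j =
      ∑ r, ∑ j, v r j * ∑ i, v r i * H i j := by
    simp only [Matrix.sum_apply, Matrix.vecMulVec_apply, Pi.star_apply, star_trivial,
      Finset.sum_mul, Finset.mul_sum]
    rw [Finset.sum_comm_cycle]
    refine Finset.sum_congr rfl fun r _ => ?_
    rw [Finset.sum_comm]
    refine Finset.sum_congr rfl fun j _ => Finset.sum_congr rfl fun i _ => ?_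
    ring
  rw [h1]
  exact Finset.sum_nonneg fun r _ => hH (v r)

theorem touch {g : Pt → Matrix (Fin 3) (Fin 3) ℝ} (hg : IsMetric g) {F : Pt → ℝ}
    (hF : ContDiffOn ℝ ∞ F slab) (h0 : ∀ q ∈ slab, 0 ≤ F q) {p : Pt} (hp : p 0 ∈ Ioo (0 : ℝ) 1)
    (hFp : F p = 0) : confLap g F p ≤ 0 := by
  have hps : p ∈ slab := ⟨hp.1.le, hp.2.le⟩
  have hmin : IsLocalMin F p := by
    filter_upwards [slab_mem_nhds hp] with q hq
    rw [hFp]
    exact h0 q hq
  have h1 : ∀ k, pd k F p = 0 := by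
    intro k
    rw [touch_pd hp, hmin.fderiv_eq_zero]
    rfl
  have hA : ((g p)⁻¹).PosSemidef := ((hg.2 p hps).inv).posSemidef
  have h2 := touch_trace hA (fun i j => pd i (pd j F) p) fun v => touch_hess hF hp hmin v
  rw [confLap_eq]
  simp only [h1, mul_zero, Finset.sum_const_zero, hFp, add_zero]
  linarith

end Pool.Agent.H13.Steklov
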